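import Mathlib

set_option autoImplicit false

open Set Filter Topology

namespace Pool.Agent.Helper55.PM

/-- The cubic polynomial `x³ - 5x² + 6x - 1`. -/
def cub (x : ℝ) : ℝ := x ^ 3 - 5 * x ^ 2 + 6 * x - 1

lemma exists_roots : ∃ al : Fin 3 → ℝ, (∀ i, cub (al i) = 0) ∧ (3 < al 0 ∧ al 0 < 4) ∧
    (1 < al 1 ∧ al 1 < 2) ∧ (0 < al 2 ∧ al 2 < 1) := by
  have hc : Continuous cub := by unfold cub; fun_prop
  obtain ⟨a, ha, ha0⟩ : ∃ x ∈ Ioo (3 : ℝ) 4, cub x = 0 := by
    have := intermediate_value_Ioo (a := (3 : ℝ)) (b := 4) (by norm_num) hc.continuousOn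
    have h0 : (0 : ℝ) ∈ Ioo (cub 3) (cub 4) := by constructor <;> norm_num [cub]
    exact this h0
  obtain ⟨b, hb, hb0⟩ : ∃ x ∈ Ioo (1 : ℝ) 2, cub x = 0 := by
    have := intermediate_value_Ioo' (a := (1 : ℝ)) (b := 2) (by norm_num) hc.continuousOn
    have h0 : (0 : ℝ) ∈ Ioo (cub 2) (cub 1) := by constructor <;> norm_num [cub]
    exact this h0
  obtain ⟨c, hc', hc0⟩ : ∃ x ∈ Ioo (0 : ℝ) 1, cub x = 0 := by
    have := intermediate_value_Ioo (a := (0 : ℝ)) (b := 1) (by norm_num) hc.continuousOn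
    have h0 : (0 : ℝ) ∈ Ioo (cub 0) (cub 1) := by constructor <;> norm_num [cub]
    exact this h0
  refine ⟨![a, b, c], ?_, ha, hb, hc'⟩
  intro i
  fin_cases i
  · exact ha0
  · exact hb0
  · exact hc0

/-- The three roots. -/
noncomputable def al : Fin 3 → ℝ := exists_roots.choose

lemma al_root (i : Fin 3) : al i ^ 3 - 5 * al i ^ 2 + 6 * al i - 1 = 0 :=
  exists_roots.choose_spec.1 i
lemma al0 : 3 < al 0 ∧ al 0 < 4 := exists_roots.choose_spec.2.1
lemma al1 : 1 < al 1 ∧ al 1 < 2 := exists_roots.choose_spec.2.2.1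
lemma al2 : 0 < al 2 ∧ al 2 < 1 := exists_roots.choose_spec.2.2.2

lemma al_pos (i : Fin 3) : 0 < al i := by
  fin_cases i
  · exact lt_trans (by norm_num) al0.1
  · exact lt_trans (by norm_num) al1.1
  · exact al2.1

lemma al_lt (i : Fin 3) : al i < 4 := by
  fin_cases i
  · exact al0.2
  · exact al1.2.trans (by norm_num)
  · exact al2.2.trans (by norm_num)

lemma al_sum : al 0 + al 1 + al 2 = 5 := by
  have h0 := al_root 0
  have h1 := al_root 1
  have h2 := al_root 2
  have h01 : al 0 - al 1 ≠ 0 := by have := al0.1; have := al1.2; intro h; linarith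
  have h02 : al 0 - al 2 ≠ 0 := by have := al0.1; have := al2.2; intro h; linarith
  have h12 : al 1 - al 2 ≠ 0 := by have := al1.1; have := al2.2; intro h; linarith
  have e01 : al 0 ^ 2 + al 0 * al 1 + al 1 ^ 2 - 5 * (al 0 + al 1) + 6 = 0 := by
    apply mul_left_cancel₀ h01
    linear_combination h0 - h1
  have e02 : al 0 ^ 2 + al 0 * al 2 + al 2 ^ 2 - 5 * (al 0 + al 2) + 6 = 0 := by
    apply mul_left_cancel₀ h02
    linear_combination h0 - h2
  have : (al 1 - al 2) * (al 0 + al 1 + al 2 - 5) = 0 := by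
    linear_combination e01 - e02
  rcases mul_eq_zero.1 this with h | h
  · exact absurd h h12
  · linarith

lemma al_prod : al 0 * al 1 * al 2 = 1 := by
  have h0 := al_root 0
  have h1 := al_root 1
  have h01 : al 0 - al 1 ≠ 0 := by have := al0.1; have := al1.2; intro h; linarith
  have e01 : al 0 ^ 2 + al 0 * al 1 + al 1 ^ 2 - 5 * (al 0 + al 1) + 6 = 0 := by
    apply mul_left_cancel₀ h01
    linear_combination h0 - h1
  have hs : al 2 = 5 - al 0 - al 1 := by have := al_sum; linarith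
  rw [hs]
  linear_combination h0 - al 0 * e01

/-- The exponents. -/
noncomputable def mu (i : Fin 3) : ℝ := Real.log (al i)

lemma exp_mu (i : Fin 3) : Real.exp (mu i) = al i := Real.exp_log (al_pos i)

lemma mu0_pos : 0 < mu 0 := Real.log_pos (by have := al0.1; linarith)
lemma mu1_pos : 0 < mu 1 := Real.log_pos al1.1
lemma mu2_neg : mu 2 < 0 := Real.log_neg al2.1 al2.2

lemma mu_sum : mu 0 + mu 1 + mu 2 = 0 := by
  unfold mu
  rw [← Real.log_mul (al_pos 0).ne' (al_pos 1).ne', ← Real.log_mul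
    (mul_ne_zero (al_pos 0).ne' (al_pos 1).ne') (al_pos 2).ne', al_prod, Real.log_one]

lemma mu0_lt : mu 0 < 3 / 2 := by
  have h1 : (4 : ℝ) < Real.exp (3 / 2) := by
    have h2 := Real.exp_one_gt_d9
    have h3 : Real.exp (3 / 2) ^ 2 = Real.exp 1 ^ 3 := by
      rw [← Real.exp_nat_mul, ← Real.exp_nat_mul]; norm_num
    nlinarith [Real.exp_pos (3 / 2), Real.exp_pos 1, pow_pos (Real.exp_pos 1) 2,
      pow_lt_pow_left₀ h2 (by norm_num) (by norm_num : (3 : ℕ) ≠ 0)]
  rw [mu, Real.log_lt_iff_lt_exp (al_pos 0)]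
  exact al0.2.trans h1

lemma mu1_lt : mu 1 < 1 := by
  rw [mu, Real.log_lt_iff_lt_exp (al_pos 1)]
  have := Real.exp_one_gt_d9
  have := al1.2
  linarith

lemma abs_mu_le (i : Fin 3) : |mu i| ≤ 3 := by
  have := mu0_pos; have := mu1_pos; have := mu2_neg; have := mu_sum; have := mu0_lt
  have := mu1_lt
  fin_cases i
  · show |mu 0| ≤ 3
    rw [abs_le]; constructor <;> linarith
  · show |mu 1| ≤ 3
    rw [abs_le]; constructor <;> linarith
  · show |mu 2| ≤ 3
    rw [abs_le]; constructor <;> linarith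

lemma mu_ne (i : Fin 3) : mu i ≠ 0 := by
  have := mu0_pos; have := mu1_pos; have := mu2_neg
  fin_cases i
  · exact mu0_pos.ne'
  · exact mu1_pos.ne'
  · exact mu2_neg.ne

end Pool.Agent.Helper55.PM
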