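import Mathlib
import Pool.Agent.Helper55.PM.Alg

set_option autoImplicit false

open Set Filter Topology

namespace Pool.Agent.Helper55.PM

/-- The covering space. -/
abbrev E7 : Type := EuclideanSpace ℝ (Fin 7)

/-- Exponents of the seven coordinates `(ϑ, r, τ, y₀, y₁, y₂, w)`. -/
noncomputable def mm : Fin 7 → ℝ := ![0, 0, 0, mu 0, mu 1, mu 2, 0]

@[simp] lemma mm0 : mm 0 = 0 := rfl
@[simp] lemma mm1 : mm 1 = 0 := rfl
@[simp] lemma mm2 : mm 2 = 0 := rfl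
@[simp] lemma mm3 : mm 3 = mu 0 := rfl
@[simp] lemma mm4 : mm 4 = mu 1 := rfl
@[simp] lemma mm5 : mm 5 = mu 2 := rfl
@[simp] lemma mm6 : mm 6 = 0 := rfl

/-- The dilation `x_j ↦ exp (m_j k) x_j`. -/
noncomputable def dil (k : ℝ) : E7 ≃L[ℝ] E7 :=
  LinearEquiv.toContinuousLinearEquiv
    { toFun := fun x => WithLp.toLp 2 fun j => Real.exp (mm j * k) * x j
      map_add' := fun x y => by ext j; simp [mul_add]
      map_smul' := fun c x => by ext j; simp; ring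
      invFun := fun x => WithLp.toLp 2 fun j => Real.exp (-(mm j * k)) * x j
      left_inv := fun x => by
        ext j
        simp only [← mul_assoc, ← Real.exp_add, neg_add_cancel, Real.exp_zero, one_mul]
      right_inv := fun x => by
        ext j
        simp only [← mul_assoc, ← Real.exp_add, add_neg_cancel, Real.exp_zero, one_mul] }

@[simp] lemma dil_apply (k : ℝ) (x : E7) (j : Fin 7) : dil k x j = Real.exp (mm j * k) * x j := rfl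

lemma dil_dil (k l : ℝ) (x : E7) : dil k (dil l x) = dil (k + l) x := by
  ext j
  simp only [dil_apply, ← mul_assoc, ← Real.exp_add]
  ring_nf

lemma dil_zero (x : E7) : dil 0 x = x := by
  ext j; simp

/-- `n₀ + n₁ x + n₂ x²`. -/
def pv (n : Fin 3 → ℤ) (x : ℝ) : ℝ := n 0 + n 1 * x + n 2 * x ^ 2

lemma pv_mul (n : Fin 3 → ℤ) : ∃ n' : Fin 3 → ℤ, ∀ i, al i * pv n (al i) = pv n' (al i) := by
  refine ⟨![n 2, n 0 - 6 * n 2, n 1 + 5 * n 2], fun i => ?_⟩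
  simp only [pv, Matrix.cons_val_zero, Matrix.cons_val_one, Matrix.cons_val]
  push_cast
  linear_combination (n 2 : ℝ) * al_root i

lemma pv_div (n : Fin 3 → ℤ) : ∃ n' : Fin 3 → ℤ, ∀ i, (al i)⁻¹ * pv n (al i) = pv n' (al i) := by
  refine ⟨![6 * n 0 + n 1, -5 * n 0 + n 2, n 0], fun i => ?_⟩
  have h := (al_pos i).ne'
  rw [inv_mul_eq_iff_eq_mul₀ h]
  simp only [pv, Matrix.cons_val_zero, Matrix.cons_val_one, Matrix.cons_val]
  push_cast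
  linear_combination -(n 0 : ℝ) * al_root i

lemma pv_exp (k : ℤ) (n : Fin 3 → ℤ) :
    ∃ n' : Fin 3 → ℤ, ∀ i, Real.exp (mu i * k) * pv n (al i) = pv n' (al i) := by
  induction k using Int.induction_on generalizing n with
  | zero => exact ⟨n, fun i => by simp⟩
  | succ k ih =>
    obtain ⟨n1, h1⟩ := pv_mul n
    obtain ⟨n2, h2⟩ := ih n1
    refine ⟨n2, fun i => ?_⟩
    rw [← h2 i, ← h1 i]
    push_cast
    rw [mul_add, Real.exp_add, mul_one, exp_mu]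
    ring
  | pred k ih =>
    obtain ⟨n1, h1⟩ := pv_div n
    obtain ⟨n2, h2⟩ := ih n1
    refine ⟨n2, fun i => ?_⟩
    rw [← h2 i, ← h1 i]
    push_cast
    rw [mul_sub, Real.exp_sub, mul_one, exp_mu]
    field_simp

/-- The lattice of translation parts. -/
structure IsLat (c : E7) : Prop where
  h0 : ∃ a : ℤ, c 0 = a * (2 * Real.pi)
  h1 : ∃ a : ℤ, c 1 = a * (2 * Real.pi)
  h2 : ∃ k : ℤ, c 2 = k
  h345 : ∃ n : Fin 3 → ℤ, c 3 = pv n (al 0) ∧ c 4 = pv n (al 1) ∧ c 5 = pv n (al 2)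
  h6 : ∃ a : ℤ, c 6 = a * (2 * Real.pi)

lemma pv_add (n n' : Fin 3 → ℤ) (x : ℝ) : pv n x + pv n' x = pv (n + n') x := by
  simp [pv]; ring

lemma pv_neg (n : Fin 3 → ℤ) (x : ℝ) : -pv n x = pv (-n) x := by
  simp [pv]; ring

lemma IsLat.zero : IsLat 0 :=
  ⟨⟨0, by simp⟩, ⟨0, by simp⟩, ⟨0, by simp⟩, ⟨0, by simp [pv]⟩, ⟨0, by simp⟩⟩

lemma IsLat.comp {c c' : E7} (h : IsLat c) (h' : IsLat c') : IsLat (dil (c 2) c' + c) := by
  obtain ⟨⟨a0, h0⟩, ⟨a1, h1⟩, ⟨k, h2⟩, ⟨n, h3, h4, h5⟩, ⟨a6, h6⟩⟩ := h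
  obtain ⟨⟨a0', h0'⟩, ⟨a1', h1'⟩, ⟨k', h2'⟩, ⟨n', h3', h4', h5'⟩, ⟨a6', h6'⟩⟩ := h'
  obtain ⟨n2, hn2⟩ := pv_exp k n'
  refine ⟨⟨a0' + a0, ?_⟩, ⟨a1' + a1, ?_⟩, ⟨k' + k, ?_⟩, ⟨n2 + n, ?_, ?_, ?_⟩, ⟨a6' + a6, ?_⟩⟩
  · simp [h0, h0']; ring
  · simp [h1, h1']; ring
  · simp [h2, h2']
  · simp only [PiLp.add_apply, dil_apply, mm3, h3, h3', h2, hn2, pv_add]
  · simp only [PiLp.add_apply, dil_apply, mm4, h4, h4', h2, hn2, pv_add]
  · simp only [PiLp.add_apply, dil_apply, mm5, h5, h5', h2, hn2, pv_add]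
  · simp [h6, h6']; ring

lemma IsLat.inv {c : E7} (h : IsLat c) : IsLat (-(dil (-c 2) c)) := by
  obtain ⟨⟨a0, h0⟩, ⟨a1, h1⟩, ⟨k, h2⟩, ⟨n, h3, h4, h5⟩, ⟨a6, h6⟩⟩ := h
  obtain ⟨n2, hn2⟩ := pv_exp (-k) n
  push_cast at hn2
  refine ⟨⟨-a0, ?_⟩, ⟨-a1, ?_⟩, ⟨-k, ?_⟩, ⟨-n2, ?_, ?_, ?_⟩, ⟨-a6, ?_⟩⟩
  · simp [h0]
  · simp [h1]
  · simp [h2]
  · simp only [PiLp.neg_apply, dil_apply, mm3, h3, h2, hn2, pv_neg]
  · simp only [PiLp.neg_apply, dil_apply, mm4, h4, h2, hn2, pv_neg]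
  · simp only [PiLp.neg_apply, dil_apply, mm5, h5, h2, hn2, pv_neg]
  · simp [h6]

/-- The deck group. -/
def Gam : Subgroup (Equiv.Perm E7) where
  carrier := {s | ∃ c, IsLat c ∧ ∀ x, s x = dil (c 2) x + c}
  one_mem' := ⟨0, IsLat.zero, fun x => by simp [dil_zero]⟩
  mul_mem' := by
    rintro s s' ⟨c, hc, hs⟩ ⟨c', hc', hs'⟩
    refine ⟨dil (c 2) c' + c, hc.comp hc', fun x => ?_⟩
    rw [Equiv.Perm.mul_apply, hs', hs, map_add, dil_dil]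
    simp only [PiLp.add_apply, dil_apply, mm2, zero_mul, Real.exp_zero, one_mul]
    rw [add_comm (c 2), add_assoc]
  inv_mem' := by
    rintro s ⟨c, hc, hs⟩
    refine ⟨-(dil (-c 2) c), hc.inv, fun x => ?_⟩
    rw [Equiv.Perm.inv_eq_iff_eq, hs]
    simp only [PiLp.neg_apply, dil_apply, mm2, zero_mul, Real.exp_zero, one_mul]
    rw [map_add, dil_dil, map_neg, dil_dil]
    simp [dil_zero]

end Pool.Agent.Helper55.PM
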