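import Mathlib
import Pool.Agent.Helper55.PM.Group

set_option autoImplicit false

open Set Filter Topology

namespace Pool.Agent.Helper55.PM

lemma smul_def' (g : Gam) (x : E7) : g • x = (g : Equiv.Perm E7) x := rfl

lemma gam_lat (g : Gam) : IsLat (g • (0 : E7)) := by
  obtain ⟨s, c, hc, hs⟩ := g
  have : (⟨s, c, hc, hs⟩ : Gam) • (0 : E7) = c := by
    rw [smul_def', hs, map_zero, zero_add]
  rw [this]; exact hc

lemma gam_apply (g : Gam) (x : E7) : g • x = dil ((g • (0 : E7)) 2) x + g • (0 : E7) := by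
  obtain ⟨s, c, hc, hs⟩ := g
  have : (⟨s, c, hc, hs⟩ : Gam) • (0 : E7) = c := by
    rw [smul_def', hs, map_zero, zero_add]
  rw [this, smul_def', hs]

/-- The element of the deck group with translation part `c`. -/
noncomputable def ofLat (c : E7) (hc : IsLat c) : Gam :=
  ⟨{ toFun := fun x => dil (c 2) x + c
     invFun := fun x => dil (-c 2) (x - c)
     left_inv := fun x => by simp [dil_dil, dil_zero]
     right_inv := fun x => by simp [dil_dil, dil_zero] }, c, hc, fun _ => rfl⟩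

lemma ofLat_smul (c : E7) (hc : IsLat c) (x : E7) : ofLat c hc • x = dil (c 2) x + c := rfl

lemma gam_ext {g g' : Gam} (h : g • (0 : E7) = g' • (0 : E7)) : g = g' := by
  apply Subtype.ext
  apply Equiv.ext
  intro x
  have h1 := gam_apply g x
  have h2 := gam_apply g' x
  rw [h] at h1
  exact h1.trans h2.symm

instance : ContinuousConstSMul Gam E7 where
  continuous_const_smul g := by
    have : (fun x : E7 => g • x) = fun x => dil ((g • (0 : E7)) 2) x + g • (0 : E7) :=
      funext (gam_apply g)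
    rw [this]
    fun_prop

lemma gam_smul_two (g : Gam) (x : E7) : (g • x) 2 = x 2 + (g • (0 : E7)) 2 := by
  rw [gam_apply]; simp

instance : IsCancelSMul Gam E7 where
  right_cancel' g g' x h := by
    apply gam_ext
    have h2 : (g • (0 : E7)) 2 = (g' • (0 : E7)) 2 := by
      have h3 := gam_smul_two g x
      have h4 := gam_smul_two g' x
      rw [h] at h3
      linarith
    have h5 := gam_apply g x
    have h6 := gam_apply g' x
    rw [h, h6, h2] at h5
    exact (add_left_cancel h5).symm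

lemma finite_int_abs_le (B : ℝ) : {a : ℤ | |(a : ℝ)| ≤ B}.Finite := by
  obtain ⟨N, hN⟩ := exists_nat_ge B
  refine (Set.finite_Icc (-(N : ℤ)) N).subset fun a ha => ?_
  have h1 : |(a : ℝ)| ≤ N := ha.trans hN
  rw [abs_le] at h1
  constructor
  · exact_mod_cast h1.1
  · exact_mod_cast h1.2

lemma pv_bound (n : Fin 3 → ℤ) {B : ℝ} (h0 : |pv n (al 0)| ≤ B) (h1 : |pv n (al 1)| ≤ B)
    (h2 : |pv n (al 2)| ≤ B) : ∀ i, |(n i : ℝ)| ≤ B + 36 * (4 * B / (al 1 - al 2)) + 8 * B := by
  have hB : 0 ≤ B := (abs_nonneg _).trans h0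
  obtain ⟨a0, a0'⟩ := al0
  obtain ⟨a1, a1'⟩ := al1
  obtain ⟨a2, a2'⟩ := al2
  have hd : 0 < al 1 - al 2 := by linarith
  set y0 := pv n (al 0) with hy0
  set y1 := pv n (al 1) with hy1
  set y2 := pv n (al 2) with hy2
  have e1 : |(y0 - y1) / (al 0 - al 1)| ≤ 2 * B := by
    rw [abs_div, div_le_iff₀ (abs_pos.2 (by linarith))]
    have : 1 ≤ |al 0 - al 1| := by rw [abs_of_pos (by linarith)]; linarith
    calc |y0 - y1| ≤ |y0| + |y1| := abs_sub _ _
      _ ≤ 2 * B * 1 := by linarith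
      _ ≤ 2 * B * |al 0 - al 1| := by gcongr
  have e2 : |(y0 - y2) / (al 0 - al 2)| ≤ 2 * B := by
    rw [abs_div, div_le_iff₀ (abs_pos.2 (by linarith))]
    have : 1 ≤ |al 0 - al 2| := by rw [abs_of_pos (by linarith)]; linarith
    calc |y0 - y2| ≤ |y0| + |y2| := abs_sub _ _
      _ ≤ 2 * B * 1 := by linarith
      _ ≤ 2 * B * |al 0 - al 2| := by gcongr
  have f1 : (y0 - y1) / (al 0 - al 1) = n 1 + n 2 * (al 0 + al 1) := by
    rw [div_eq_iff (by linarith), hy0, hy1]; simp only [pv]; ring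
  have f2 : (y0 - y2) / (al 0 - al 2) = n 1 + n 2 * (al 0 + al 2) := by
    rw [div_eq_iff (by linarith), hy0, hy2]; simp only [pv]; ring
  have g2 : |(n 2 : ℝ)| ≤ 4 * B / (al 1 - al 2) := by
    rw [le_div_iff₀ hd]
    have : (n 2 : ℝ) * (al 1 - al 2) = (y0 - y1) / (al 0 - al 1) - (y0 - y2) / (al 0 - al 2) := by
      rw [f1, f2]; ring
    calc |(n 2 : ℝ)| * (al 1 - al 2) = |(n 2 : ℝ) * (al 1 - al 2)| := by
          rw [abs_mul, abs_of_pos hd]
      _ ≤ |(y0 - y1) / (al 0 - al 1)| + |(y0 - y2) / (al 0 - al 2)| := by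
          rw [this]; exact abs_sub _ _
      _ ≤ 4 * B := by linarith
  set X := 4 * B / (al 1 - al 2) with hX
  have hX0 : 0 ≤ X := (abs_nonneg _).trans g2
  have g1 : |(n 1 : ℝ)| ≤ 2 * B + 6 * X := by
    have : (n 1 : ℝ) = (y0 - y1) / (al 0 - al 1) - n 2 * (al 0 + al 1) := by rw [f1]; ring
    rw [this]
    calc |(y0 - y1) / (al 0 - al 1) - n 2 * (al 0 + al 1)|
        ≤ |(y0 - y1) / (al 0 - al 1)| + |(n 2 : ℝ) * (al 0 + al 1)| := abs_sub _ _
      _ ≤ 2 * B + X * 6 := by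
          rw [abs_mul, abs_of_pos (show 0 < al 0 + al 1 by linarith)]
          gcongr
          linarith
      _ = 2 * B + 6 * X := by ring
  have g0 : |(n 0 : ℝ)| ≤ B + 2 * (2 * B + 6 * X) + 4 * X := by
    have : (n 0 : ℝ) = y1 - n 1 * al 1 - n 2 * al 1 ^ 2 := by rw [hy1]; simp only [pv]; ring
    rw [this]
    calc |y1 - n 1 * al 1 - n 2 * al 1 ^ 2|
        ≤ |y1| + |(n 1 : ℝ) * al 1| + |(n 2 : ℝ) * al 1 ^ 2| :=
          (abs_sub _ _).trans (by gcongr; exact abs_sub _ _)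
      _ ≤ B + (2 * B + 6 * X) * 2 + X * 4 := by
          rw [abs_mul, abs_mul, abs_of_pos (show 0 < al 1 by linarith),
            abs_of_pos (show 0 < al 1 ^ 2 by positivity)]
          gcongr
          nlinarith
      _ = B + 2 * (2 * B + 6 * X) + 4 * X := by ring
  intro i
  fin_cases i
  · show |(n 0 : ℝ)| ≤ _
    linarith
  · show |(n 1 : ℝ)| ≤ _
    linarith
  · show |(n 2 : ℝ)| ≤ _
    linarith

end Pool.Agent.Helper55.PM
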