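import Mathlib

set_option autoImplicit false

open Set Filter Topology MeasureTheory Manifold
open scoped ContDiff

namespace Pool.Agent.Helper55.PM

variable {E : Type} [NormedAddCommGroup E] [NormedSpace ℝ E]
  {Q : Type} [TopologicalSpace Q] [ChartedSpace E Q]

/-- `π : E → Q` is a covering of the manifold `Q` whose deck transformations are affine, and
belong to the set `D`. -/
structure IsAffQuot (π : E → Q) (D : Set ((E ≃L[ℝ] E) × E)) : Prop where
  cont : Continuous π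
  symm_eq : ∀ e ∈ atlas E Q, ⇑e.symm = π
  surj : Function.Surjective π
  deck : ∀ x y, π x = π y → ∃ d ∈ D, d.1 x + d.2 = y
  inv : ∀ d ∈ D, ∀ z, π (d.1 z + d.2) = π z

namespace IsAffQuot

variable {π : E → Q} {D : Set ((E ≃L[ℝ] E) × E)} (h : IsAffQuot π D)
include h

lemma pi_chart {e : OpenPartialHomeomorph Q E} (he : e ∈ atlas E Q) {q : Q} (hq : q ∈ e.source) :
    π (e q) = q := by
  rw [← h.symm_eq e he]; exact e.left_inv hq

lemma chart_pi {e : OpenPartialHomeomorph Q E} (he : e ∈ atlas E Q) {x : E} (hx : x ∈ e.target) :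
    e (π x) = x := by
  rw [← h.symm_eq e he]; exact e.right_inv hx

lemma inj_target {e : OpenPartialHomeomorph Q E} (he : e ∈ atlas E Q) {x y : E}
    (hx : x ∈ e.target) (hy : y ∈ e.target) (hxy : π x = π y) : x = y := by
  rw [← h.chart_pi he hx, ← h.chart_pi he hy, hxy]

/-- A chart composed with `π` is locally an affine deck transformation. -/
lemma chart_comp_pi {e : OpenPartialHomeomorph Q E} (he : e ∈ atlas E Q) {x : E}
    (hx : π x ∈ e.source) : ∃ d ∈ D, d.1 x + d.2 = e (π x) ∧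
      (∀ᶠ z in 𝓝 x, e (π z) = d.1 z + d.2) := by
  obtain ⟨⟨A, b⟩, hd, hAb⟩ := h.deck x (e (π x)) (h.pi_chart he hx).symm
  have hpi := h.inv _ hd
  simp only at hAb hpi
  refine ⟨⟨A, b⟩, hd, hAb, ?_⟩
  have h1 : ∀ᶠ z in 𝓝 x, π z ∈ e.source := h.cont.continuousAt (e.open_source.mem_nhds hx)
  have h2 : ∀ᶠ z in 𝓝 x, A z + b ∈ e.target := by
    have hc : ContinuousAt (fun z => A z + b) x := by fun_prop
    refine hc (e.open_target.mem_nhds ?_)
    simp only [hAb]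
    exact e.map_source hx
  filter_upwards [h1, h2] with z hz1 hz2
  exact h.inj_target he (e.map_source hz1) hz2 (by rw [h.pi_chart he hz1, hpi])

lemma isManifold : IsManifold 𝓘(ℝ, E) ∞ Q := by
  refine isManifold_of_contDiffOn 𝓘(ℝ, E) ∞ Q fun e e' he he' => ?_
  intro x hx
  have hx' : x ∈ e.target ∧ e.symm x ∈ e'.source := by
    simpa using hx
  have hx2 : π x ∈ e'.source := by
    have := hx'.2
    rwa [h.symm_eq e he] at this
  obtain ⟨⟨A, b⟩, _, _, hev⟩ := h.chart_comp_pi he' hx2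
  have h1 : ContDiffAt ℝ ∞ (fun z => A z + b) x := by fun_prop
  have h2 : (𝓘(ℝ, E) ∘ (e.symm ≫ₕ e') ∘ 𝓘(ℝ, E).symm) =ᶠ[𝓝 x] fun z => A z + b := by
    filter_upwards [hev] with z hz
    simp only [modelWithCornersSelf_coe, modelWithCornersSelf_coe_symm, Function.comp_apply,
      id_eq, OpenPartialHomeomorph.coe_trans]
    rw [h.symm_eq e he, hz]
  exact (h1.congr_of_eventuallyEq h2).contDiffWithinAt

/-- The deck transformation which realises `chart ∘ π` near `x`. -/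
noncomputable def dk (x : E) : (E ≃L[ℝ] E) × E :=
  (h.chart_comp_pi (chart_mem_atlas E (π x)) (mem_chart_source E (π x))).choose

lemma dk_mem (x : E) : h.dk x ∈ D :=
  (h.chart_comp_pi (chart_mem_atlas E (π x)) (mem_chart_source E (π x))).choose_spec.1

lemma dk_apply (x : E) : (h.dk x).1 x + (h.dk x).2 = chartAt E (π x) (π x) :=
  (h.chart_comp_pi (chart_mem_atlas E (π x)) (mem_chart_source E (π x))).choose_spec.2.1

lemma dk_eventually (x : E) :
    ∀ᶠ z in 𝓝 x, chartAt E (π x) (π z) = (h.dk x).1 z + (h.dk x).2 :=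
  (h.chart_comp_pi (chart_mem_atlas E (π x)) (mem_chart_source E (π x))).choose_spec.2.2

/-- The linear part of the deck transformation: the derivative of `π` at `x`. -/
noncomputable def lin (x : E) : E ≃L[ℝ] E := (h.dk x).1

lemma hasMFDerivAt_pi (x : E) : HasMFDerivAt 𝓘(ℝ, E) 𝓘(ℝ, E) π x (h.lin x : E →L[ℝ] E) := by
  refine ⟨h.cont.continuousAt, ?_⟩
  have h1 : HasFDerivAt (fun z => (h.dk x).1 z + (h.dk x).2) (h.lin x : E →L[ℝ] E) x :=
    (h.lin x).hasFDerivAt.add_const _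
  have h2 : writtenInExtChartAt 𝓘(ℝ, E) 𝓘(ℝ, E) x π =ᶠ[𝓝 x]
      fun z => (h.dk x).1 z + (h.dk x).2 := by
    filter_upwards [h.dk_eventually x] with z hz
    simpa [writtenInExtChartAt] using hz
  have h3 := h1.congr_of_eventuallyEq h2
  have h4 : HasFDerivWithinAt (writtenInExtChartAt 𝓘(ℝ, E) 𝓘(ℝ, E) x π)
      (h.lin x : E →L[ℝ] E) (range 𝓘(ℝ, E)) (extChartAt 𝓘(ℝ, E) x x) := by
    simpa using h3
  exact h4

lemma mdifferentiableAt_pi (x : E) : MDifferentiableAt 𝓘(ℝ, E) 𝓘(ℝ, E) π x :=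
  (h.hasMFDerivAt_pi x).mdifferentiableAt

lemma contMDiff_pi [IsManifold 𝓘(ℝ, E) ∞ Q] : ContMDiff 𝓘(ℝ, E) 𝓘(ℝ, E) ∞ π := by
  intro x
  rw [contMDiffAt_iff_target]
  refine ⟨h.cont.continuousAt, ?_⟩
  rw [contMDiffAt_iff_contDiffAt]
  have h1 : ContDiffAt ℝ ∞ (fun z => (h.dk x).1 z + (h.dk x).2) x := by fun_prop
  refine h1.congr_of_eventuallyEq ?_
  filter_upwards [h.dk_eventually x] with z hz
  simpa using hz

/-- A local section of `π` near `π x`, sending `π x` to `x`. -/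
noncomputable def sec (x : E) (q : Q) : E :=
  (h.lin x).symm (chartAt E (π x) q - (h.dk x).2)

lemma sec_self (x : E) : h.sec x (π x) = x := by
  unfold sec
  rw [← h.dk_apply x, add_sub_cancel_right]
  exact (h.lin x).symm_apply_apply x

lemma pi_sec (x : E) {q : Q} (hq : q ∈ (chartAt E (π x)).source) : π (h.sec x q) = q := by
  have h1 := h.inv _ (h.dk_mem x) (h.sec x q)
  have h2 : (h.dk x).1 (h.sec x q) + (h.dk x).2 = chartAt E (π x) q := by
    unfold sec lin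
    rw [ContinuousLinearEquiv.apply_symm_apply, sub_add_cancel]
  rw [h2, h.pi_chart (chart_mem_atlas E (π x)) hq] at h1
  exact h1.symm

lemma pi_sec_eventually (x : E) : ∀ᶠ q in 𝓝 (π x), π (h.sec x q) = q := by
  filter_upwards [(chartAt E (π x)).open_source.mem_nhds (mem_chart_source E (π x))] with q hq
  exact h.pi_sec x hq

lemma contMDiffAt_sec [IsManifold 𝓘(ℝ, E) ∞ Q] (x : E) {q : Q}
    (hq : q ∈ (chartAt E (π x)).source) :
    ContMDiffAt 𝓘(ℝ, E) 𝓘(ℝ, E) ∞ (h.sec x) q := by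
  have h1 : ContMDiffAt 𝓘(ℝ, E) 𝓘(ℝ, E) ∞ (chartAt E (π x)) q := by
    exact (contMDiffOn_chart (I := 𝓘(ℝ, E)) (n := ∞) (x := π x)).contMDiffAt
      ((chartAt E (π x)).open_source.mem_nhds hq)
  have h2 : ContMDiff 𝓘(ℝ, E) 𝓘(ℝ, E) ∞ (fun z : E => (h.lin x).symm (z - (h.dk x).2)) := by
    rw [contMDiff_iff_contDiff]
    fun_prop
  exact h2.contMDiffAt.comp q h1

/-- A map of `Q` which lifts to a differentiable map of `E` is differentiable. -/
lemma mdifferentiableAt_of_lift [IsManifold 𝓘(ℝ, E) ∞ Q] {f : Q → Q} {F : E → E}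
    (hfF : ∀ z, f (π z) = π (F z)) {x : E} (hF : DifferentiableAt ℝ F x) :
    MDifferentiableAt 𝓘(ℝ, E) 𝓘(ℝ, E) f (π x) := by
  have h1 : f =ᶠ[𝓝 (π x)] fun q => π (F (h.sec x q)) := by
    filter_upwards [h.pi_sec_eventually x] with q hq
    rw [← hfF, hq]
  have h2 : MDifferentiableAt 𝓘(ℝ, E) 𝓘(ℝ, E) (h.sec x) (π x) :=
    (h.contMDiffAt_sec x (mem_chart_source E (π x))).mdifferentiableAt (by simp)
  have h3 : MDifferentiableAt 𝓘(ℝ, E) 𝓘(ℝ, E) F (h.sec x (π x)) := by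
    rw [h.sec_self x]
    exact hF.mdifferentiableAt
  have h4 := (h.mdifferentiableAt_pi (F (h.sec x (π x)))).comp (π x) (h3.comp (π x) h2)
  exact h4.congr_of_eventuallyEq h1

lemma mfderiv_of_lift [IsManifold 𝓘(ℝ, E) ∞ Q] {f : Q → Q} {F : E → E}
    (hfF : ∀ z, f (π z) = π (F z)) {x : E} {F' : E →L[ℝ] E} (hF : HasFDerivAt F F' x) (v : E) :
    (mfderiv 𝓘(ℝ, E) 𝓘(ℝ, E) f (π x) : E →L[ℝ] E) (h.lin x v) = h.lin (F x) (F' v) := by
  have hf := (h.mdifferentiableAt_of_lift hfF hF.differentiableAt).hasMFDerivAt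
  have h1 : HasMFDerivAt 𝓘(ℝ, E) 𝓘(ℝ, E) (f ∘ π) x
      ((mfderiv 𝓘(ℝ, E) 𝓘(ℝ, E) f (π x) : E →L[ℝ] E).comp (h.lin x : E →L[ℝ] E)) :=
    hf.comp x (h.hasMFDerivAt_pi x)
  have h2 : HasMFDerivAt 𝓘(ℝ, E) 𝓘(ℝ, E) (π ∘ F) x
      ((h.lin (F x) : E →L[ℝ] E).comp F') :=
    (h.hasMFDerivAt_pi (F x)).comp x hF.hasMFDerivAt
  have h3 : f ∘ π = π ∘ F := funext hfF
  rw [h3] at h1
  have h4 := hasMFDerivAt_unique h1 h2
  exact DFunLike.congr_fun h4 v

end IsAffQuot

end Pool.Agent.Helper55.PM
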