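import Mathlib
import Pool.Agent.Helper55.PM.Act
import Pool.Agent.Helper55.PM.Quot

set_option autoImplicit false

open Set Filter Topology

namespace Pool.Agent.Helper55.PM

/-- Parametrisation of the lattice by integers. -/
noncomputable def lpar (a : ℤ × ℤ × ℤ × (Fin 3 → ℤ) × ℤ) : E7 :=
  WithLp.toLp 2 ![a.1 * (2 * Real.pi), a.2.1 * (2 * Real.pi), a.2.2.1, pv a.2.2.2.1 (al 0),
    pv a.2.2.2.1 (al 1), pv a.2.2.2.1 (al 2), a.2.2.2.2 * (2 * Real.pi)]

lemma finite_lat (B : ℝ) : {c : E7 | IsLat c ∧ ∀ j, |c j| ≤ B}.Finite := by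
  set B' := B + 36 * (4 * B / (al 1 - al 2)) + 8 * B with hB'
  have hpi : (1 : ℝ) ≤ 2 * Real.pi := by have := Real.pi_gt_three; linarith
  have hfin : ({a : ℤ | |(a : ℝ)| ≤ B} ×ˢ {a : ℤ | |(a : ℝ)| ≤ B} ×ˢ {a : ℤ | |(a : ℝ)| ≤ B} ×ˢ
      (Set.pi univ fun _ : Fin 3 => {a : ℤ | |(a : ℝ)| ≤ B'}) ×ˢ
        {a : ℤ | |(a : ℝ)| ≤ B}).Finite :=
    (finite_int_abs_le B).prod ((finite_int_abs_le B).prod ((finite_int_abs_le B).prod
      ((Set.Finite.pi fun _ => finite_int_abs_le B').prod (finite_int_abs_le B))))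
  refine (hfin.image lpar).subset ?_
  rintro c ⟨⟨⟨a0, h0⟩, ⟨a1, h1⟩, ⟨k, h2⟩, ⟨n, h3, h4, h5⟩, ⟨a6, h6⟩⟩, hb⟩
  have hmul : ∀ a : ℤ, |(a : ℝ) * (2 * Real.pi)| ≤ B → |(a : ℝ)| ≤ B := by
    intro a ha
    rw [abs_mul, abs_of_pos (by linarith : (0 : ℝ) < 2 * Real.pi)] at ha
    have := abs_nonneg (a : ℝ)
    nlinarith
  have hn := pv_bound n (B := B) (by rw [← h3]; exact hb 3) (by rw [← h4]; exact hb 4)
    (by rw [← h5]; exact hb 5)
  refine ⟨(a0, a1, k, n, a6), ⟨?_, ?_, ?_, ?_, ?_⟩, ?_⟩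
  · exact hmul a0 (by rw [← h0]; exact hb 0)
  · exact hmul a1 (by rw [← h1]; exact hb 1)
  · show |(k : ℝ)| ≤ B
    rw [← h2]; exact hb 2
  · intro i _
    exact hn i
  · exact hmul a6 (by rw [← h6]; exact hb 6)
  · ext j
    fin_cases j
    · exact h0.symm
    · exact h1.symm
    · exact h2.symm
    · exact h3.symm
    · exact h4.symm
    · exact h5.symm
    · exact h6.symm

lemma abs_coord_le (x : E7) (j : Fin 7) : |x j| ≤ ‖x‖ := by
  have := PiLp.norm_apply_le x j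
  rwa [Real.norm_eq_abs] at this

lemma abs_mm_le (j : Fin 7) : |mm j| ≤ 3 := by
  fin_cases j
  · show |(0 : ℝ)| ≤ 3; simp
  · show |(0 : ℝ)| ≤ 3; simp
  · show |(0 : ℝ)| ≤ 3; simp
  · exact abs_mu_le 0
  · exact abs_mu_le 1
  · exact abs_mu_le 2
  · show |(0 : ℝ)| ≤ 3; simp

instance : ProperlyDiscontinuousSMul Gam E7 where
  finite_disjoint_inter_image := by
    intro K L hK hL
    obtain ⟨R, hR⟩ := (hK.union hL).isBounded.exists_norm_le
    have hfin := finite_lat (R + Real.exp (3 * (2 * R)) * R)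
    refine Set.Finite.of_finite_image (f := fun g : Gam => g • (0 : E7)) ?_
      (fun g _ g' _ h => gam_ext h)
    refine hfin.subset ?_
    rintro _ ⟨g, hg, rfl⟩
    refine ⟨gam_lat g, fun j => ?_⟩
    obtain ⟨y, ⟨x, hx, rfl⟩, hy⟩ := hg
    have hxR := hR x (Or.inl hx)
    have hyR := hR _ (Or.inr hy)
    simp only at hyR
    have hR0 : 0 ≤ R := (norm_nonneg _).trans hxR
    have h2 : |(g • (0 : E7)) 2| ≤ 2 * R := by
      have h3 := gam_smul_two g x
      have : (g • (0 : E7)) 2 = (g • x) 2 - x 2 := by linarith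
      rw [this]
      calc |(g • x) 2 - x 2| ≤ |(g • x) 2| + |x 2| := abs_sub _ _
        _ ≤ R + R := add_le_add ((abs_coord_le _ _).trans hyR) ((abs_coord_le _ _).trans hxR)
        _ = 2 * R := by ring
    have h4 : (g • (0 : E7)) j = (g • x) j - Real.exp (mm j * (g • (0 : E7)) 2) * x j := by
      have := gam_apply g x
      rw [this]; simp
    rw [h4]
    have hexp : Real.exp (mm j * (g • (0 : E7)) 2) ≤ Real.exp (3 * (2 * R)) := by
      apply Real.exp_le_exp.2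
      calc mm j * (g • (0 : E7)) 2 ≤ |mm j * (g • (0 : E7)) 2| := le_abs_self _
        _ = |mm j| * |(g • (0 : E7)) 2| := abs_mul _ _
        _ ≤ 3 * (2 * R) := mul_le_mul (abs_mm_le j) h2 (abs_nonneg _) (by norm_num)
    calc |(g • x) j - Real.exp (mm j * (g • (0 : E7)) 2) * x j|
        ≤ |(g • x) j| + |Real.exp (mm j * (g • (0 : E7)) 2) * x j| := abs_sub _ _
      _ ≤ R + Real.exp (3 * (2 * R)) * R := by
          rw [abs_mul, Real.abs_exp]
          exact add_le_add ((abs_coord_le _ _).trans hyR)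
            (mul_le_mul hexp ((abs_coord_le _ _).trans hxR) (abs_nonneg _) (Real.exp_pos _).le)

/-- The compact 7-manifold. -/
abbrev QQ : Type := MulAction.orbitRel.Quotient Gam E7

/-- The covering map. -/
def pr (x : E7) : QQ := Quotient.mk _ x

lemma pr_eq_iff (x y : E7) : pr x = pr y ↔ ∃ g : Gam, g • y = x := by
  unfold pr
  rw [Quotient.eq]
  exact MulAction.orbitRel_apply

lemma pr_smul (g : Gam) (x : E7) : pr (g • x) = pr x := (pr_eq_iff _ _).2 ⟨g, rfl⟩

lemma continuous_pr : Continuous pr := continuous_quotient_mk'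

lemma surjective_pr : Function.Surjective pr := Quotient.mk_surjective

/-- The deck transformations. -/
def DD : Set ((E7 ≃L[ℝ] E7) × E7) := {d | ∃ c, IsLat c ∧ d = (dil (c 2), c)}

lemma isAffQuot : IsAffQuot pr DD where
  cont := continuous_pr
  symm_eq := by
    rintro e ⟨q, rfl⟩
    simp only [OpenPartialHomeomorph.trans_symm_eq_symm_trans_symm]
    ext x
    simp
    rfl
  surj := surjective_pr
  deck x y hxy := by
    obtain ⟨g, hg⟩ := (pr_eq_iff y x).1 hxy.symm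
    refine ⟨(dil ((g • (0 : E7)) 2), g • (0 : E7)), ⟨_, gam_lat g, rfl⟩, ?_⟩
    rw [← hg, gam_apply g x]
  inv := by
    rintro _ ⟨c, hc, rfl⟩ z
    have := pr_smul (ofLat c hc) z
    rwa [ofLat_smul] at this

end Pool.Agent.Helper55.PM
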