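import Mathlib
import Pool.Agent.Helper55.PM.Act2

set_option autoImplicit false

open Set Filter Topology Manifold
open scoped ContDiff

namespace Pool.Agent.Helper55.PM

instance : T2Space QQ := t2Space_of_properlyDiscontinuousSMul_of_t2Space

instance : ConnectedSpace QQ := surjective_pr.connectedSpace continuous_pr

instance : IsManifold 𝓘(ℝ, E7) ∞ QQ := isAffQuot.isManifold

/-- Interpolation: real coefficients with prescribed values at the roots. -/
lemma exists_interp (v : Fin 3 → ℝ) :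
    ∃ e : Fin 3 → ℝ, ∀ i, e 0 + e 1 * al i + e 2 * al i ^ 2 = v i := by
  obtain ⟨a0, a0'⟩ := al0
  obtain ⟨a1, a1'⟩ := al1
  obtain ⟨a2, a2'⟩ := al2
  have h01 : al 0 - al 1 ≠ 0 := by intro h; linarith
  have h02 : al 0 - al 2 ≠ 0 := by intro h; linarith
  have h12 : al 1 - al 2 ≠ 0 := by intro h; linarith
  set a := al 0
  set b := al 1
  set c := al 2
  set A := v 0 / ((a - b) * (a - c))
  set B := v 1 / (-(a - b) * (b - c))
  set C := v 2 / ((a - c) * (b - c))
  have hA : A * ((a - b) * (a - c)) = v 0 := div_mul_cancel₀ _ (mul_ne_zero h01 h02)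
  have hB : B * (-(a - b) * (b - c)) = v 1 := div_mul_cancel₀ _ (mul_ne_zero (neg_ne_zero.2 h01) h12)
  have hC : C * ((a - c) * (b - c)) = v 2 := div_mul_cancel₀ _ (mul_ne_zero h02 h12)
  refine ⟨![A * b * c + B * a * c + C * a * b, -(A * (b + c) + B * (a + c) + C * (a + b)),
    A + B + C], fun i => ?_⟩
  fin_cases i
  · show (A * b * c + B * a * c + C * a * b) + (-(A * (b + c) + B * (a + c) + C * (a + b))) * a +
      (A + B + C) * a ^ 2 = v 0
    linear_combination hA
  · show (A * b * c + B * a * c + C * a * b) + (-(A * (b + c) + B * (a + c) + C * (a + b))) * b +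
      (A + B + C) * b ^ 2 = v 1
    linear_combination hB
  · show (A * b * c + B * a * c + C * a * b) + (-(A * (b + c) + B * (a + c) + C * (a + b))) * c +
      (A + B + C) * c ^ 2 = v 2
    linear_combination hC

lemma shift_period (x : ℝ) : ∃ a : ℤ, |x + a * (2 * Real.pi)| ≤ 21 := by
  have hp : 0 < 2 * Real.pi := Real.two_pi_pos
  refine ⟨-⌊x / (2 * Real.pi)⌋, ?_⟩
  have h1 := Int.floor_le (x / (2 * Real.pi))
  have h2 := Int.lt_floor_add_one (x / (2 * Real.pi))
  rw [le_div_iff₀ hp] at h1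
  rw [div_lt_iff₀ hp] at h2
  have h3 := Real.pi_lt_four
  push_cast
  rw [abs_le]
  constructor <;> nlinarith

lemma exists_bounded_rep (x : E7) : ∃ y : E7, pr y = pr x ∧ ∀ j, |y j| ≤ 21 := by
  set k : ℤ := -⌊x 2⌋ with hk
  obtain ⟨a0, ha0⟩ := shift_period (x 0)
  obtain ⟨a1, ha1⟩ := shift_period (x 1)
  obtain ⟨a6, ha6⟩ := shift_period (x 6)
  obtain ⟨e, he⟩ := exists_interp ![Real.exp (mu 0 * k) * x 3, Real.exp (mu 1 * k) * x 4,
    Real.exp (mu 2 * k) * x 5]
  set n : Fin 3 → ℤ := fun i => -⌊e i⌋ with hn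
  have hbd : ∀ i, |(e 0 + e 1 * al i + e 2 * al i ^ 2) + pv n (al i)| ≤ 21 := by
    intro i
    have h1 : (e 0 + e 1 * al i + e 2 * al i ^ 2) + pv n (al i) =
        Int.fract (e 0) + Int.fract (e 1) * al i + Int.fract (e 2) * al i ^ 2 := by
      simp only [pv, hn, Int.fract]; push_cast; ring
    rw [h1]
    have f0 := Int.fract_nonneg (e 0)
    have f1 := Int.fract_nonneg (e 1)
    have f2 := Int.fract_nonneg (e 2)
    have g0 := (Int.fract_lt_one (e 0)).le
    have g1 := (Int.fract_lt_one (e 1)).le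
    have g2 := (Int.fract_lt_one (e 2)).le
    have p := (al_pos i).le
    have p' := (al_lt i).le
    have p2 : al i ^ 2 ≤ 16 := by nlinarith
    rw [abs_of_nonneg (by positivity)]
    have q1 : Int.fract (e 1) * al i ≤ 1 * 4 := mul_le_mul g1 p' p (by norm_num)
    have q2 : Int.fract (e 2) * al i ^ 2 ≤ 1 * 16 := mul_le_mul g2 p2 (by positivity) (by norm_num)
    linarith
  set c : E7 := WithLp.toLp 2 ![a0 * (2 * Real.pi), a1 * (2 * Real.pi), k, pv n (al 0),
    pv n (al 1), pv n (al 2), a6 * (2 * Real.pi)] with hc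
  have hlat : IsLat c := ⟨⟨a0, rfl⟩, ⟨a1, rfl⟩, ⟨k, rfl⟩, ⟨n, rfl, rfl, rfl⟩, ⟨a6, rfl⟩⟩
  refine ⟨dil (c 2) x + c, ?_, ?_⟩
  · have := pr_smul (ofLat c hlat) x
    rwa [ofLat_smul] at this
  · have hc2 : c 2 = k := rfl
    intro j
    rw [PiLp.add_apply, dil_apply, hc2]
    fin_cases j
    · show |Real.exp (mm 0 * k) * x 0 + a0 * (2 * Real.pi)| ≤ 21
      simpa using ha0
    · show |Real.exp (mm 1 * k) * x 1 + a1 * (2 * Real.pi)| ≤ 21
      simpa using ha1
    · show |Real.exp (mm 2 * k) * x 2 + k| ≤ 21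
      rw [mm2, zero_mul, Real.exp_zero, one_mul, hk]
      have h1 := Int.floor_le (x 2)
      have h2 := Int.lt_floor_add_one (x 2)
      push_cast
      rw [abs_le]; constructor <;> linarith
    · have := hbd 0
      rw [he 0] at this
      exact this
    · have := hbd 1
      rw [he 1] at this
      exact this
    · have := hbd 2
      rw [he 2] at this
      exact this
    · show |Real.exp (mm 6 * k) * x 6 + a6 * (2 * Real.pi)| ≤ 21
      simpa using ha6

lemma norm_le_of_coord {x : E7} {B : ℝ} (hB : 0 ≤ B) (h : ∀ j, |x j| ≤ B) : ‖x‖ ≤ 7 * B := by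
  rw [EuclideanSpace.norm_eq]
  apply Real.sqrt_le_iff.2
  refine ⟨by positivity, ?_⟩
  calc ∑ j, ‖x j‖ ^ 2 ≤ ∑ _j : Fin 7, B ^ 2 := by
        refine Finset.sum_le_sum fun j _ => ?_
        rw [Real.norm_eq_abs]
        exact pow_le_pow_left₀ (abs_nonneg _) (h j) 2
    _ = 7 * B ^ 2 := by simp
    _ ≤ (7 * B) ^ 2 := by nlinarith [sq_nonneg B]

instance : CompactSpace QQ := by
  refine ⟨?_⟩
  have h1 : (univ : Set QQ) = pr '' Metric.closedBall 0 (7 * 21) := by
    symm
    rw [eq_univ_iff_forall]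
    intro q
    obtain ⟨x, rfl⟩ := surjective_pr q
    obtain ⟨y, hy, hb⟩ := exists_bounded_rep x
    exact ⟨y, mem_closedBall_zero_iff.2 (norm_le_of_coord (by norm_num) hb), hy⟩
  rw [h1]
  exact (isCompact_closedBall _ _).image continuous_pr

end Pool.Agent.Helper55.PM
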