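import Mathlib

set_option autoImplicit false

open Set Filter Topology MeasureTheory
open scoped ContDiff

namespace Pool.Agent.Helper55.PM

section C01

variable {E F G : Type} [NormedAddCommGroup E] [NormedSpace ℝ E]
  [NormedAddCommGroup F] [NormedSpace ℝ F] [NormedAddCommGroup G] [NormedSpace ℝ G]

/-- Maps `(t, x) ↦ f t x` which are continuous and continuously differentiable in `x`. -/
def C01 (f : ℝ → E → F) : Prop :=
  ∃ f' : ℝ → E → (E →L[ℝ] F), Continuous (fun p : ℝ × E => f p.1 p.2) ∧
    Continuous (fun p : ℝ × E => f' p.1 p.2) ∧ ∀ s x, HasFDerivAt (f s) (f' s x) x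

lemma C01.of_contDiff {f : ℝ → E → F} (h : ContDiff ℝ 1 (fun p : ℝ × E => f p.1 p.2)) :
    C01 f := by
  refine ⟨fun s x => (fderiv ℝ (fun p : ℝ × E => f p.1 p.2) (s, x)).comp
    (ContinuousLinearMap.inr ℝ ℝ E), h.continuous, ?_, fun s x => ?_⟩
  · exact (h.continuous_fderiv (by simp)).clm_comp continuous_const
  · have h1 : HasFDerivAt (fun p : ℝ × E => f p.1 p.2)
        (fderiv ℝ (fun p : ℝ × E => f p.1 p.2) (s, x)) (s, x) :=
      (h.differentiable (by simp) _).hasFDerivAt
    have h2 : HasFDerivAt (fun x : E => (s, x)) (ContinuousLinearMap.inr ℝ ℝ E) x := by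
      exact hasFDerivAt_prodMk_right s x
    exact h1.comp x h2

lemma C01.comp {f : ℝ → E → F} (hf : C01 f) {g : F → G} (hg : ContDiff ℝ 1 g) :
    C01 (fun s x => g (f s x)) := by
  obtain ⟨f', h1, h2, h3⟩ := hf
  refine ⟨fun s x => (fderiv ℝ g (f s x)).comp (f' s x), hg.continuous.comp h1, ?_, fun s x => ?_⟩
  · exact ((hg.continuous_fderiv (by simp)).comp h1).clm_comp h2
  · exact ((hg.differentiable (by simp) _).hasFDerivAt).comp x (h3 s x)

lemma C01.prodMk {f : ℝ → E → F} {g : ℝ → E → G} (hf : C01 f) (hg : C01 g) :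
    C01 (fun s x => (f s x, g s x)) := by
  obtain ⟨f', h1, h2, h3⟩ := hf
  obtain ⟨g', k1, k2, k3⟩ := hg
  refine ⟨fun s x => (ContinuousLinearMap.inl ℝ F G).comp (f' s x) +
    (ContinuousLinearMap.inr ℝ F G).comp (g' s x), h1.prodMk k1,
    (continuous_const.clm_comp h2).add (continuous_const.clm_comp k2), fun s x => ?_⟩
  have h4 := (h3 s x).prodMk (k3 s x)
  have h5 : (ContinuousLinearMap.inl ℝ F G).comp (f' s x) +
    (ContinuousLinearMap.inr ℝ F G).comp (g' s x) = (f' s x).prod (g' s x) := by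
    ext v <;> simp
  beta_reduce
  rw [h5]
  exact h4

lemma C01.integral [FiniteDimensional ℝ E] [CompleteSpace F] {f : ℝ → E → F} (hf : C01 f) :
    C01 (fun t x => ∫ s in (0 : ℝ)..t, f s x) := by
  obtain ⟨f', h1, h2, h3⟩ := hf
  have hc : ∀ x, Continuous fun s => f s x := fun x => h1.comp (continuous_id.prodMk continuous_const)
  have hc' : ∀ x, Continuous fun s => f' s x :=
    fun x => h2.comp (continuous_id.prodMk continuous_const)
  refine ⟨fun t x => ∫ s in (0 : ℝ)..t, f' s x, ?_, ?_, fun t x₀ => ?_⟩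
  · exact intervalIntegral.continuous_parametric_intervalIntegral_of_continuous
      (X := ℝ × E) (f := fun p s => f s p.2)
      (h1.comp (continuous_snd.prodMk (continuous_snd.comp continuous_fst))) continuous_fst
  · exact intervalIntegral.continuous_parametric_intervalIntegral_of_continuous
      (X := ℝ × E) (f := fun p s => f' s p.2)
      (h2.comp (continuous_snd.prodMk (continuous_snd.comp continuous_fst))) continuous_fst
  · have hK : IsCompact (uIcc (0 : ℝ) t ×ˢ Metric.closedBall x₀ 1) :=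
      isCompact_uIcc.prod (isCompact_closedBall x₀ 1)
    obtain ⟨B, hB⟩ := hK.exists_bound_of_continuousOn h2.continuousOn
    refine intervalIntegral.hasFDerivAt_integral_of_dominated_of_fderiv_le
      (s := Metric.closedBall x₀ 1) (bound := fun _ => B) (F := fun x s => f s x)
      (F' := fun x s => f' s x) (Metric.closedBall_mem_nhds x₀ one_pos) ?_ ?_ ?_ ?_ ?_ ?_
    · exact Eventually.of_forall fun x => (hc x).aestronglyMeasurable
    · exact (hc x₀).intervalIntegrable _ _
    · exact (hc' x₀).aestronglyMeasurable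
    · exact Eventually.of_forall fun s hs x hx => hB (s, x) ⟨uIoc_subset_uIcc hs, hx⟩
    · exact intervalIntegrable_const
    · exact Eventually.of_forall fun s _ x _ => h3 s x

end C01

section Flow

variable {E : Type} [NormedAddCommGroup E] [NormedSpace ℝ E] [FiniteDimensional ℝ E]

/-- The variational equation. -/
lemma variational {V : E → E} (hV : ContDiff ℝ 1 V) {Φ : ℝ → E → E} (hΦ : C01 Φ)
    (h0 : ∀ x, Φ 0 x = x) (hd : ∀ t x, HasDerivAt (fun t => Φ t x) (V (Φ t x)) t) :
    ∃ A : ℝ → E → (E →L[ℝ] E), (∀ t x, HasFDerivAt (Φ t) (A t x) x) ∧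
      (∀ x, A 0 x = ContinuousLinearMap.id ℝ E) ∧
      ∀ t x v, HasDerivAt (fun t => A t x v) (fderiv ℝ V (Φ t x) (A t x v)) t := by
  obtain ⟨A, h1, h2, h3⟩ := hΦ
  have hint : ∀ t x, Φ t x = x + ∫ s in (0 : ℝ)..t, V (Φ s x) := by
    intro t x
    have hc : Continuous fun s => V (Φ s x) :=
      hV.continuous.comp (h1.comp (continuous_id.prodMk continuous_const))
    rw [intervalIntegral.integral_eq_sub_of_hasDerivAt (fun s _ => hd s x)
      (hc.intervalIntegrable _ _), h0]
    abel
  have hA0 : ∀ x, A 0 x = ContinuousLinearMap.id ℝ E := by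
    intro x
    have h4 := h3 0 x
    have h5 : Φ 0 = id := funext h0
    rw [h5] at h4
    exact h4.unique (hasFDerivAt_id x)
  -- differentiate the integral equation
  have hVA : ∀ s x, HasFDerivAt (fun x => V (Φ s x)) ((fderiv ℝ V (Φ s x)).comp (A s x)) x :=
    fun s x => ((hV.differentiable (by simp) _).hasFDerivAt).comp x (h3 s x)
  have hcA : Continuous (fun p : ℝ × E => (fderiv ℝ V (Φ p.1 p.2)).comp (A p.1 p.2)) :=
    ((hV.continuous_fderiv (by simp)).comp h1).clm_comp h2
  have hcAx : ∀ x, Continuous fun s => (fderiv ℝ V (Φ s x)).comp (A s x) :=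
    fun x => hcA.comp (continuous_id.prodMk continuous_const)
  have hA : ∀ t x, A t x = ContinuousLinearMap.id ℝ E +
      ∫ s in (0 : ℝ)..t, (fderiv ℝ V (Φ s x)).comp (A s x) := by
    intro t x₀
    have hK : IsCompact (uIcc (0 : ℝ) t ×ˢ Metric.closedBall x₀ 1) :=
      isCompact_uIcc.prod (isCompact_closedBall x₀ 1)
    obtain ⟨B, hB⟩ := hK.exists_bound_of_continuousOn hcA.continuousOn
    have hcV : ∀ x, Continuous fun s => V (Φ s x) :=
      fun x => hV.continuous.comp (h1.comp (continuous_id.prodMk continuous_const))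
    have h6 : HasFDerivAt (fun x => ∫ s in (0 : ℝ)..t, V (Φ s x))
        (∫ s in (0 : ℝ)..t, (fderiv ℝ V (Φ s x₀)).comp (A s x₀)) x₀ := by
      refine intervalIntegral.hasFDerivAt_integral_of_dominated_of_fderiv_le
        (s := Metric.closedBall x₀ 1) (bound := fun _ => B) (F := fun x s => V (Φ s x))
        (F' := fun x s => (fderiv ℝ V (Φ s x)).comp (A s x))
        (Metric.closedBall_mem_nhds x₀ one_pos) ?_ ?_ ?_ ?_ ?_ ?_
      · exact Eventually.of_forall fun x => (hcV x).aestronglyMeasurable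
      · exact (hcV x₀).intervalIntegrable _ _
      · exact (hcAx x₀).aestronglyMeasurable
      · exact Eventually.of_forall fun s hs x hx => hB (s, x) ⟨uIoc_subset_uIcc hs, hx⟩
      · exact intervalIntegrable_const
      · exact Eventually.of_forall fun s _ x _ => hVA s x
    have h7 : HasFDerivAt (Φ t) (ContinuousLinearMap.id ℝ E +
        ∫ s in (0 : ℝ)..t, (fderiv ℝ V (Φ s x₀)).comp (A s x₀)) x₀ := by
      have h8 : Φ t = fun x => x + ∫ s in (0 : ℝ)..t, V (Φ s x) := funext (hint t)
      rw [h8]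
      exact (hasFDerivAt_id x₀).add h6
    exact (h3 t x₀).unique h7
  refine ⟨A, h3, hA0, fun t x v => ?_⟩
  have h9 : HasDerivAt (fun t => A t x) ((fderiv ℝ V (Φ t x)).comp (A t x)) t := by
    have h10 : (fun t => A t x) = fun t => ContinuousLinearMap.id ℝ E +
      ∫ s in (0 : ℝ)..t, (fderiv ℝ V (Φ s x)).comp (A s x) := funext fun t => hA t x
    rw [h10]
    exact (intervalIntegral.integral_hasDerivAt_right ((hcAx x).intervalIntegrable _ _)
      ((hcAx x).stronglyMeasurableAtFilter _ _) (hcAx x).continuousAt).const_add _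
  have h11 := h9.clm_apply (hasDerivAt_const t v)
  simpa using h11

end Flow

end Pool.Agent.Helper55.PM
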