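import Mathlib
import Pool.Agent.Helper55.PM.C01
import Pool.Agent.Helper55.PM.Group

set_option autoImplicit false

open Set Filter Topology MeasureTheory
open scoped ContDiff

namespace Pool.Agent.Helper55.PM

/-- The drift. -/
noncomputable def nu : ℝ := 1 / 6

/-- The contraction rate. -/
noncomputable def KK : ℝ := 9

/-- The `τ`-velocity. -/
noncomputable def kap (th r : ℝ) : ℝ := Real.cos r * (Real.cos th - nu * Real.sin th)

/-- The vector field on the covering space. -/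
noncomputable def V (x : E7) : E7 :=
  WithLp.toLp 2 ![nu * (Real.sin (x 1) * Real.cos (x 1)), -(Real.sin (x 1) ^ 2),
    kap (x 0) (x 1), Real.exp (mu 0 * x 2), 0, 0, -(KK * Real.sin (x 6))]

lemma V0 (x : E7) : V x 0 = nu * (Real.sin (x 1) * Real.cos (x 1)) := rfl
lemma V1 (x : E7) : V x 1 = -(Real.sin (x 1) ^ 2) := rfl
lemma V2 (x : E7) : V x 2 = kap (x 0) (x 1) := rfl
lemma V3 (x : E7) : V x 3 = Real.exp (mu 0 * x 2) := rfl
lemma V4 (x : E7) : V x 4 = 0 := rfl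
lemma V5 (x : E7) : V x 5 = 0 := rfl
lemma V6 (x : E7) : V x 6 = -(KK * Real.sin (x 6)) := rfl

lemma contDiff_V : ContDiff ℝ ∞ V := by
  rw [contDiff_euclidean]
  intro j
  have h : ∀ j, ContDiff ℝ ∞ (fun x : E7 => x j) := fun j =>
    (contDiff_euclidean.1 contDiff_id) j
  fin_cases j
  · show ContDiff ℝ ∞ (fun x : E7 => nu * (Real.sin (x 1) * Real.cos (x 1)))
    exact contDiff_const.mul (((h 1).sin).mul ((h 1).cos))
  · show ContDiff ℝ ∞ (fun x : E7 => -(Real.sin (x 1) ^ 2))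
    exact (((h 1).sin).pow 2).neg
  · show ContDiff ℝ ∞ (fun x : E7 => kap (x 0) (x 1))
    exact ((h 1).cos).mul (((h 0).cos).sub (contDiff_const.mul (h 0).sin))
  · show ContDiff ℝ ∞ (fun x : E7 => Real.exp (mu 0 * x 2))
    exact (contDiff_const.mul (h 2)).exp
  · exact contDiff_const
  · exact contDiff_const
  · show ContDiff ℝ ∞ (fun x : E7 => -(KK * Real.sin (x 6)))
    exact (contDiff_const.mul (h 6).sin).neg

lemma hasFDerivAt_coord (j : Fin 7) (x : E7) :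
    HasFDerivAt (fun x : E7 => x j) (EuclideanSpace.proj j : E7 →L[ℝ] ℝ) x :=
  (EuclideanSpace.proj j : E7 →L[ℝ] ℝ).hasFDerivAt

lemma fderiv_V_apply (x v : E7) (j : Fin 7) :
    (fderiv ℝ V x v) j = fderiv ℝ (fun x => V x j) x v := by
  have h1 : HasFDerivAt V (fderiv ℝ V x) x :=
    ((contDiff_V.differentiable (by simp)) x).hasFDerivAt
  have h2 : HasFDerivAt (fun x => V x j)
      ((EuclideanSpace.proj j : E7 →L[ℝ] ℝ).comp (fderiv ℝ V x)) x :=
    (EuclideanSpace.proj j : E7 →L[ℝ] ℝ).hasFDerivAt.comp x h1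
  rw [h2.fderiv]
  rfl

lemma dV0 (x v : E7) : (fderiv ℝ V x v) 0 =
    nu * (Real.cos (x 1) ^ 2 - Real.sin (x 1) ^ 2) * v 1 := by
  rw [fderiv_V_apply]
  have h1 := hasFDerivAt_coord 1 x
  have h2 : HasFDerivAt (fun x => V x 0) _ x := ((h1.sin).mul (h1.cos)).const_mul nu
  rw [h2.fderiv]
  simp
  ring

lemma dV1 (x v : E7) : (fderiv ℝ V x v) 1 = -(2 * Real.sin (x 1) * Real.cos (x 1)) * v 1 := by
  rw [fderiv_V_apply]
  have h1 := hasFDerivAt_coord 1 x
  have h2 : HasFDerivAt (fun x => V x 1) _ x := ((h1.sin).pow 2).neg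
  rw [h2.fderiv]
  simp
  ring

lemma dV2 (x v : E7) : (fderiv ℝ V x v) 2 =
    -(Real.sin (x 1) * (Real.cos (x 0) - nu * Real.sin (x 0))) * v 1 -
      Real.cos (x 1) * (Real.sin (x 0) + nu * Real.cos (x 0)) * v 0 := by
  rw [fderiv_V_apply]
  have h1 := hasFDerivAt_coord 1 x
  have h0 := hasFDerivAt_coord 0 x
  have h2 : HasFDerivAt (fun x => V x 2) _ x := (h1.cos).mul ((h0.cos).sub (h0.sin.const_mul nu))
  rw [h2.fderiv]
  simp
  ring

lemma dV3 (x v : E7) : (fderiv ℝ V x v) 3 = mu 0 * Real.exp (mu 0 * x 2) * v 2 := by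
  rw [fderiv_V_apply]
  have h1 := hasFDerivAt_coord 2 x
  have h2 : HasFDerivAt (fun x => V x 3) _ x := (h1.const_mul (mu 0)).exp
  rw [h2.fderiv]
  simp
  ring

lemma dV4 (x v : E7) : (fderiv ℝ V x v) 4 = 0 := by
  rw [fderiv_V_apply]
  have h2 : HasFDerivAt (fun x => V x 4) (0 : E7 →L[ℝ] ℝ) x := hasFDerivAt_const (0 : ℝ) x
  rw [h2.fderiv]
  simp

lemma dV5 (x v : E7) : (fderiv ℝ V x v) 5 = 0 := by
  rw [fderiv_V_apply]
  have h2 : HasFDerivAt (fun x => V x 5) (0 : E7 →L[ℝ] ℝ) x := hasFDerivAt_const (0 : ℝ) x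
  rw [h2.fderiv]
  simp

lemma dV6 (x v : E7) : (fderiv ℝ V x v) 6 = -(KK * Real.cos (x 6)) * v 6 := by
  rw [fderiv_V_apply]
  have h1 := hasFDerivAt_coord 6 x
  have h2 : HasFDerivAt (fun x => V x 6) _ x := (h1.sin.const_mul KK).neg
  rw [h2.fderiv]
  simp
  ring

end Pool.Agent.Helper55.PM
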