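import Mathlib
import Pool.Agent.Helper55.PM.Dyn

set_option autoImplicit false

open Set Filter Topology MeasureTheory
open scoped ContDiff

namespace Pool.Agent.Helper55.PM

/-- `e^{-ir} ((cos r + t sin r) + i sin r)`. -/
noncomputable def zr (t r : ℝ) : ℂ :=
  ((1 + t * (Real.sin r * Real.cos r) : ℝ) : ℂ) + ((-(t * Real.sin r ^ 2) : ℝ) : ℂ) * Complex.I

lemma zr_re (t r : ℝ) : (zr t r).re = 1 + t * (Real.sin r * Real.cos r) := by
  simp only [zr, Complex.add_re, Complex.ofReal_re, Complex.mul_re, Complex.I_re, Complex.I_im,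
    Complex.ofReal_im, mul_zero, mul_one, sub_zero, add_zero]
lemma zr_im (t r : ℝ) : (zr t r).im = -(t * Real.sin r ^ 2) := by
  simp only [zr, Complex.add_im, Complex.ofReal_re, Complex.mul_im, Complex.I_re, Complex.I_im,
    Complex.ofReal_im, mul_zero, mul_one, zero_add, add_zero]

lemma zr_slit (t r : ℝ) : zr t r ∈ Complex.slitPlane := by
  rw [Complex.mem_slitPlane_iff, zr_re, zr_im]
  by_cases h : t * Real.sin r ^ 2 = 0
  · left
    rcases mul_eq_zero.1 h with h | h
    · rw [h]; norm_num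
    · have : Real.sin r = 0 := by simpa using h
      rw [this]; norm_num
  · right
    exact neg_ne_zero.2 h

/-- `|z|²`. -/
noncomputable def qq (t r : ℝ) : ℝ := (Real.cos r + t * Real.sin r) ^ 2 + Real.sin r ^ 2

lemma qq_pos (t r : ℝ) : 0 < qq t r := by
  unfold qq
  by_cases h : Real.sin r = 0
  · have h1 := Real.sin_sq_add_cos_sq r
    rw [h] at h1
    rw [h]
    nlinarith
  · positivity

lemma normSq_zr (t r : ℝ) : Complex.normSq (zr t r) = qq t r := by
  rw [Complex.normSq_apply, zr_re, zr_im, qq]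
  linear_combination (t ^ 2 * Real.sin r ^ 2 - 1) * Real.sin_sq_add_cos_sq r

lemma norm_zr (t r : ℝ) : ‖zr t r‖ = √(qq t r) := by
  rw [← normSq_zr]; rfl

/-- The `ϑ`-component of the flow. -/
noncomputable def thf (t : ℝ) (x : E7) : ℝ := x 0 + nu * (Complex.log (zr t (x 1))).re

/-- The `r`-component of the flow. -/
noncomputable def rf (t : ℝ) (x : E7) : ℝ := x 1 + (Complex.log (zr t (x 1))).im

lemma zr_ne (t r : ℝ) : zr t r ≠ 0 := Complex.slitPlane_ne_zero (zr_slit t r)

lemma sin_rf (t : ℝ) (x : E7) : Real.sin (rf t x) = Real.sin (x 1) / √(qq t (x 1)) := by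
  have h0 := (Real.sqrt_pos.2 (qq_pos t (x 1))).ne'
  rw [rf, Complex.log_im, Real.sin_add, Complex.sin_arg, Complex.cos_arg (zr_ne _ _), norm_zr,
    zr_re, zr_im]
  field_simp
  linear_combination (t * Real.sin (x 1) ^ 2 * Real.cos (x 1) -
    t * Real.sin (x 1) ^ 2 * Real.cos (x 1)) * Real.sin_sq_add_cos_sq (x 1)

lemma cos_rf (t : ℝ) (x : E7) : Real.cos (rf t x) =
    (Real.cos (x 1) + t * Real.sin (x 1)) / √(qq t (x 1)) := by
  have h0 := (Real.sqrt_pos.2 (qq_pos t (x 1))).ne'
  rw [rf, Complex.log_im, Real.cos_add, Complex.sin_arg, Complex.cos_arg (zr_ne _ _), norm_zr,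
    zr_re, zr_im]
  field_simp
  linear_combination (t * Real.sin (x 1)) * Real.sin_sq_add_cos_sq (x 1)

lemma thf_eq (t : ℝ) (x : E7) : thf t x = x 0 + nu * Real.log √(qq t (x 1)) := by
  rw [thf, Complex.log_re, norm_zr]

lemma hasDerivAt_log (t r : ℝ) : HasDerivAt (fun t => Complex.log (zr t r))
    ((((Real.sin r * Real.cos r : ℝ) : ℂ) + ((-(Real.sin r ^ 2) : ℝ) : ℂ) * Complex.I) /
      zr t r) t := by
  refine HasDerivAt.clog_real ?_ (zr_slit t r)
  have h1 : HasDerivAt (fun t : ℝ => 1 + t * (Real.sin r * Real.cos r))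
      (Real.sin r * Real.cos r) t := by
    simpa using (((hasDerivAt_id t).mul_const (Real.sin r * Real.cos r)).const_add 1)
  have h2 : HasDerivAt (fun t : ℝ => -(t * Real.sin r ^ 2)) (-(Real.sin r ^ 2)) t := by
    have h3 := ((hasDerivAt_id' t).mul_const (Real.sin r ^ 2)).neg
    rw [one_mul] at h3
    exact h3
  exact (h1.ofReal_comp).add ((h2.ofReal_comp).mul_const Complex.I)

lemma hasDerivAt_log_re (t r : ℝ) : HasDerivAt (fun t => (Complex.log (zr t r)).re)
    (Real.sin r * (Real.cos r + t * Real.sin r) / qq t r) t := by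
  have h1 := Complex.reCLM.hasFDerivAt.comp_hasDerivAt t (hasDerivAt_log t r)
  convert! h1 using 1
  rw [Complex.reCLM_apply, Complex.div_re, normSq_zr, zr_re, zr_im]
  have h0 := (qq_pos t r).ne'
  simp only [Complex.add_re, Complex.ofReal_re, Complex.mul_re, Complex.I_re, Complex.I_im,
    Complex.ofReal_im, mul_zero, mul_one, sub_zero, add_zero, Complex.add_im, Complex.mul_im,
    zero_add]
  field_simp
  linear_combination (-(t * Real.sin r ^ 2)) * Real.sin_sq_add_cos_sq r

lemma hasDerivAt_log_im (t r : ℝ) : HasDerivAt (fun t => (Complex.log (zr t r)).im)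
    (-(Real.sin r ^ 2) / qq t r) t := by
  have h1 := Complex.imCLM.hasFDerivAt.comp_hasDerivAt t (hasDerivAt_log t r)
  convert! h1 using 1
  rw [Complex.imCLM_apply, Complex.div_im, normSq_zr, zr_re, zr_im]
  have h0 := (qq_pos t r).ne'
  simp only [Complex.add_re, Complex.ofReal_re, Complex.mul_re, Complex.I_re, Complex.I_im,
    Complex.ofReal_im, mul_zero, mul_one, sub_zero, add_zero, Complex.add_im, Complex.mul_im,
    zero_add]
  field_simp
  ring

lemma hasDerivAt_thf (t : ℝ) (x : E7) : HasDerivAt (fun t => thf t x)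
    (nu * (Real.sin (rf t x) * Real.cos (rf t x))) t := by
  have h1 := ((hasDerivAt_log_re t (x 1)).const_mul nu).const_add (x 0)
  convert! h1 using 1
  rw [sin_rf, cos_rf]
  have h0 := (qq_pos t (x 1)).le
  rw [div_mul_div_comm, Real.mul_self_sqrt h0]

lemma hasDerivAt_rf (t : ℝ) (x : E7) : HasDerivAt (fun t => rf t x)
    (-(Real.sin (rf t x) ^ 2)) t := by
  have h1 := (hasDerivAt_log_im t (x 1)).const_add (x 1)
  convert! h1 using 1
  rw [sin_rf, div_pow, Real.sq_sqrt (qq_pos t (x 1)).le, neg_div]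

end Pool.Agent.Helper55.PM
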