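import Mathlib
import Pool.Agent.Helper55.PM.Flow

set_option autoImplicit false

open Set Filter Topology MeasureTheory
open scoped ContDiff

namespace Pool.Agent.Helper55.PM

/-- `e^{-iw/2} (cos (w/2) + i e^{-Kt} sin (w/2))`. -/
noncomputable def zw (t w : ℝ) : ℂ :=
  ((Real.cos (w / 2) ^ 2 + Real.exp (-(KK * t)) * Real.sin (w / 2) ^ 2 : ℝ) : ℂ) +
    (((Real.exp (-(KK * t)) - 1) * (Real.sin (w / 2) * Real.cos (w / 2)) : ℝ) : ℂ) * Complex.I

lemma zw_re (t w : ℝ) : (zw t w).re =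
    Real.cos (w / 2) ^ 2 + Real.exp (-(KK * t)) * Real.sin (w / 2) ^ 2 := by
  simp only [zw, Complex.add_re, Complex.ofReal_re, Complex.mul_re, Complex.I_re, Complex.I_im,
    Complex.ofReal_im, mul_zero, mul_one, sub_zero, add_zero]
lemma zw_im (t w : ℝ) : (zw t w).im =
    (Real.exp (-(KK * t)) - 1) * (Real.sin (w / 2) * Real.cos (w / 2)) := by
  simp only [zw, Complex.add_im, Complex.ofReal_re, Complex.mul_im, Complex.I_re, Complex.I_im,
    Complex.ofReal_im, mul_zero, mul_one, zero_add, add_zero]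

lemma zw_slit (t w : ℝ) : zw t w ∈ Complex.slitPlane := by
  rw [Complex.mem_slitPlane_iff, zw_re]
  left
  have h1 := Real.sin_sq_add_cos_sq (w / 2)
  have h2 := Real.exp_pos (-(KK * t))
  by_cases h : Real.sin (w / 2) = 0
  · rw [h] at h1 ⊢
    nlinarith
  · positivity

lemma zw_ne (t w : ℝ) : zw t w ≠ 0 := Complex.slitPlane_ne_zero (zw_slit t w)

/-- `|z|²`. -/
noncomputable def qw (t w : ℝ) : ℝ :=
  Real.cos (w / 2) ^ 2 + Real.exp (-(KK * t)) ^ 2 * Real.sin (w / 2) ^ 2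

lemma normSq_zw (t w : ℝ) : Complex.normSq (zw t w) = qw t w := by
  rw [Complex.normSq_apply, zw_re, zw_im, qw]
  linear_combination (Real.cos (w / 2) ^ 2 + Real.exp (-(KK * t)) ^ 2 * Real.sin (w / 2) ^ 2) *
    Real.sin_sq_add_cos_sq (w / 2)

lemma qw_pos (t w : ℝ) : 0 < qw t w := by
  rw [← normSq_zw]; exact Complex.normSq_pos.2 (zw_ne t w)

lemma norm_zw (t w : ℝ) : ‖zw t w‖ = √(qw t w) := by
  rw [← normSq_zw]; rfl

/-- The `w`-component of the flow. -/
noncomputable def wf (t : ℝ) (x : E7) : ℝ := x 6 + 2 * (Complex.log (zw t (x 6))).im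

lemma wf_eq (t : ℝ) (x : E7) : wf t x = 2 * (x 6 / 2 + Complex.arg (zw t (x 6))) := by
  rw [wf, Complex.log_im]; ring

lemma sin_half (t : ℝ) (x : E7) : Real.sin (x 6 / 2 + Complex.arg (zw t (x 6))) =
    Real.exp (-(KK * t)) * Real.sin (x 6 / 2) / √(qw t (x 6)) := by
  have h0 := (Real.sqrt_pos.2 (qw_pos t (x 6))).ne'
  rw [Real.sin_add, Complex.sin_arg, Complex.cos_arg (zw_ne _ _), norm_zw, zw_re, zw_im]
  field_simp
  linear_combination Real.exp (-(KK * t)) * Real.sin (x 6 / 2) * Real.sin_sq_add_cos_sq (x 6 / 2)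

lemma cos_half (t : ℝ) (x : E7) : Real.cos (x 6 / 2 + Complex.arg (zw t (x 6))) =
    Real.cos (x 6 / 2) / √(qw t (x 6)) := by
  have h0 := (Real.sqrt_pos.2 (qw_pos t (x 6))).ne'
  rw [Real.cos_add, Complex.sin_arg, Complex.cos_arg (zw_ne _ _), norm_zw, zw_re, zw_im]
  field_simp
  linear_combination Real.cos (x 6 / 2) * Real.sin_sq_add_cos_sq (x 6 / 2)

lemma sin_wf (t : ℝ) (x : E7) : Real.sin (wf t x) =
    2 * Real.exp (-(KK * t)) * Real.sin (x 6 / 2) * Real.cos (x 6 / 2) / qw t (x 6) := by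
  rw [wf_eq, Real.sin_two_mul, sin_half, cos_half]
  rw [mul_assoc, div_mul_div_comm, Real.mul_self_sqrt (qw_pos t (x 6)).le]
  ring

lemma cos_wf (t : ℝ) (x : E7) : Real.cos (wf t x) =
    (Real.cos (x 6 / 2) ^ 2 - Real.exp (-(KK * t)) ^ 2 * Real.sin (x 6 / 2) ^ 2) / qw t (x 6) := by
  rw [wf_eq, Real.cos_two_mul', sin_half, cos_half]
  have h1 := Real.sq_sqrt (qw_pos t (x 6)).le
  have h0 := (Real.sqrt_pos.2 (qw_pos t (x 6))).ne'
  rw [div_pow, div_pow, h1]
  ring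

lemma hasDerivAt_wf (t : ℝ) (x : E7) : HasDerivAt (fun t => wf t x)
    (-(KK * Real.sin (wf t x))) t := by
  have h1 : HasDerivAt (fun t : ℝ => Real.exp (-(KK * t))) (-(KK * Real.exp (-(KK * t)))) t := by
    have h2 : HasDerivAt (fun t : ℝ => -(KK * t)) (-(KK * 1)) t :=
      ((hasDerivAt_id' t).const_mul KK).neg
    have h3 := h2.exp
    convert! h3 using 1
    ring
  have h2 : HasDerivAt (fun t : ℝ => Real.cos (x 6 / 2) ^ 2 +
      Real.exp (-(KK * t)) * Real.sin (x 6 / 2) ^ 2)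
      (-(KK * Real.exp (-(KK * t))) * Real.sin (x 6 / 2) ^ 2) t :=
    (h1.mul_const _).const_add _
  have h3 : HasDerivAt (fun t : ℝ => (Real.exp (-(KK * t)) - 1) *
      (Real.sin (x 6 / 2) * Real.cos (x 6 / 2)))
      (-(KK * Real.exp (-(KK * t))) * (Real.sin (x 6 / 2) * Real.cos (x 6 / 2))) t :=
    (h1.sub_const 1).mul_const _
  have h4 : HasDerivAt (fun t => zw t (x 6)) _ t :=
    (h2.ofReal_comp).add ((h3.ofReal_comp).mul_const Complex.I)
  have h5 := Complex.imCLM.hasFDerivAt.comp_hasDerivAt t (h4.clog_real (zw_slit t (x 6)))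
  have h6 := (h5.const_mul 2).const_add (x 6)
  convert! h6 using 1
  rw [sin_wf, Complex.imCLM_apply, Complex.div_im, normSq_zw, zw_re, zw_im]
  have h0 := (qw_pos t (x 6)).ne'
  simp only [Complex.add_re, Complex.ofReal_re, Complex.mul_re, Complex.I_re, Complex.I_im,
    Complex.ofReal_im, mul_zero, mul_one, sub_zero, add_zero, Complex.add_im, Complex.mul_im,
    zero_add]
  field_simp
  linear_combination (KK * Real.sin (x 6 / 2) * Real.cos (x 6 / 2)) *
    Real.sin_sq_add_cos_sq (x 6 / 2)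

end Pool.Agent.Helper55.PM
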