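import Mathlib
import Pool.Agent.Helper55.PM.Flow2
import Pool.Agent.Helper55.PM.C01

set_option autoImplicit false

open Set Filter Topology MeasureTheory
open scoped ContDiff

namespace Pool.Agent.Helper55.PM

lemma contDiff_coord (j : Fin 7) : ContDiff ℝ 1 (fun x : E7 => x j) :=
  (contDiff_euclidean.1 contDiff_id) j

lemma contDiff_coord' (j : Fin 7) : ContDiff ℝ 1 (fun p : ℝ × E7 => p.2 j) :=
  (contDiff_coord j).comp contDiff_snd

lemma contDiff_log_zr : ContDiff ℝ 1 (fun p : ℝ × E7 => Complex.log (zr p.1 (p.2 1))) := by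
  rw [contDiff_iff_contDiffAt]
  intro p
  have h1 : ContDiffAt ℝ 1 Complex.log (zr p.1 (p.2 1)) :=
    (Complex.contDiffAt_log (zr_slit _ _)).restrict_scalars ℝ
  have h2 : ContDiff ℝ 1 (fun p : ℝ × E7 => zr p.1 (p.2 1)) := by
    unfold zr
    have hr := contDiff_coord' 1
    have ht : ContDiff ℝ 1 (fun p : ℝ × E7 => p.1) := contDiff_fst
    have ha : ContDiff ℝ 1 (fun p : ℝ × E7 =>
        1 + p.1 * (Real.sin (p.2 1) * Real.cos (p.2 1))) :=
      contDiff_const.add (ht.mul (hr.sin.mul hr.cos))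
    have hb : ContDiff ℝ 1 (fun p : ℝ × E7 => -(p.1 * Real.sin (p.2 1) ^ 2)) :=
      (ht.mul (hr.sin.pow 2)).neg
    exact (Complex.ofRealCLM.contDiff.comp ha).add
      ((Complex.ofRealCLM.contDiff.comp hb).mul contDiff_const)
  exact h1.comp p h2.contDiffAt

lemma contDiff_log_zw : ContDiff ℝ 1 (fun p : ℝ × E7 => Complex.log (zw p.1 (p.2 6))) := by
  rw [contDiff_iff_contDiffAt]
  intro p
  have h1 : ContDiffAt ℝ 1 Complex.log (zw p.1 (p.2 6)) :=
    (Complex.contDiffAt_log (zw_slit _ _)).restrict_scalars ℝ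
  have h2 : ContDiff ℝ 1 (fun p : ℝ × E7 => zw p.1 (p.2 6)) := by
    unfold zw
    have hw : ContDiff ℝ 1 (fun p : ℝ × E7 => p.2 6 / 2) := (contDiff_coord' 6).div_const 2
    have he : ContDiff ℝ 1 (fun p : ℝ × E7 => Real.exp (-(KK * p.1))) :=
      (contDiff_const.mul contDiff_fst).neg.exp
    have ha : ContDiff ℝ 1 (fun p : ℝ × E7 =>
        Real.cos (p.2 6 / 2) ^ 2 + Real.exp (-(KK * p.1)) * Real.sin (p.2 6 / 2) ^ 2) :=
      (hw.cos.pow 2).add (he.mul (hw.sin.pow 2))
    have hb : ContDiff ℝ 1 (fun p : ℝ × E7 =>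
        (Real.exp (-(KK * p.1)) - 1) * (Real.sin (p.2 6 / 2) * Real.cos (p.2 6 / 2))) :=
      (he.sub contDiff_const).mul (hw.sin.mul hw.cos)
    exact (Complex.ofRealCLM.contDiff.comp ha).add
      ((Complex.ofRealCLM.contDiff.comp hb).mul contDiff_const)
  exact h1.comp p h2.contDiffAt

lemma c01_thf : C01 thf := C01.of_contDiff <|
  (contDiff_coord' 0).add (contDiff_const.mul (Complex.reCLM.contDiff.comp contDiff_log_zr))

lemma c01_rf : C01 rf := C01.of_contDiff <|
  (contDiff_coord' 1).add (Complex.imCLM.contDiff.comp contDiff_log_zr)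

lemma c01_wf : C01 wf := C01.of_contDiff <|
  (contDiff_coord' 6).add (contDiff_const.mul (Complex.imCLM.contDiff.comp contDiff_log_zw))

lemma c01_coord (j : Fin 7) : C01 (fun (_ : ℝ) (x : E7) => x j) :=
  C01.of_contDiff (contDiff_coord' j)

lemma C01.add' {f g : ℝ → E7 → ℝ} (hf : C01 f) (hg : C01 g) : C01 (fun t x => f t x + g t x) :=
  (hf.prodMk hg).comp (g := fun p : ℝ × ℝ => p.1 + p.2) (contDiff_fst.add contDiff_snd)

/-- The `τ`-component of the flow. -/
noncomputable def tauf (t : ℝ) (x : E7) : ℝ := x 2 + ∫ s in (0 : ℝ)..t, kap (thf s x) (rf s x)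

lemma contDiff_kap : ContDiff ℝ 1 (fun p : ℝ × ℝ => kap p.1 p.2) := by
  unfold kap
  exact (contDiff_snd.cos).mul (contDiff_fst.cos.sub (contDiff_const.mul contDiff_fst.sin))

lemma c01_kap : C01 (fun t x => kap (thf t x) (rf t x)) :=
  (c01_thf.prodMk c01_rf).comp contDiff_kap

lemma c01_tauf : C01 tauf := (c01_coord 2).add' c01_kap.integral

/-- The `y₀`-component of the flow. -/
noncomputable def yf (t : ℝ) (x : E7) : ℝ := x 3 + ∫ s in (0 : ℝ)..t, Real.exp (mu 0 * tauf s x)

lemma c01_exp : C01 (fun t x => Real.exp (mu 0 * tauf t x)) :=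
  c01_tauf.comp (g := fun s => Real.exp (mu 0 * s)) (contDiff_const.mul contDiff_id).exp

lemma c01_yf : C01 yf := (c01_coord 3).add' c01_exp.integral

lemma C01.continuous_left {E F : Type} [NormedAddCommGroup E] [NormedSpace ℝ E]
    [NormedAddCommGroup F] [NormedSpace ℝ F] {f : ℝ → E → F} (hf : C01 f) (x : E) :
    Continuous fun t => f t x := by
  obtain ⟨_, h1, _⟩ := hf
  exact h1.comp (continuous_id.prodMk continuous_const)

lemma hasDerivAt_tauf (t : ℝ) (x : E7) :
    HasDerivAt (fun t => tauf t x) (kap (thf t x) (rf t x)) t := by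
  have hc := c01_kap.continuous_left x
  exact (intervalIntegral.integral_hasDerivAt_right (hc.intervalIntegrable _ _)
    (hc.stronglyMeasurableAtFilter _ _) hc.continuousAt).const_add _

lemma hasDerivAt_yf (t : ℝ) (x : E7) :
    HasDerivAt (fun t => yf t x) (Real.exp (mu 0 * tauf t x)) t := by
  have hc := c01_exp.continuous_left x
  exact (intervalIntegral.integral_hasDerivAt_right (hc.intervalIntegrable _ _)
    (hc.stronglyMeasurableAtFilter _ _) hc.continuousAt).const_add _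

/-- The flow on the covering space. -/
noncomputable def Phi (t : ℝ) (x : E7) : E7 :=
  WithLp.toLp 2 ![thf t x, rf t x, tauf t x, yf t x, x 4, x 5, wf t x]

lemma Phi0 (t : ℝ) (x : E7) : Phi t x 0 = thf t x := rfl
lemma Phi1 (t : ℝ) (x : E7) : Phi t x 1 = rf t x := rfl
lemma Phi2 (t : ℝ) (x : E7) : Phi t x 2 = tauf t x := rfl
lemma Phi3 (t : ℝ) (x : E7) : Phi t x 3 = yf t x := rfl
lemma Phi4 (t : ℝ) (x : E7) : Phi t x 4 = x 4 := rfl
lemma Phi5 (t : ℝ) (x : E7) : Phi t x 5 = x 5 := rfl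
lemma Phi6 (t : ℝ) (x : E7) : Phi t x 6 = wf t x := rfl

lemma hasDerivAt_euc {f : ℝ → E7} {f' : E7} {t : ℝ}
    (h : ∀ j, HasDerivAt (fun t => f t j) (f' j) t) : HasDerivAt f f' t := by
  have h1 : HasDerivAt (fun t => (f t).ofLp) f'.ofLp t := hasDerivAt_pi.2 h
  exact (PiLp.hasFDerivAt_toLp (𝕜 := ℝ) 2 (f t).ofLp).comp_hasDerivAt t h1

lemma hasDerivAt_Phi (t : ℝ) (x : E7) : HasDerivAt (fun t => Phi t x) (V (Phi t x)) t := by
  refine hasDerivAt_euc fun j => ?_
  fin_cases j
  · exact hasDerivAt_thf t x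
  · exact hasDerivAt_rf t x
  · exact hasDerivAt_tauf t x
  · exact hasDerivAt_yf t x
  · exact hasDerivAt_const t (x 4)
  · exact hasDerivAt_const t (x 5)
  · exact hasDerivAt_wf t x

lemma euc_sum (x : E7) : x = ∑ j, x j • (EuclideanSpace.single j (1 : ℝ) : E7) := by
  ext i
  simp [Finset.sum_apply, Pi.single_apply]

lemma c01_Phi : C01 Phi := by
  have h : ∀ j, C01 (fun t x => Phi t x j) := by
    intro j
    fin_cases j
    · exact c01_thf
    · exact c01_rf
    · exact c01_tauf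
    · exact c01_yf
    · exact c01_coord 4
    · exact c01_coord 5
    · exact c01_wf
  choose f' h1 h2 h3 using h
  have hd : ∀ t x, HasFDerivAt (Phi t)
      (∑ j, (f' j t x).smulRight (EuclideanSpace.single j (1 : ℝ))) x := by
    intro t x
    have h4 : Phi t = fun x => ∑ j, Phi t x j • (EuclideanSpace.single j (1 : ℝ) : E7) :=
      funext fun x => euc_sum _
    rw [h4]
    exact HasFDerivAt.fun_sum fun j _ => (h3 j t x).smul_const _
  refine ⟨fun t x => ∑ j, (f' j t x).smulRight (EuclideanSpace.single j (1 : ℝ)), ?_, ?_, hd⟩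
  · have h4 : (fun p : ℝ × E7 => Phi p.1 p.2) =
        fun p => ∑ j, Phi p.1 p.2 j • (EuclideanSpace.single j (1 : ℝ) : E7) :=
      funext fun p => euc_sum _
    rw [h4]
    exact continuous_finsetSum _ fun j _ => (h1 j).smul continuous_const
  · refine continuous_finsetSum _ fun j _ => ?_
    have h5 : Continuous fun L : E7 →L[ℝ] ℝ => L.smulRight (EuclideanSpace.single j (1 : ℝ) : E7) := by
      exact (ContinuousLinearMap.smulRightL ℝ E7 E7).flip (EuclideanSpace.single j (1 : ℝ)) |>.continuous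
    exact h5.comp (h2 j)

lemma Phi_zero (x : E7) : Phi 0 x = x := by
  have h1 : zr 0 (x 1) = 1 := by simp [zr]
  have h2 : zw 0 (x 6) = 1 := by
    apply Complex.ext
    · rw [zw_re]
      simp only [mul_zero, neg_zero, Real.exp_zero, one_mul, Complex.one_re]
      linarith [Real.sin_sq_add_cos_sq (x 6 / 2)]
    · rw [zw_im]
      simp
  ext j
  fin_cases j
  · show thf 0 x = x 0
    rw [thf, h1]; simp
  · show rf 0 x = x 1
    rw [rf, h1]; simp
  · show tauf 0 x = x 2
    rw [tauf]; simp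
  · show yf 0 x = x 3
    rw [yf]; simp
  · rfl
  · rfl
  · show wf 0 x = x 6
    rw [wf, h2]; simp

end Pool.Agent.Helper55.PM
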