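import Mathlib

set_option autoImplicit false

open Set Filter Topology MeasureTheory Manifold
open scoped ContDiff

namespace Pool.Agent.Helper55.PM

/-! Throughout, `M` is a smooth manifold modelled on the (Euclidean) space `F`. -/

section Defs

variable {F : Type} [NormedAddCommGroup F] [NormedSpace ℝ F]
  {M : Type} [TopologicalSpace M] [ChartedSpace F M]

/-- The tangent space of `M` at `x`. -/
abbrev Tan (F : Type) [NormedAddCommGroup F] [NormedSpace ℝ F]
    {M : Type} [TopologicalSpace M] [ChartedSpace F M] (x : M) : Type :=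
  TangentSpace 𝓘(ℝ, F) x

/-- Vector fields on `M` (without any regularity). -/
abbrev VField (F : Type) [NormedAddCommGroup F] [NormedSpace ℝ F]
    (M : Type) [TopologicalSpace M] [ChartedSpace F M] : Type :=
  (x : M) → Tan F x

/-- Families of linear subspaces of the tangent spaces of `M`. -/
abbrev Distr (F : Type) [NormedAddCommGroup F] [NormedSpace ℝ F]
    (M : Type) [TopologicalSpace M] [ChartedSpace F M] : Type :=
  (x : M) → Submodule ℝ (Tan F x)

/-- The vector field `G`, seen as a section of the tangent bundle. -/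
def sect (G : VField F M) (x : M) : TangentBundle 𝓘(ℝ, F) M := ⟨x, G x⟩

/-- `φ` is the flow of the vector field `G`: every `t ↦ φ t x` is the integral curve of `G`
which starts at `x`, and it is defined for all times. -/
def IsFlowOf (φ : ℝ → M → M) (G : VField F M) : Prop :=
  ∀ x, φ 0 x = x ∧ IsMIntegralCurve (fun t => φ t x) G

/-- The derivative `Dφ_t` at `x`. -/
noncomputable def Dflow (φ : ℝ → M → M) (t : ℝ) (x : M) (v : Tan F x) : Tan F (φ t x) :=
  mfderiv 𝓘(ℝ, F) 𝓘(ℝ, F) (φ t) x v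

/-- `U` is a trapping region of the flow. -/
def IsTrapping (φ : ℝ → M → M) (U : Set M) : Prop :=
  IsOpen U ∧ ∀ t : ℝ, 0 < t → closure (φ t '' U) ⊆ U

/-- The attracting set of the trapping region `U`. -/
def attractingSet (φ : ℝ → M → M) (U : Set M) : Set M :=
  ⋂ t ∈ Ioi (0 : ℝ), closure (φ t '' U)

/-- The basin of `μ`: the points `z` with `(1/T) ∫₀ᵀ δ_{φ_t z} dt → μ` weak-*. -/
def basin [MeasurableSpace M] (φ : ℝ → M → M) (μ : Measure M) : Set M :=
  {z | ∀ f : C(M, ℝ), Tendsto (fun T : ℝ => (1 / T) * ∫ t in (0 : ℝ)..T, f (φ t z)) atTop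
    (𝓝 (∫ x, f x ∂μ))}

/-- `S ⊆ M` has volume zero: its image in every chart has Lebesgue measure zero. -/
def IsNull (F : Type) [TopologicalSpace F] [MeasureSpace F]
    {M : Type} [TopologicalSpace M] [ChartedSpace F M] (S : Set M) : Prop :=
  ∀ x : M, volume (chartAt F x '' (S ∩ (chartAt F x).source)) = 0

/-- `μ` is a physical measure of the flow. -/
def IsPhysical (F : Type) [TopologicalSpace F] [MeasureSpace F]
    {M : Type} [TopologicalSpace M] [ChartedSpace F M] [MeasurableSpace M]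
    (φ : ℝ → M → M) (μ : Measure M) : Prop :=
  IsProbabilityMeasure μ ∧ (∀ t, MeasurePreserving (φ t) μ μ) ∧ ¬ IsNull F (basin φ μ)

variable [IsManifold 𝓘(ℝ, F) ∞ M]

/-- `G` is a vector field of class `C^k` on `M`. -/
def IsVectorField (k : ℕ∞ω) (G : VField F M) : Prop :=
  ContMDiff 𝓘(ℝ, F) 𝓘(ℝ, F).tangent k (sect G)

/-- The family `E` of subspaces of the tangent spaces is a continuous subbundle over the open
set `U`: near every point of `U` it has a continuous frame. -/
def IsContinuousSubbundle (U : Set M) (E : Distr F M) : Prop :=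
  ∀ x ∈ U, ∃ (k : ℕ) (X : Fin k → VField F M), ∃ W ∈ 𝓝 x,
    (∀ i, ContinuousOn (sect (X i)) W) ∧
      ∀ y ∈ W, LinearIndependent ℝ (fun i => X i y) ∧ Submodule.span ℝ (range fun i => X i y) = E y

/-- A smooth Riemannian metric on `M`. -/
def Riem (F : Type) [NormedAddCommGroup F] [NormedSpace ℝ F]
    (M : Type) [TopologicalSpace M] [ChartedSpace F M] [IsManifold 𝓘(ℝ, F) ∞ M] : Type :=
  Bundle.ContMDiffRiemannianMetric 𝓘(ℝ, F) ∞ F (fun x : M => Tan F x)

/-- The inner product of tangent vectors at `x`. -/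
noncomputable def inn (g : Riem F M) (x : M) (u v : Tan F x) : ℝ :=
  Bundle.ContMDiffRiemannianMetric.inner g x u v

/-- Length of the tangent vector `v` at `x`. -/
noncomputable def len (g : Riem F M) (x : M) (v : Tan F x) : ℝ :=
  √(inn g x v v)

/-- Area of the parallelogram spanned by the tangent vectors `u, v` at `x`. -/
noncomputable def area (g : Riem F M) (x : M) (u v : Tan F x) : ℝ :=
  √(inn g x u u * inn g x v v - inn g x u v ^ 2)

/-- `|det (Dφ_T | L)|` for the plane `L` spanned by `u, v` at `x`. -/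
noncomputable def absDet (g : Riem F M) (φ : ℝ → M → M) (T : ℝ) (x : M) (u v : Tan F x) : ℝ :=
  area g (φ T x) (Dflow φ T x u) (Dflow φ T x v) / area g x u v

/-- `T_UM = Es ⊕ Ecu` is a continuous splitting over `U`. -/
def IsSplitting (U : Set M) (Es Ecu : Distr F M) : Prop :=
  IsContinuousSubbundle U Es ∧ IsContinuousSubbundle U Ecu ∧
    ∀ x ∈ U, IsCompl (Es x) (Ecu x) ∧ 1 ≤ Module.finrank ℝ (Es x) ∧
      2 ≤ Module.finrank ℝ (Ecu x)

/-- The family `E` of subspaces is invariant under the derivative of the flow over `Λ`. -/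
def IsInvariantOn (φ : ℝ → M → M) (Λ : Set M) (E : Distr F M) : Prop :=
  ∀ x ∈ Λ, ∀ t : ℝ, Dflow φ t x '' (E x : Set (Tan F x)) = E (φ t x)

/-- The partial hyperbolicity estimates over `Λ` with rate `lam`. -/
def IsDominated (g : Riem F M) (φ : ℝ → M → M) (Λ : Set M) (Es Ecu : Distr F M) (lam : ℝ) : Prop :=
  ∀ x ∈ Λ, ∀ t : ℝ, 0 ≤ t →
    (∀ u ∈ Es x, len g (φ t x) (Dflow φ t x u) ≤ lam ^ t * len g x u) ∧
    (∀ u ∈ Es x, ∀ v ∈ Ecu (φ t x),
      len g (φ t x) (Dflow φ t x u) * len g (φ (-t) (φ t x)) (Dflow φ (-t) (φ t x) v) ≤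
        lam ^ t * len g x u * len g (φ t x) v)

/-- The attracting set `Λ` of `U` is partially hyperbolic, with a splitting `Es ⊕ Ecu` which is
extended continuously to `U`. -/
def IsPartiallyHyperbolic (g : Riem F M) (φ : ℝ → M → M) (U : Set M) (Es Ecu : Distr F M) :
    Prop :=
  IsSplitting U Es Ecu ∧ IsInvariantOn φ (attractingSet φ U) Es ∧
    IsInvariantOn φ (attractingSet φ U) Ecu ∧
    ∃ lam ∈ Ioo (0 : ℝ) 1, IsDominated g φ (attractingSet φ U) Es Ecu lam

/-- Asymptotic sectional expansion on `Ω`. -/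
def IsASE (g : Riem F M) (φ : ℝ → M → M) (Ecu : Distr F M) (Ω : Set M) : Prop :=
  ∃ c : ℝ, 0 < c ∧ ∀ x ∈ Ω, ∀ u ∈ Ecu x, ∀ v ∈ Ecu x, LinearIndependent ℝ ![u, v] →
    (c : EReal) ≤ limsup (fun T : ℝ => ((1 / T * Real.log (absDet g φ T x u v) : ℝ) : EReal)) atTop

end Defs

end Pool.Agent.Helper55.PM
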