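import Mathlib
import Pool.Agent.Helper55.PM.Quot
import Pool.Agent.Helper55.PM.Defs

set_option autoImplicit false

open Set Filter Topology MeasureTheory Manifold
open scoped ContDiff

namespace Pool.Agent.Helper55.PM

variable {E : Type} [NormedAddCommGroup E] [NormedSpace ℝ E]
  {Q : Type} [TopologicalSpace Q] [ChartedSpace E Q]

/-- The vector field on `Q` defined by the equivariant vector field `V` on `E`. -/
noncomputable def vf (Q : Type) [TopologicalSpace Q] [ChartedSpace E Q] (V : E → E) : VField E Q :=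
  fun q => V (chartAt E q q)

namespace IsAffQuot

variable {π : E → Q} {D : Set ((E ≃L[ℝ] E) × E)} (h : IsAffQuot π D)
include h

lemma vf_pi {V : E → E} (hV : ∀ d ∈ D, ∀ z, V (d.1 z + d.2) = d.1 (V z)) (x : E) :
    vf Q V (π x) = h.lin x (V x) := by
  have h1 := hV _ (h.dk_mem x) x
  rw [h.dk_apply] at h1
  exact h1

lemma isMIntegralCurve {V : E → E} (hV : ∀ d ∈ D, ∀ z, V (d.1 z + d.2) = d.1 (V z))
    {γ : ℝ → E} (hγ : ∀ t, HasDerivAt γ (V (γ t)) t) :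
    IsMIntegralCurve (fun t => π (γ t)) (vf Q V) := by
  intro t
  have h1 : HasMFDerivAt 𝓘(ℝ, ℝ) 𝓘(ℝ, E) γ t
      ((1 : ℝ →L[ℝ] ℝ).smulRight (V (γ t))) := by
    have := (hγ t).hasFDerivAt.hasMFDerivAt
    convert! this using 1
  have h2 : HasMFDerivAt 𝓘(ℝ, ℝ) 𝓘(ℝ, E) (π ∘ γ) t
      ((h.lin (γ t) : E →L[ℝ] E).comp ((1 : ℝ →L[ℝ] ℝ).smulRight (V (γ t)))) :=
    (h.hasMFDerivAt_pi (γ t)).comp t h1
  have h3 : ∀ w : E, w = h.lin (γ t) (V (γ t)) →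
      (h.lin (γ t) : E →L[ℝ] E).comp ((1 : ℝ →L[ℝ] ℝ).smulRight (V (γ t))) =
      (1 : ℝ →L[ℝ] ℝ).smulRight w := by
    intro w hw
    subst hw
    ext; simp
  exact h2.congr_mfderiv (h3 _ (h.vf_pi hV _))

lemma isVectorField [IsManifold 𝓘(ℝ, E) ∞ Q] {V : E → E}
    (hV : ∀ d ∈ D, ∀ z, V (d.1 z + d.2) = d.1 (V z)) (hs : ContDiff ℝ ∞ V) :
    IsVectorField ∞ (vf Q V) := by
  intro q
  obtain ⟨x, rfl⟩ := h.surj q
  have h1 : ContMDiff 𝓘(ℝ, E) 𝓘(ℝ, E).tangent ∞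
      (fun z : E => (⟨z, V z⟩ : TangentBundle 𝓘(ℝ, E) E)) :=
    contMDiff_vectorSpace_iff_contDiff.2 hs
  have h2 : ContMDiff 𝓘(ℝ, E).tangent 𝓘(ℝ, E).tangent ∞ (tangentMap 𝓘(ℝ, E) 𝓘(ℝ, E) π) :=
    h.contMDiff_pi.contMDiff_tangentMap (by simp)
  have h3 := h.contMDiffAt_sec x (mem_chart_source E (π x))
  have h4 := h2.contMDiffAt.comp (π x) (h1.contMDiffAt.comp (π x) h3)
  refine h4.congr_of_eventuallyEq ?_
  filter_upwards [h.pi_sec_eventually x] with q hq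
  simp only [Function.comp_apply, tangentMap, sect]
  have h5 : (mfderiv 𝓘(ℝ, E) 𝓘(ℝ, E) π (h.sec x q) : E →L[ℝ] E) =
      (h.lin (h.sec x q) : E →L[ℝ] E) := (h.hasMFDerivAt_pi _).mfderiv
  have h6 : (mfderiv 𝓘(ℝ, E) 𝓘(ℝ, E) π (h.sec x q) : E →L[ℝ] E) (V (h.sec x q)) =
      vf Q V (π (h.sec x q)) := by
    rw [h5, h.vf_pi hV]; rfl
  have h7 : (⟨π (h.sec x q), vf Q V (π (h.sec x q))⟩ : TangentBundle 𝓘(ℝ, E) Q) =
      ⟨q, vf Q V q⟩ := by rw [hq]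
  rw [← h7]
  congr 1
  exact h6.symm

/-- Near `q₀`, the metric written in the trivialization at `q₀`. -/
lemma inCoord_metric [IsManifold 𝓘(ℝ, E) ∞ Q] {g : E → E →L[ℝ] E →L[ℝ] ℝ}
    (hg : ∀ d ∈ D, ∀ z u v, g (d.1 z + d.2) (d.1 u) (d.1 v) = g z u v)
    {q₀ q : Q} (hq : q ∈ (chartAt E q₀).source) :
    ContinuousLinearMap.inCoordinates E (fun q : Q => TangentSpace 𝓘(ℝ, E) q) (E →L[ℝ] ℝ)
      (fun q : Q => TangentSpace 𝓘(ℝ, E) q →L[ℝ] ℝ) q₀ q q₀ q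
      (g (chartAt E q q) : E →L[ℝ] E →L[ℝ] ℝ) = g (chartAt E q₀ q) := by
  have hz : π (chartAt E q₀ q) = q := h.pi_chart (chart_mem_atlas E q₀) hq
  have hsymm : ∀ v : E, (trivializationAt E (TangentSpace 𝓘(ℝ, E)) q₀).symmL ℝ q v =
      h.lin (chartAt E q₀ q) v := by
    intro v
    rw [TangentBundle.symmL_trivializationAt hq]
    have h1 : ⇑(extChartAt 𝓘(ℝ, E) q₀).symm = π := by
      simp only [extChartAt, OpenPartialHomeomorph.extend, PartialEquiv.coe_trans_symm,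
        OpenPartialHomeomorph.coe_toPartialEquiv_symm, ModelWithCorners.toPartialEquiv_coe_symm,
        modelWithCornersSelf_coe_symm, Function.comp_id]
      exact h.symm_eq _ (chart_mem_atlas E q₀)
    have h2 : extChartAt 𝓘(ℝ, E) q₀ q = chartAt E q₀ q := by simp
    rw [h1, h2]
    have h3 : range 𝓘(ℝ, E) = univ := by simp
    rw [h3, mfderivWithin_univ]
    exact DFunLike.congr_fun (h.hasMFDerivAt_pi (chartAt E q₀ q)).mfderiv v
  ext v w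
  rw [inCoordinates_apply_eq₂ (F₃ := ℝ) (E₃ := Bundle.Trivial Q ℝ)]
  · have h4 := hg _ (h.dk_mem (chartAt E q₀ q)) (chartAt E q₀ q) v w
    rw [h.dk_apply, hz] at h4
    have hb : q ∈ (trivializationAt E (TangentSpace 𝓘(ℝ, E)) q₀).baseSet := by simpa using hq
    have h5 : (trivializationAt E (TangentSpace 𝓘(ℝ, E)) q₀).symm q v =
        h.lin (chartAt E q₀ q) v := by
      rw [← hsymm v, Bundle.Trivialization.symmL_apply _ hb]
    have h6 : (trivializationAt E (TangentSpace 𝓘(ℝ, E)) q₀).symm q w =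
        h.lin (chartAt E q₀ q) w := by
      rw [← hsymm w, Bundle.Trivialization.symmL_apply _ hb]
    rw [← h4, h5, h6]
    simp
    rfl
  · simpa using hq
  · simpa using hq
  · simp

omit [TopologicalSpace Q] [ChartedSpace E Q] h in
lemma aux_pos {g : E → E →L[ℝ] E →L[ℝ] ℝ} (hpos : ∀ z, ∃ c > 0, ∀ v, c * ‖v‖ ^ 2 ≤ g z v v)
    (z v : E) (hv : v ≠ 0) : 0 < g z v v := by
  obtain ⟨c, hc, hcv⟩ := hpos z
  have h1 : 0 < c * ‖v‖ ^ 2 := by
    have := norm_pos_iff.2 hv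
    positivity
  exact h1.trans_le (hcv v)

omit [TopologicalSpace Q] [ChartedSpace E Q] h in
lemma aux_bdd {g : E → E →L[ℝ] E →L[ℝ] ℝ} (hpos : ∀ z, ∃ c > 0, ∀ v, c * ‖v‖ ^ 2 ≤ g z v v)
    (z : E) : Bornology.IsVonNBounded ℝ {v : E | g z v v < 1} := by
  obtain ⟨c, hc, hcv⟩ := hpos z
  have h1 : {v : E | g z v v < 1} ⊆ Metric.closedBall 0 (√(1 / c)) := by
    intro v hv
    rw [mem_closedBall_zero_iff]
    refine Real.le_sqrt_of_sq_le ?_
    rw [le_div_iff₀ hc]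
    have hv' : g z v v < 1 := hv
    have := hcv v
    linarith
  exact (NormedSpace.isVonNBounded_of_isBounded ℝ Metric.isBounded_closedBall).subset h1

/-- The Riemannian metric on `Q` defined by an invariant metric on `E`. -/
noncomputable def metric [IsManifold 𝓘(ℝ, E) ∞ Q] (g : E → E →L[ℝ] E →L[ℝ] ℝ)
    (hg : ∀ d ∈ D, ∀ z u v, g (d.1 z + d.2) (d.1 u) (d.1 v) = g z u v)
    (hsymm : ∀ z u v, g z u v = g z v u)
    (hpos : ∀ z, ∃ c > 0, ∀ v, c * ‖v‖ ^ 2 ≤ g z v v)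
    (hs : ContDiff ℝ ∞ g) : Riem E Q where
  inner q := (g (chartAt E q q) : E →L[ℝ] E →L[ℝ] ℝ)
  symm q v w := hsymm _ v w
  pos q v hv := aux_pos hpos _ v hv
  isVonNBounded q := aux_bdd hpos (chartAt E q q)
  contMDiff := by
    intro q₀
    rw [contMDiffAt_hom_bundle]
    refine ⟨contMDiffAt_id, ?_⟩
    have h1 : ContMDiffAt 𝓘(ℝ, E) 𝓘(ℝ, E →L[ℝ] E →L[ℝ] ℝ) ∞ (fun q => g (chartAt E q₀ q)) q₀ := by
      have h2 : ContMDiffAt 𝓘(ℝ, E) 𝓘(ℝ, E) ∞ (chartAt E q₀) q₀ :=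
        (contMDiffOn_chart (I := 𝓘(ℝ, E)) (n := ∞) (x := q₀)).contMDiffAt
          ((chartAt E q₀).open_source.mem_nhds (mem_chart_source E q₀))
      exact hs.contMDiff.contMDiffAt.comp q₀ h2
    refine h1.congr_of_eventuallyEq ?_
    filter_upwards [(chartAt E q₀).open_source.mem_nhds (mem_chart_source E q₀)] with q hq
    exact h.inCoord_metric hg hq

lemma inn_metric [IsManifold 𝓘(ℝ, E) ∞ Q] (g : E → E →L[ℝ] E →L[ℝ] ℝ)
    (hg : ∀ d ∈ D, ∀ z u v, g (d.1 z + d.2) (d.1 u) (d.1 v) = g z u v)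
    (hsymm : ∀ z u v, g z u v = g z v u)
    (hpos : ∀ z, ∃ c > 0, ∀ v, c * ‖v‖ ^ 2 ≤ g z v v)
    (hs : ContDiff ℝ ∞ g) (x u v : E) :
    inn (h.metric g hg hsymm hpos hs) (π x) (h.lin x u) (h.lin x v) = g x u v := by
  have h1 := hg _ (h.dk_mem x) x u v
  rw [h.dk_apply] at h1
  exact h1

end IsAffQuot

end Pool.Agent.Helper55.PM
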