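import Mathlib
import Pool.Agent.Helper55.PM.Flow3
import Pool.Agent.Helper55.PM.Act3
import Pool.Agent.Helper55.PM.Quot2

set_option autoImplicit false

open Set Filter Topology MeasureTheory Manifold
open scoped ContDiff

namespace Pool.Agent.Helper55.PM

lemma curve_unique {f g : ℝ → E7} (hf : ∀ t, HasDerivAt f (V (f t)) t)
    (hg : ∀ t, HasDerivAt g (V (g t)) t) (h0 : f 0 = g 0) : f = g := by
  have hV : ContMDiff 𝓘(ℝ, E7) 𝓘(ℝ, E7).tangent 1
      (fun z : E7 => (⟨z, V z⟩ : TangentBundle 𝓘(ℝ, E7) E7)) :=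
    contMDiff_vectorSpace_iff_contDiff.2 (contDiff_V.of_le (by simp))
  have key : ∀ {f : ℝ → E7}, (∀ t, HasDerivAt f (V (f t)) t) →
      IsMIntegralCurve (I := 𝓘(ℝ, E7)) f (fun z => V z) := by
    intro f hf t
    have := (hf t).hasFDerivAt.hasMFDerivAt
    convert! this using 1
  exact isMIntegralCurve_Ioo_eq_of_contMDiff_boundaryless (t₀ := 0) hV (key hf) (key hg) h0

lemma Phi_add (s t : ℝ) (x : E7) : Phi (t + s) x = Phi t (Phi s x) := by
  have h1 : (fun t => Phi (t + s) x) = fun t => Phi t (Phi s x) := by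
    refine curve_unique (fun t => ?_) (fun t => hasDerivAt_Phi t _) ?_
    · have := (hasDerivAt_Phi (t + s) x).comp_add_const t s
      exact this
    · simp only [zero_add, Phi_zero]
  exact congrFun h1 t

lemma Phi_neg (t : ℝ) (x : E7) : Phi (-t) (Phi t x) = x := by
  rw [← Phi_add, neg_add_cancel, Phi_zero]

lemma Phi_neg' (t : ℝ) (x : E7) : Phi t (Phi (-t) x) = x := by
  rw [← Phi_add, add_neg_cancel, Phi_zero]

lemma V_equi {c : E7} (hc : IsLat c) (x : E7) : V (dil (c 2) x + c) = dil (c 2) (V x) := by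
  obtain ⟨⟨a0, h0⟩, ⟨a1, h1⟩, _, _, ⟨a6, h6⟩⟩ := hc
  have e0 : (dil (c 2) x + c) 0 = x 0 + a0 * (2 * Real.pi) := by simp [h0]
  have e1 : (dil (c 2) x + c) 1 = x 1 + a1 * (2 * Real.pi) := by simp [h1]
  have e2 : (dil (c 2) x + c) 2 = x 2 + c 2 := by simp
  have e6 : (dil (c 2) x + c) 6 = x 6 + a6 * (2 * Real.pi) := by simp [h6]
  ext j
  rw [dil_apply]
  fin_cases j
  · show V _ 0 = Real.exp (mm 0 * c 2) * V x 0
    rw [V0, V0, e1, Real.sin_add_int_mul_two_pi, Real.cos_add_int_mul_two_pi]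
    simp
  · show V _ 1 = Real.exp (mm 1 * c 2) * V x 1
    rw [V1, V1, e1, Real.sin_add_int_mul_two_pi]
    simp
  · show V _ 2 = Real.exp (mm 2 * c 2) * V x 2
    rw [V2, V2, e1, e0, kap, kap, Real.sin_add_int_mul_two_pi, Real.cos_add_int_mul_two_pi,
      Real.cos_add_int_mul_two_pi]
    simp
  · show V _ 3 = Real.exp (mm 3 * c 2) * V x 3
    rw [V3, V3, e2, mm3, ← Real.exp_add]
    ring_nf
  · show V _ 4 = Real.exp (mm 4 * c 2) * V x 4
    rw [V4, V4, mul_zero]
  · show V _ 5 = Real.exp (mm 5 * c 2) * V x 5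
    rw [V5, V5, mul_zero]
  · show V _ 6 = Real.exp (mm 6 * c 2) * V x 6
    rw [V6, V6, e6, Real.sin_add_int_mul_two_pi]
    simp

lemma V_equi' : ∀ d ∈ DD, ∀ z, V (d.1 z + d.2) = d.1 (V z) := by
  rintro _ ⟨c, hc, rfl⟩ z
  exact V_equi hc z

lemma Phi_equi {c : E7} (hc : IsLat c) (t : ℝ) (x : E7) :
    Phi t (dil (c 2) x + c) = dil (c 2) (Phi t x) + c := by
  have h1 : (fun t => Phi t (dil (c 2) x + c)) = fun t => dil (c 2) (Phi t x) + c := by
    refine curve_unique (fun t => hasDerivAt_Phi t _) (fun t => ?_) ?_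
    · rw [V_equi hc]
      exact ((dil (c 2)).hasFDerivAt.comp_hasDerivAt t (hasDerivAt_Phi t x)).add_const c
    · simp only [Phi_zero]
  exact congrFun h1 t

lemma pr_Phi {x y : E7} (h : pr x = pr y) (t : ℝ) : pr (Phi t x) = pr (Phi t y) := by
  obtain ⟨g, rfl⟩ := (pr_eq_iff x y).1 h
  rw [gam_apply g y, Phi_equi (gam_lat g), ← gam_apply g, pr_smul]

/-- The flow on the compact manifold. -/
noncomputable def phi (t : ℝ) (q : QQ) : QQ :=
  Quotient.lift (fun x => pr (Phi t x)) (fun _ _ h => pr_Phi (Quotient.sound h) t) q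

lemma phi_pr (t : ℝ) (x : E7) : phi t (pr x) = pr (Phi t x) := rfl

/-- The vector field on the compact manifold. -/
noncomputable def GG : VField E7 QQ := vf QQ V

lemma isVectorField_GG : IsVectorField ∞ GG := isAffQuot.isVectorField V_equi' contDiff_V

lemma isFlowOf_phi : IsFlowOf phi GG := by
  intro q
  obtain ⟨x, rfl⟩ := surjective_pr q
  refine ⟨by rw [phi_pr, Phi_zero], ?_⟩
  exact isAffQuot.isMIntegralCurve V_equi' (fun t => hasDerivAt_Phi t x)

lemma GG_ne (q : QQ) : GG q ≠ 0 := by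
  intro h
  have h1 : V (chartAt E7 q q) = 0 := h
  have h2 : V (chartAt E7 q q) 3 = 0 := by rw [h1]; rfl
  rw [V3] at h2
  exact (Real.exp_pos _).ne' h2

end Pool.Agent.Helper55.PM
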