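import Mathlib
import Pool.Agent.Helper55.PM.Flow4

set_option autoImplicit false

open Set Filter Topology MeasureTheory
open scoped ContDiff

namespace Pool.Agent.Helper55.PM

lemma exists_var : ∃ A : ℝ → E7 → (E7 →L[ℝ] E7), (∀ t x, HasFDerivAt (Phi t) (A t x) x) ∧
      (∀ x, A 0 x = ContinuousLinearMap.id ℝ E7) ∧
      ∀ t x v, HasDerivAt (fun t => A t x v) (fderiv ℝ V (Phi t x) (A t x v)) t :=
  variational (contDiff_V.of_le (by simp)) c01_Phi Phi_zero hasDerivAt_Phi

/-- The derivative of the flow on the covering space. -/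
noncomputable def AA : ℝ → E7 → (E7 →L[ℝ] E7) := exists_var.choose

lemma hasFDerivAt_Phi (t : ℝ) (x : E7) : HasFDerivAt (Phi t) (AA t x) x :=
  exists_var.choose_spec.1 t x

lemma AA_zero (x v : E7) : AA 0 x v = v := by
  have := exists_var.choose_spec.2.1 x
  unfold AA
  rw [this]; rfl

lemma hasDerivAt_AA (t : ℝ) (x v : E7) :
    HasDerivAt (fun t => AA t x v) (fderiv ℝ V (Phi t x) (AA t x v)) t :=
  exists_var.choose_spec.2.2 t x v

lemma hasDerivAt_AA_coord (t : ℝ) (x v : E7) (j : Fin 7) :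
    HasDerivAt (fun t => AA t x v j) ((fderiv ℝ V (Phi t x) (AA t x v)) j) t :=
  (EuclideanSpace.proj j : E7 →L[ℝ] ℝ).hasFDerivAt.comp_hasDerivAt t (hasDerivAt_AA t x v)

lemma AA_add (s t : ℝ) (x v : E7) : AA (t + s) x v = AA t (Phi s x) (AA s x v) := by
  have h1 : HasFDerivAt (Phi (t + s)) ((AA t (Phi s x)).comp (AA s x)) x := by
    have h2 : Phi (t + s) = Phi t ∘ Phi s := funext fun x => Phi_add s t x
    rw [h2]
    exact (hasFDerivAt_Phi t (Phi s x)).comp x (hasFDerivAt_Phi s x)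
  have h3 := (hasFDerivAt_Phi (t + s) x).unique h1
  rw [h3]; rfl

lemma AA_neg (t : ℝ) (x v : E7) : AA (-t) (Phi t x) (AA t x v) = v := by
  rw [← AA_add, neg_add_cancel, AA_zero]

lemma AA_neg' (t : ℝ) (x v : E7) : AA t (Phi (-t) x) (AA (-t) x v) = v := by
  rw [← AA_add, add_neg_cancel, AA_zero]

lemma const_of_deriv {f : ℝ → ℝ} (h : ∀ t, HasDerivAt f 0 t) (t : ℝ) : f t = f 0 :=
  is_const_of_deriv_eq_zero (fun t => (h t).differentiableAt) (fun t => (h t).deriv) t 0

lemma hasDerivAt_qq (t r : ℝ) :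
    HasDerivAt (fun t => qq t r) (2 * Real.sin r * (Real.cos r + t * Real.sin r)) t := by
  have h1 : HasDerivAt (fun t : ℝ => Real.cos r + t * Real.sin r) (Real.sin r) t := by
    simpa using ((hasDerivAt_id' t).mul_const (Real.sin r)).const_add (Real.cos r)
  have h2 := (h1.pow 2).add_const (Real.sin r ^ 2)
  convert! h2 using 1
  push_cast
  ring

lemma qq_zero (r : ℝ) : qq 0 r = 1 := by
  rw [qq]; linarith [Real.sin_sq_add_cos_sq r]

lemma W1_eq (t : ℝ) (x v : E7) : AA t x v 1 * qq t (x 1) = v 1 := by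
  have h : ∀ t, HasDerivAt (fun t => AA t x v 1 * qq t (x 1)) 0 t := by
    intro t
    have h1 := (hasDerivAt_AA_coord t x v 1).mul (hasDerivAt_qq t (x 1))
    rw [dV1, Phi1, sin_rf, cos_rf] at h1
    convert! h1 using 1
    have h0 := Real.mul_self_sqrt (qq_pos t (x 1)).le
    have h2 := (Real.sqrt_pos.2 (qq_pos t (x 1))).ne'
    have h3 := (qq_pos t (x 1)).ne'
    set q := √(qq t (x 1))
    rw [← h0]
    field_simp
    ring
  have h1 := const_of_deriv h t
  simp only at h1
  rw [h1, AA_zero, qq_zero, mul_one]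

lemma W1_eq' (t : ℝ) (x v : E7) : AA t x v 1 = v 1 / qq t (x 1) := by
  rw [eq_div_iff (qq_pos t (x 1)).ne', W1_eq]

lemma W0_eq (t : ℝ) (x v : E7) (hv : v 1 = 0) : AA t x v 0 = v 0 := by
  have h : ∀ t, HasDerivAt (fun t => AA t x v 0) 0 t := by
    intro t
    have h1 := hasDerivAt_AA_coord t x v 0
    rw [dV0, W1_eq', hv] at h1
    simpa using h1
  have h1 := const_of_deriv h t
  simp only at h1
  rw [h1, AA_zero]

lemma W4_eq (t : ℝ) (x v : E7) : AA t x v 4 = v 4 := by
  have h1 := const_of_deriv (fun t => by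
    have h1 := hasDerivAt_AA_coord t x v 4
    rw [dV4] at h1
    exact h1) t
  simp only at h1
  rw [h1, AA_zero]

lemma W5_eq (t : ℝ) (x v : E7) : AA t x v 5 = v 5 := by
  have h1 := const_of_deriv (fun t => by
    have h1 := hasDerivAt_AA_coord t x v 5
    rw [dV5] at h1
    exact h1) t
  simp only at h1
  rw [h1, AA_zero]

lemma hasDerivAt_sqrt_qq (t r : ℝ) : HasDerivAt (fun t => √(qq t r))
    (Real.sin r * (Real.cos r + t * Real.sin r) / √(qq t r)) t := by
  have h1 := (hasDerivAt_qq t r).sqrt (qq_pos t r).ne'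
  convert! h1 using 1
  have h2 := (Real.sqrt_pos.2 (qq_pos t r)).ne'
  field_simp

lemma tauf_eq (t : ℝ) (x : E7) (hs : Real.sin (x 1) ≠ 0) : tauf t x =
    x 2 + (√(qq t (x 1)) * Real.cos (thf t x) - Real.cos (x 0)) / Real.sin (x 1) := by
  have h : ∀ t, HasDerivAt (fun t => tauf t x -
      √(qq t (x 1)) * Real.cos (thf t x) / Real.sin (x 1)) 0 t := by
    intro t
    have h1 := (hasDerivAt_tauf t x).sub
      (((hasDerivAt_sqrt_qq t (x 1)).mul (hasDerivAt_thf t x).cos).div_const (Real.sin (x 1)))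
    convert! h1 using 1
    rw [kap, sin_rf, cos_rf]
    have h2 := (Real.sqrt_pos.2 (qq_pos t (x 1))).ne'
    field_simp
    ring
  have h1 := const_of_deriv h t
  have h2 : tauf 0 x = x 2 := congrFun (congrArg WithLp.ofLp (Phi_zero x)) 2
  have h3 : thf 0 x = x 0 := congrFun (congrArg WithLp.ofLp (Phi_zero x)) 0
  simp only [h2, h3, qq_zero, Real.sqrt_one, one_mul] at h1
  field_simp at h1 ⊢
  linarith

lemma W2_eq (t : ℝ) (x v : E7) (hv : v 1 = 0) (hs : Real.sin (x 1) ≠ 0) :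
    AA t x v 2 = v 2 - v 0 * (√(qq t (x 1)) * Real.sin (thf t x) - Real.sin (x 0)) /
      Real.sin (x 1) := by
  have h : ∀ t, HasDerivAt (fun t => AA t x v 2 +
      v 0 * (√(qq t (x 1)) * Real.sin (thf t x)) / Real.sin (x 1)) 0 t := by
    intro t
    have h1 := (hasDerivAt_AA_coord t x v 2).add
      ((((hasDerivAt_sqrt_qq t (x 1)).mul (hasDerivAt_thf t x).sin).const_mul (v 0)).div_const
        (Real.sin (x 1)))
    convert! h1 using 1
    rw [dV2, W1_eq', hv, W0_eq t x v hv, Phi1, Phi0, sin_rf, cos_rf]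
    have h2 := (Real.sqrt_pos.2 (qq_pos t (x 1))).ne'
    field_simp
    ring
  have h1 := const_of_deriv h t
  have h3 : thf 0 x = x 0 := congrFun (congrArg WithLp.ofLp (Phi_zero x)) 0
  simp only [AA_zero, h3, qq_zero, Real.sqrt_one, one_mul] at h1
  field_simp at h1 ⊢
  linarith

end Pool.Agent.Helper55.PM
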