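import Mathlib
import Pool.Agent.Helper55.PM.Var

set_option autoImplicit false

open Set Filter Topology MeasureTheory
open scoped ContDiff

namespace Pool.Agent.Helper55.PM

/-- A Grönwall estimate in both time directions. -/
lemma gron {N N' : ℝ → ℝ} {C : ℝ} (hN : ∀ t, HasDerivAt N (N' t) t)
    (hb : ∀ t, |N' t| ≤ C * N t) (t : ℝ) : N t ≤ Real.exp (C * |t|) * N 0 := by
  rcases le_total 0 t with ht | ht
  · have h1 : ∀ t, HasDerivAt (fun t => N t * Real.exp (-(C * t)))
        ((N' t - C * N t) * Real.exp (-(C * t))) t := by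
      intro t
      have h2 : HasDerivAt (fun t : ℝ => -(C * t)) (-(C * 1)) t :=
        ((hasDerivAt_id' t).const_mul C).neg
      have h3 := (hN t).mul h2.exp
      convert! h3 using 1
      ring
    have h4 : Antitone (fun t => N t * Real.exp (-(C * t))) := by
      refine antitone_of_deriv_nonpos (fun t => (h1 t).differentiableAt) fun t => ?_
      rw [(h1 t).deriv]
      have h5 := (abs_le.1 (hb t)).2
      exact mul_nonpos_of_nonpos_of_nonneg (by linarith) (Real.exp_pos _).le
    have h6 := h4 ht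
    simp only [mul_zero, neg_zero, Real.exp_zero, mul_one] at h6
    rw [Real.exp_neg, ← div_eq_mul_inv, div_le_iff₀ (Real.exp_pos _)] at h6
    rw [abs_of_nonneg ht]
    linarith
  · have h1 : ∀ t, HasDerivAt (fun t => N t * Real.exp (C * t))
        ((N' t + C * N t) * Real.exp (C * t)) t := by
      intro t
      have h2 : HasDerivAt (fun t : ℝ => C * t) (C * 1) t := (hasDerivAt_id' t).const_mul C
      have h3 := (hN t).mul h2.exp
      convert! h3 using 1
      ring
    have h4 : Monotone (fun t => N t * Real.exp (C * t)) := by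
      refine monotone_of_deriv_nonneg (fun t => (h1 t).differentiableAt) fun t => ?_
      rw [(h1 t).deriv]
      have h5 := (abs_le.1 (hb t)).1
      exact mul_nonneg (by linarith) (Real.exp_pos _).le
    have h6 := h4 ht
    simp only [mul_zero, Real.exp_zero, mul_one] at h6
    rw [abs_of_nonpos ht]
    have h7 : Real.exp (C * -t) * Real.exp (C * t) = 1 := by
      rw [← Real.exp_add]; simp
    have h8 := Real.exp_pos (C * -t)
    calc N t = Real.exp (C * -t) * (N t * Real.exp (C * t)) := by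
          rw [mul_comm (N t), ← mul_assoc, h7, one_mul]
      _ ≤ Real.exp (C * -t) * N 0 := mul_le_mul_of_nonneg_left h6 h8.le

/-- Normalised coordinates of the transported vector. -/
noncomputable def xi (j : Fin 7) (t : ℝ) (x v : E7) : ℝ :=
  Real.exp (-(mm j * tauf t x)) * AA t x v j

lemma hasDerivAt_xi (j : Fin 7) (t : ℝ) (x v : E7) : HasDerivAt (fun t => xi j t x v)
    (Real.exp (-(mm j * tauf t x)) * (fderiv ℝ V (Phi t x) (AA t x v)) j -
      mm j * kap (thf t x) (rf t x) * xi j t x v) t := by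
  have h1 : HasDerivAt (fun t => -(mm j * tauf t x)) (-(mm j * kap (thf t x) (rf t x))) t :=
    ((hasDerivAt_tauf t x).const_mul _).neg
  have h2 := h1.exp.mul (hasDerivAt_AA_coord t x v j)
  convert! h2 using 1
  rw [xi]
  ring

lemma abs_kap_le (a b : ℝ) : |kap a b| ≤ 2 := by
  rw [kap, abs_mul]
  have h1 := Real.abs_cos_le_one b
  have h2 := Real.abs_cos_le_one a
  have h3 := Real.abs_sin_le_one a
  have h4 : |Real.cos a - nu * Real.sin a| ≤ 2 := by
    calc |Real.cos a - nu * Real.sin a| ≤ |Real.cos a| + |nu * Real.sin a| := abs_sub _ _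
      _ ≤ 1 + 1 * 1 := by
          rw [abs_mul]
          refine add_le_add h2 (mul_le_mul ?_ h3 (abs_nonneg _) (by norm_num))
          rw [nu, abs_of_pos (by norm_num)]; norm_num
      _ = 2 := by norm_num
  calc |Real.cos b| * |Real.cos a - nu * Real.sin a| ≤ 1 * 2 :=
        mul_le_mul h1 h4 (abs_nonneg _) (by norm_num)
    _ = 2 := by norm_num

/-- The `cu` part of the squared length. -/
noncomputable def Ncu (t : ℝ) (x v : E7) : ℝ :=
  xi 0 t x v ^ 2 + xi 1 t x v ^ 2 + xi 2 t x v ^ 2 + xi 3 t x v ^ 2 + xi 4 t x v ^ 2 +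
    xi 5 t x v ^ 2

lemma two_mul_abs (a b : ℝ) : 2 * (|a| * |b|) ≤ a ^ 2 + b ^ 2 := by
  nlinarith [sq_nonneg (|a| - |b|), sq_abs a, sq_abs b]

lemma Ncu_bound (t : ℝ) (x v : E7) : Ncu t x v ≤ Real.exp (15 * |t|) * Ncu 0 x v := by
  refine gron (N := fun t => Ncu t x v)
    (N' := fun t => 2 * (xi 0 t x v * (nu * (Real.cos (rf t x) ^ 2 - Real.sin (rf t x) ^ 2) *
        xi 1 t x v) +
      xi 1 t x v * (-(2 * Real.sin (rf t x) * Real.cos (rf t x)) * xi 1 t x v) +
      xi 2 t x v * (-(Real.sin (rf t x) * (Real.cos (thf t x) - nu * Real.sin (thf t x))) *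
        xi 1 t x v - Real.cos (rf t x) * (Real.sin (thf t x) + nu * Real.cos (thf t x)) *
        xi 0 t x v) +
      xi 3 t x v * (mu 0 * xi 2 t x v - mu 0 * kap (thf t x) (rf t x) * xi 3 t x v) +
      xi 4 t x v * (-(mu 1 * kap (thf t x) (rf t x)) * xi 4 t x v) +
      xi 5 t x v * (-(mu 2 * kap (thf t x) (rf t x)) * xi 5 t x v)))
    (fun t => ?_) (fun t => ?_) t
  · have h0 := hasDerivAt_xi 0 t x v
    have h1 := hasDerivAt_xi 1 t x v
    have h2 := hasDerivAt_xi 2 t x v
    have h3 := hasDerivAt_xi 3 t x v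
    have h4 := hasDerivAt_xi 4 t x v
    have h5 := hasDerivAt_xi 5 t x v
    have h := (((((h0.pow 2).add (h1.pow 2)).add (h2.pow 2)).add (h3.pow 2)).add
      (h4.pow 2)).add (h5.pow 2)
    convert! h using 1
    rw [dV0, dV1, dV2, dV3, dV4, dV5, Phi0, Phi1, Phi2, mm3]
    have e0 : AA t x v 0 = xi 0 t x v := by simp [xi]
    have e1 : AA t x v 1 = xi 1 t x v := by simp [xi]
    have e2 : AA t x v 2 = xi 2 t x v := by simp [xi]
    rw [e0, e1, e2]
    have hE : Real.exp (-(mu 0 * tauf t x)) * (mu 0 * Real.exp (mu 0 * tauf t x) * xi 2 t x v) =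
        mu 0 * xi 2 t x v := by
      have : Real.exp (-(mu 0 * tauf t x)) * Real.exp (mu 0 * tauf t x) = 1 := by
        rw [← Real.exp_add]; simp
      linear_combination (mu 0 * xi 2 t x v) * this
    rw [hE]
    simp only [mm0, mm1, mm2, mm4, mm5, zero_mul, neg_zero, Real.exp_zero, one_mul, mul_zero,
      sub_zero]
    ring
  · have hk := abs_kap_le (thf t x) (rf t x)
    have hm0 := abs_mu_le 0
    have hm1 := abs_mu_le 1
    have hm2 := abs_mu_le 2
    have hs := Real.abs_sin_le_one (rf t x)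
    have hc := Real.abs_cos_le_one (rf t x)
    have hs' := Real.abs_sin_le_one (thf t x)
    have hc' := Real.abs_cos_le_one (thf t x)
    have hnu : |nu| ≤ 1 := by rw [nu, abs_of_pos (by norm_num)]; norm_num
    have hsc := Real.sin_sq_add_cos_sq (rf t x)
    set a := xi 0 t x v
    set b := xi 1 t x v
    set c := xi 2 t x v
    set d := xi 3 t x v
    set e := xi 4 t x v
    set f := xi 5 t x v
    set s := Real.sin (rf t x)
    set co := Real.cos (rf t x)
    set s' := Real.sin (thf t x)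
    set co' := Real.cos (thf t x)
    set k := kap (thf t x) (rf t x)
    have q1 : |nu * (co ^ 2 - s ^ 2)| ≤ 1 := by
      rw [abs_mul]
      have : |co ^ 2 - s ^ 2| ≤ 1 := by
        rw [abs_le]; constructor <;> nlinarith [sq_nonneg s, sq_nonneg co]
      calc |nu| * |co ^ 2 - s ^ 2| ≤ 1 * 1 := mul_le_mul hnu this (abs_nonneg _) (by norm_num)
        _ = 1 := by norm_num
    have q2 : |-(2 * s * co)| ≤ 2 := by
      rw [abs_neg, abs_mul, abs_mul, abs_of_pos (by norm_num : (0 : ℝ) < 2)]
      nlinarith [abs_nonneg s, abs_nonneg co]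
    have q3 : |-(s * (co' - nu * s'))| ≤ 2 := by
      rw [abs_neg, abs_mul]
      have : |co' - nu * s'| ≤ 2 := by
        calc |co' - nu * s'| ≤ |co'| + |nu * s'| := abs_sub _ _
          _ ≤ 1 + 1 * 1 := by
              rw [abs_mul]
              exact add_le_add hc' (mul_le_mul hnu hs' (abs_nonneg _) (by norm_num))
          _ = 2 := by norm_num
      calc |s| * |co' - nu * s'| ≤ 1 * 2 := mul_le_mul hs this (abs_nonneg _) (by norm_num)
        _ = 2 := by norm_num
    have q4 : |co * (s' + nu * co')| ≤ 2 := by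
      rw [abs_mul]
      have : |s' + nu * co'| ≤ 2 := by
        calc |s' + nu * co'| ≤ |s'| + |nu * co'| := abs_add_le _ _
          _ ≤ 1 + 1 * 1 := by
              rw [abs_mul]
              exact add_le_add hs' (mul_le_mul hnu hc' (abs_nonneg _) (by norm_num))
          _ = 2 := by norm_num
      calc |co| * |s' + nu * co'| ≤ 1 * 2 := mul_le_mul hc this (abs_nonneg _) (by norm_num)
        _ = 2 := by norm_num
    have q5 : ∀ i, |mu i * k| ≤ 6 := fun i => by
      rw [abs_mul]
      calc |mu i| * |k| ≤ 3 * 2 := mul_le_mul (abs_mu_le i) hk (abs_nonneg _) (by norm_num)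
        _ = 6 := by norm_num
    have b0 : |a * (nu * (co ^ 2 - s ^ 2) * b)| ≤ |a| * |b| := by
      rw [abs_mul, abs_mul]
      calc |a| * (|nu * (co ^ 2 - s ^ 2)| * |b|) ≤ |a| * (1 * |b|) := by gcongr
        _ = |a| * |b| := by ring
    have b1 : |b * (-(2 * s * co) * b)| ≤ 2 * b ^ 2 := by
      rw [abs_mul, abs_mul]
      calc |b| * (|-(2 * s * co)| * |b|) ≤ |b| * (2 * |b|) := by gcongr
        _ = 2 * |b| ^ 2 := by ring
        _ = 2 * b ^ 2 := by rw [sq_abs]
    have b2 : |c * (-(s * (co' - nu * s')) * b - co * (s' + nu * co') * a)| ≤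
        2 * (|c| * |b|) + 2 * (|c| * |a|) := by
      rw [abs_mul]
      calc |c| * |-(s * (co' - nu * s')) * b - co * (s' + nu * co') * a|
          ≤ |c| * (|-(s * (co' - nu * s')) * b| + |co * (s' + nu * co') * a|) := by
            gcongr; exact abs_sub _ _
        _ ≤ |c| * (2 * |b| + 2 * |a|) := by
            rw [abs_mul, abs_mul (co * (s' + nu * co'))]
            gcongr
        _ = 2 * (|c| * |b|) + 2 * (|c| * |a|) := by ring
    have b3 : |d * (mu 0 * c - mu 0 * k * d)| ≤ 3 * (|d| * |c|) + 6 * d ^ 2 := by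
      rw [abs_mul]
      calc |d| * |mu 0 * c - mu 0 * k * d| ≤ |d| * (|mu 0 * c| + |mu 0 * k * d|) := by
            gcongr; exact abs_sub _ _
        _ ≤ |d| * (3 * |c| + 6 * |d|) := by
            rw [abs_mul, abs_mul (mu 0 * k)]
            have := q5 0
            gcongr
        _ = 3 * (|d| * |c|) + 6 * |d| ^ 2 := by ring
        _ = 3 * (|d| * |c|) + 6 * d ^ 2 := by rw [sq_abs]
    have b4 : |e * (-(mu 1 * k) * e)| ≤ 6 * e ^ 2 := by
      rw [abs_mul, abs_mul, abs_neg]
      have := q5 1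
      calc |e| * (|mu 1 * k| * |e|) ≤ |e| * (6 * |e|) := by gcongr
        _ = 6 * |e| ^ 2 := by ring
        _ = 6 * e ^ 2 := by rw [sq_abs]
    have b5 : |f * (-(mu 2 * k) * f)| ≤ 6 * f ^ 2 := by
      rw [abs_mul, abs_mul, abs_neg]
      have := q5 2
      calc |f| * (|mu 2 * k| * |f|) ≤ |f| * (6 * |f|) := by gcongr
        _ = 6 * |f| ^ 2 := by ring
        _ = 6 * f ^ 2 := by rw [sq_abs]
    have t1 := two_mul_abs a b
    have t2 := two_mul_abs c b
    have t3 := two_mul_abs c a
    have t4 := two_mul_abs d c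
    have hN : Ncu t x v = a ^ 2 + b ^ 2 + c ^ 2 + d ^ 2 + e ^ 2 + f ^ 2 := rfl
    rw [hN]
    rw [abs_le] at b0 b1 b2 b3 b4 b5 ⊢
    have sa := sq_nonneg a
    have sb := sq_nonneg b
    have sc := sq_nonneg c
    have sd := sq_nonneg d
    have se := sq_nonneg e
    have sf := sq_nonneg f
    constructor
    · linarith [b0.1, b1.1, b2.1, b3.1, b4.1, b5.1]
    · linarith [b0.2, b1.2, b2.2, b3.2, b4.2, b5.2]

end Pool.Agent.Helper55.PM
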