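import Mathlib
import Pool.Agent.Helper55.PM.PH

set_option autoImplicit false

open Set Filter Topology MeasureTheory Manifold
open scoped ContDiff

namespace Pool.Agent.Helper55.PM

/-- The coordinate functionals. -/
noncomputable def pj (j : Fin 7) : E7 →L[ℝ] ℝ := EuclideanSpace.proj j

@[simp] lemma pj_apply (j : Fin 7) (x : E7) : pj j x = x j := rfl

/-- The invariant metric on the covering space. -/
noncomputable def gm (x : E7) : E7 →L[ℝ] E7 →L[ℝ] ℝ :=
  ∑ j, Real.exp (-(2 * (mm j * x 2))) • (pj j).smulRight (pj j)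

lemma gm_apply (x u v : E7) : gm x u v = ∑ j, Real.exp (-(2 * (mm j * x 2))) * (u j * v j) := by
  simp [gm]

lemma contDiff_gm : ContDiff ℝ ∞ gm := by
  refine contDiff_clm_apply_iff.2 fun u => contDiff_clm_apply_iff.2 fun v => ?_
  simp only [gm_apply]
  refine ContDiff.sum fun j _ => ?_
  have h : ContDiff ℝ ∞ (fun x : E7 => x 2) := (contDiff_euclidean.1 contDiff_id) 2
  exact ((contDiff_const.mul (contDiff_const.mul h)).neg.exp).mul contDiff_const

lemma gm_equi {c : E7} (x u v : E7) :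
    gm (dil (c 2) x + c) (dil (c 2) u) (dil (c 2) v) = gm x u v := by
  rw [gm_apply, gm_apply]
  refine Finset.sum_congr rfl fun j _ => ?_
  have h2 : (dil (c 2) x + c) 2 = x 2 + c 2 := by simp
  rw [h2, dil_apply, dil_apply]
  have : Real.exp (-(2 * (mm j * (x 2 + c 2)))) * (Real.exp (mm j * c 2) * Real.exp (mm j * c 2)) =
      Real.exp (-(2 * (mm j * x 2))) := by
    rw [← Real.exp_add, ← Real.exp_add]
    ring_nf
  calc _ = (Real.exp (-(2 * (mm j * (x 2 + c 2)))) *
      (Real.exp (mm j * c 2) * Real.exp (mm j * c 2))) * (u j * v j) := by ring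
    _ = _ := by rw [this]

lemma gm_equi' : ∀ d ∈ DD, ∀ z u v, gm (d.1 z + d.2) (d.1 u) (d.1 v) = gm z u v := by
  rintro _ ⟨c, _, rfl⟩ z u v
  exact gm_equi z u v

lemma gm_symm (z u v : E7) : gm z u v = gm z v u := by
  rw [gm_apply, gm_apply]
  refine Finset.sum_congr rfl fun j _ => ?_
  ring

lemma gm_pos (z : E7) : ∃ c > 0, ∀ v, c * ‖v‖ ^ 2 ≤ gm z v v := by
  refine ⟨Real.exp (-(6 * |z 2|)), Real.exp_pos _, fun v => ?_⟩
  rw [gm_apply, EuclideanSpace.norm_sq_eq, Finset.mul_sum]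
  refine Finset.sum_le_sum fun j _ => ?_
  rw [Real.norm_eq_abs, sq_abs, ← sq]
  refine mul_le_mul_of_nonneg_right ?_ (sq_nonneg _)
  apply Real.exp_le_exp.2
  have h1 : mm j * z 2 ≤ 3 * |z 2| := by
    calc mm j * z 2 ≤ |mm j * z 2| := le_abs_self _
      _ = |mm j| * |z 2| := abs_mul _ _
      _ ≤ 3 * |z 2| := mul_le_mul_of_nonneg_right (abs_mm_le j) (abs_nonneg _)
  linarith

/-- The Riemannian metric on the compact manifold. -/
noncomputable def gQ : Riem E7 QQ := isAffQuot.metric gm gm_equi' gm_symm gm_pos contDiff_gm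

/-- Derivative of the covering map. -/
noncomputable abbrev ln (x : E7) : E7 ≃L[ℝ] E7 := isAffQuot.lin x

lemma inn_ln (x u v : E7) : inn gQ (pr x) (ln x u) (ln x v) = gm x u v :=
  isAffQuot.inn_metric gm gm_equi' gm_symm gm_pos contDiff_gm x u v

lemma ln_spec (x : E7) : ∃ k : ℝ, ln x = dil k := by
  obtain ⟨c, _, hc⟩ := isAffQuot.dk_mem x
  exact ⟨c 2, by unfold ln IsAffQuot.lin; rw [hc]⟩

lemma Dflow_ln (t : ℝ) (x v : E7) :
    Dflow phi t (pr x) (ln x v) = ln (Phi t x) (AA t x v) :=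
  isAffQuot.mfderiv_of_lift (phi_pr t) (hasFDerivAt_Phi t x) v

lemma len_ln (x v : E7) : len gQ (pr x) (ln x v) = √(gm x v v) := by
  unfold len
  rw [inn_ln]

lemma gm_AA (t : ℝ) (x v : E7) :
    gm (Phi t x) (AA t x v) (AA t x v) = Ncu t x v + (AA t x v 6) ^ 2 := by
  rw [gm_apply, Phi2]
  simp only [Fin.sum_univ_seven, Ncu, xi]
  have h : ∀ j : Fin 7, Real.exp (-(2 * (mm j * tauf t x))) * (AA t x v j * AA t x v j) =
      (Real.exp (-(mm j * tauf t x)) * AA t x v j) ^ 2 := by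
    intro j
    have : Real.exp (-(2 * (mm j * tauf t x))) = Real.exp (-(mm j * tauf t x)) ^ 2 := by
      rw [← Real.exp_nat_mul]; push_cast; ring_nf
    rw [this]; ring
  simp only [h]
  simp

lemma W6_zero (t : ℝ) (x v : E7) (hv : v 6 = 0) : AA t x v 6 = 0 := by
  have h1 : ∀ t, HasDerivAt (fun t => (AA t x v 6) ^ 2)
      (2 * (AA t x v 6) * (-(KK * Real.cos (wf t x)) * AA t x v 6)) t := by
    intro t
    have h2 := (hasDerivAt_AA_coord t x v 6).pow 2
    rw [dV6, Phi6] at h2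
    convert! h2 using 1
    norm_num
  have h3 := gron (C := 18) h1 (fun t => by
    have hc := Real.abs_cos_le_one (wf t x)
    have : |2 * AA t x v 6 * (-(KK * Real.cos (wf t x)) * AA t x v 6)| =
        18 * |Real.cos (wf t x)| * (AA t x v 6) ^ 2 := by
      have e : 2 * AA t x v 6 * (-(KK * Real.cos (wf t x)) * AA t x v 6) =
        -(18 * Real.cos (wf t x) * (AA t x v 6) ^ 2) := by rw [KK]; ring
      rw [e, abs_neg, abs_mul, abs_mul, abs_of_pos (by norm_num : (0 : ℝ) < 18),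
        abs_of_nonneg (sq_nonneg (AA t x v 6))]
    rw [this]
    have := sq_nonneg (AA t x v 6)
    nlinarith) t
  rw [AA_zero, hv] at h3
  have h4 := sq_nonneg (AA t x v 6)
  have h5 : (AA t x v 6) ^ 2 = 0 := le_antisymm (by simpa using h3) h4
  exact pow_eq_zero_iff (two_ne_zero) |>.1 h5

lemma wf_fixed (t : ℝ) (x : E7) (hx : Real.sin (x 6 / 2) = 0) : Real.cos (wf t x) = 1 := by
  rw [cos_wf, qw, hx]
  have h1 := Real.sin_sq_add_cos_sq (x 6 / 2)
  rw [hx] at h1
  have h2 : Real.cos (x 6 / 2) ^ 2 = 1 := by linarith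
  rw [h2]; simp

lemma W6_fixed (t : ℝ) (x v : E7) (hx : Real.sin (x 6 / 2) = 0) :
    AA t x v 6 = Real.exp (-(KK * t)) * v 6 := by
  have h1 : ∀ t, HasDerivAt (fun t => Real.exp (KK * t) * AA t x v 6) 0 t := by
    intro t
    have h2 : HasDerivAt (fun t : ℝ => KK * t) (KK * 1) t := (hasDerivAt_id' t).const_mul KK
    have h3 := h2.exp.mul (hasDerivAt_AA_coord t x v 6)
    rw [dV6, Phi6, wf_fixed t x hx] at h3
    convert! h3 using 1
    ring
  have h2 := const_of_deriv h1 t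
  simp only [mul_zero, Real.exp_zero, one_mul, AA_zero] at h2
  rw [← h2, ← mul_assoc, ← Real.exp_add]
  simp

lemma Ncu_zero (x v : E7) : Ncu 0 x v = gm x v v - (v 6) ^ 2 := by
  have h := gm_AA 0 x v
  rw [Phi_zero, AA_zero] at h
  linarith

lemma Ws_zero (t : ℝ) (x v : E7) (hv : ∀ j, j ≠ 6 → v j = 0) (j : Fin 7) (hj : j ≠ 6) :
    AA t x v j = 0 := by
  have h0 : Ncu 0 x v = 0 := by
    rw [Ncu]
    simp only [xi, AA_zero]
    simp [hv]
  have h1 := Ncu_bound t x v
  rw [h0, mul_zero] at h1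
  have h2 : ∀ i, i ≠ 6 → xi i t x v ^ 2 ≤ 0 := by
    intro i hi
    refine le_trans ?_ h1
    unfold Ncu
    have s0 := sq_nonneg (xi 0 t x v)
    have s1 := sq_nonneg (xi 1 t x v)
    have s2 := sq_nonneg (xi 2 t x v)
    have s3 := sq_nonneg (xi 3 t x v)
    have s4 := sq_nonneg (xi 4 t x v)
    have s5 := sq_nonneg (xi 5 t x v)
    fin_cases i
    · show xi 0 t x v ^ 2 ≤ _; linarith
    · show xi 1 t x v ^ 2 ≤ _; linarith
    · show xi 2 t x v ^ 2 ≤ _; linarith
    · show xi 3 t x v ^ 2 ≤ _; linarith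
    · show xi 4 t x v ^ 2 ≤ _; linarith
    · show xi 5 t x v ^ 2 ≤ _; linarith
    · exact absurd rfl hi
  have h3 : xi j t x v = 0 := by
    have := le_antisymm (h2 j hj) (sq_nonneg _)
    exact pow_eq_zero_iff (two_ne_zero) |>.1 this
  rw [xi] at h3
  exact (mul_eq_zero.1 h3).resolve_left (Real.exp_pos _).ne'

end Pool.Agent.Helper55.PM
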