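import Mathlib
import Pool.Agent.Helper55.PM.PH2

set_option autoImplicit false

open Set Filter Topology MeasureTheory Manifold
open scoped ContDiff

namespace Pool.Agent.Helper55.PM

/-! ### Frames -/

/-- Scaled coordinate vectors. -/
noncomputable def ev (j : Fin 7) (a : ℝ) : E7 := a • EuclideanSpace.single j (1 : ℝ)

lemma ev_apply (j i : Fin 7) (a : ℝ) : ev j a i = if i = j then a else 0 := by
  simp [ev]

lemma li_ev {k : ℕ} (io : Fin k → Fin 7) (hio : Function.Injective io) (a : Fin k → ℝ)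
    (ha : ∀ i, a i ≠ 0) : LinearIndependent ℝ (fun i => ev (io i) (a i)) := by
  rw [Fintype.linearIndependent_iff]
  intro g hg i
  have h1 : (∑ i', g i' • ev (io i') (a i')) (io i) = 0 := by rw [hg]; rfl
  rw [WithLp.ofLp_sum, Finset.sum_apply] at h1
  simp only [PiLp.smul_apply, ev_apply, smul_eq_mul, mul_ite, mul_zero] at h1
  rw [Finset.sum_eq_single i] at h1
  · rw [if_pos rfl] at h1
    exact (mul_eq_zero.1 h1).resolve_right (ha i)
  · intro b _ hb
    rw [if_neg]
    exact fun h => hb (hio h.symm)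
  · intro h; exact absurd (Finset.mem_univ i) h

lemma span_ev {k : ℕ} (io : Fin k → Fin 7) (hio : Function.Injective io) (a : Fin k → ℝ)
    (ha : ∀ i, a i ≠ 0) (v : E7) :
    v ∈ Submodule.span ℝ (range fun i => ev (io i) (a i)) ↔ ∀ j ∉ range io, v j = 0 := by
  constructor
  · intro hv j hj
    induction hv using Submodule.span_induction with
    | mem x hx =>
      obtain ⟨i, rfl⟩ := hx
      rw [ev_apply, if_neg]
      rintro rfl
      exact hj ⟨i, rfl⟩
    | zero => rfl
    | add x y _ _ hx hy => rw [PiLp.add_apply, hx, hy, add_zero]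
    | smul c x _ hx => rw [PiLp.smul_apply, hx, smul_zero]
  · intro hv
    have h1 : v = ∑ i, (v (io i) / a i) • ev (io i) (a i) := by
      ext j
      rw [WithLp.ofLp_sum, Finset.sum_apply]
      simp only [PiLp.smul_apply, ev_apply, smul_eq_mul, mul_ite, mul_zero]
      by_cases hj : j ∈ range io
      · obtain ⟨i, rfl⟩ := hj
        rw [Finset.sum_eq_single i]
        · rw [if_pos rfl, div_mul_cancel₀ _ (ha i)]
        · intro b _ hb
          rw [if_neg]
          exact fun h => hb (hio h.symm)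
        · intro h; exact absurd (Finset.mem_univ i) h
      · rw [hv j hj]
        symm
        apply Finset.sum_eq_zero
        intro i _
        rw [if_neg]
        rintro rfl
        exact hj ⟨i, rfl⟩
    rw [h1]
    exact Submodule.sum_mem _ fun i _ => Submodule.smul_mem _ _ (Submodule.subset_span ⟨i, rfl⟩)

/-- The invariant frame of the covering space. -/
noncomputable def fr (j : Fin 7) (x : E7) : E7 := ev j (Real.exp (mm j * x 2))

lemma fr_equi (j : Fin 7) : ∀ d ∈ DD, ∀ z, fr j (d.1 z + d.2) = d.1 (fr j z) := by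
  rintro _ ⟨c, _, rfl⟩ z
  ext i
  have h2 : (dil (c 2) z + c) 2 = z 2 + c 2 := by simp
  rw [dil_apply, fr, fr, ev_apply, ev_apply, h2]
  split_ifs with h
  · rw [h, ← Real.exp_add]; ring_nf
  · rw [mul_zero]

lemma contDiff_fr (j : Fin 7) : ContDiff ℝ ∞ (fr j) := by
  have h : ContDiff ℝ ∞ (fun x : E7 => x 2) := (contDiff_euclidean.1 contDiff_id) 2
  exact ((contDiff_const.mul h).exp).smul contDiff_const

/-- The frame of the compact manifold. -/
noncomputable def frQ (j : Fin 7) : VField E7 QQ := vf QQ (fr j)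

lemma continuous_frQ (j : Fin 7) : Continuous (sect (frQ j)) :=
  (isAffQuot.isVectorField (fr_equi j) (contDiff_fr j)).continuous

/-- The stable line. -/
def EsS : Submodule ℝ E7 where
  carrier := {v | ∀ j, j ≠ 6 → v j = 0}
  add_mem' := fun ha hb j hj => by rw [PiLp.add_apply, ha j hj, hb j hj, add_zero]
  zero_mem' := fun _ _ => rfl
  smul_mem' := fun c _ ha j hj => by rw [PiLp.smul_apply, ha j hj, smul_zero]

/-- The centre-unstable hyperplane. -/
def EcuS : Submodule ℝ E7 where
  carrier := {v | v 6 = 0}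
  add_mem' := fun {a b} ha hb => by
    have ha' : a 6 = 0 := ha
    have hb' : b 6 = 0 := hb
    show (a + b) 6 = 0
    rw [PiLp.add_apply, ha', hb', add_zero]
  zero_mem' := rfl
  smul_mem' := fun c a ha => by
    have ha' : a 6 = 0 := ha
    show (c • a) 6 = 0
    rw [PiLp.smul_apply, ha', smul_zero]

/-- The stable distribution. -/
def Es : Distr E7 QQ := fun _ => EsS

/-- The centre-unstable distribution. -/
def Ecu : Distr E7 QQ := fun _ => EcuS

lemma mem_Es_ln (x v : E7) : (ln x v : Tan E7 (pr x)) ∈ Es (pr x) ↔ ∀ j, j ≠ 6 → v j = 0 := by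
  obtain ⟨k, hk⟩ := ln_spec x
  rw [hk]
  show (∀ j, j ≠ 6 → dil k v j = 0) ↔ _
  refine forall_congr' fun j => imp_congr_right fun _ => ?_
  rw [dil_apply, mul_eq_zero]
  exact ⟨fun h => h.resolve_left (Real.exp_pos _).ne', Or.inr⟩

lemma mem_Ecu_ln (x v : E7) : (ln x v : Tan E7 (pr x)) ∈ Ecu (pr x) ↔ v 6 = 0 := by
  obtain ⟨k, hk⟩ := ln_spec x
  rw [hk]
  show dil k v 6 = 0 ↔ _
  rw [dil_apply, mul_eq_zero]
  exact ⟨fun h => h.resolve_left (Real.exp_pos _).ne', Or.inr⟩

lemma mem_range_castSucc (j : Fin 7) : j ∉ range (Fin.castSucc : Fin 6 → Fin 7) ↔ j = 6 := by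
  constructor
  · intro h
    by_contra hj
    exact h ⟨j.castPred hj, Fin.castSucc_castPred j hj⟩
  · rintro rfl ⟨i, hi⟩
    exact (Fin.castSucc_lt_last i).ne hi

lemma frame_Es (q : QQ) : LinearIndependent ℝ (fun i : Fin 1 => frQ (![6] i) q) ∧
    Submodule.span ℝ (range fun i : Fin 1 => frQ (![6] i) q) = Es q := by
  have hinj : Function.Injective (![6] : Fin 1 → Fin 7) := by
    intro a b _; exact Subsingleton.elim a b
  refine ⟨li_ev ![6] hinj _ fun i => (Real.exp_pos _).ne', ?_⟩
  refine Submodule.ext fun (v : E7) => ?_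
  refine (span_ev ![6] hinj _ (fun i => (Real.exp_pos _).ne') v).trans ?_
  show _ ↔ ∀ j, j ≠ 6 → v j = 0
  refine forall_congr' fun j => imp_congr_left ?_
  rw [not_iff_not]
  constructor
  · rintro ⟨i, rfl⟩
    fin_cases i
    rfl
  · rintro rfl
    exact ⟨0, rfl⟩

lemma frame_Ecu (q : QQ) : LinearIndependent ℝ (fun i : Fin 6 => frQ (Fin.castSucc i) q) ∧
    Submodule.span ℝ (range fun i : Fin 6 => frQ (Fin.castSucc i) q) = Ecu q := by
  have hinj : Function.Injective (Fin.castSucc : Fin 6 → Fin 7) := Fin.castSucc_injective 6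
  refine ⟨li_ev Fin.castSucc hinj _ fun i => (Real.exp_pos _).ne', ?_⟩
  refine Submodule.ext fun (v : E7) => ?_
  refine (span_ev Fin.castSucc hinj _ (fun i => (Real.exp_pos _).ne') v).trans ?_
  show _ ↔ v 6 = 0
  constructor
  · intro h
    exact h 6 ((mem_range_castSucc 6).2 rfl)
  · intro h j hj
    rw [(mem_range_castSucc j).1 hj]
    exact h

lemma isCompl_EE (q : QQ) : IsCompl (Es q) (Ecu q) := by
  have h : IsCompl EsS EcuS := by
    constructor
    · rw [Submodule.disjoint_def]
      intro v hv hv'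
      ext j
      by_cases hj : j = 6
      · rw [hj]; exact hv'
      · exact hv j hj
    · rw [codisjoint_iff, Submodule.eq_top_iff']
      intro v
      rw [Submodule.mem_sup]
      refine ⟨ev 6 (v 6), ?_, v - ev 6 (v 6), ?_, by abel⟩
      · intro j hj
        rw [ev_apply, if_neg hj]
      · show (v - ev 6 (v 6)) 6 = 0
        rw [PiLp.sub_apply, ev_apply, if_pos rfl, sub_self]
  exact h

lemma isSplitting (U : Set QQ) : IsSplitting U Es Ecu := by
  refine ⟨fun q _ => ⟨1, fun i => frQ (![6] i), univ, univ_mem, fun i =>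
      (continuous_frQ _).continuousOn, fun y _ => frame_Es y⟩,
    fun q _ => ⟨6, fun i => frQ (Fin.castSucc i), univ, univ_mem, fun i =>
      (continuous_frQ _).continuousOn, fun y _ => frame_Ecu y⟩, fun q _ => ⟨isCompl_EE q, ?_, ?_⟩⟩
  · obtain ⟨h1, h2⟩ := frame_Es q
    have h3 := finrank_span_eq_card h1
    rw [h2] at h3
    rw [h3]; simp
  · obtain ⟨h1, h2⟩ := frame_Ecu q
    have h3 := finrank_span_eq_card h1
    rw [h2] at h3
    rw [h3]; simp

/-! ### The trapping region -/

lemma cos6_equi {x y : E7} (h : pr x = pr y) : Real.cos (x 6) = Real.cos (y 6) := by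
  obtain ⟨g, rfl⟩ := (pr_eq_iff x y).1 h
  obtain ⟨a, ha⟩ := (gam_lat g).h6
  rw [gam_apply g y]
  have : (dil ((g • (0 : E7)) 2) y + g • (0 : E7)) 6 = y 6 + a * (2 * Real.pi) := by
    rw [PiLp.add_apply, dil_apply, mm6, ha]; simp
  rw [this, Real.cos_add_int_mul_two_pi]

/-- `cos w` on the compact manifold. -/
noncomputable def cosw (q : QQ) : ℝ :=
  Quotient.lift (fun x : E7 => Real.cos (x 6)) (fun _ _ h => cos6_equi (Quotient.sound h)) q

lemma cosw_pr (x : E7) : cosw (pr x) = Real.cos (x 6) := rfl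

lemma continuous_cosw : Continuous cosw := by
  refine Continuous.quotient_lift ?_ _
  have h : Continuous (fun x : E7 => x 6) := (contDiff_coord 6).continuous
  exact Real.continuous_cos.comp h

/-- The trapping region. -/
def UU : Set QQ := {q | 0 < cosw q}

lemma isOpen_UU : IsOpen UU := isOpen_lt continuous_const continuous_cosw

/-- Lower bound of `cos w` on the image of the trapping region. -/
noncomputable def ct (t : ℝ) : ℝ := (1 - Real.exp (-(KK * t)) ^ 2) / (1 + Real.exp (-(KK * t)) ^ 2)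

lemma ct_pos {t : ℝ} (ht : 0 < t) : 0 < ct t := by
  have h1 : Real.exp (-(KK * t)) < 1 := by
    rw [Real.exp_lt_one_iff, KK]; linarith
  have h2 := Real.exp_pos (-(KK * t))
  unfold ct
  apply div_pos
  · nlinarith
  · positivity

lemma image_UU (t : ℝ) : phi t '' UU ⊆ {q | ct t ≤ cosw q} := by
  rintro _ ⟨q, hq, rfl⟩
  obtain ⟨x, rfl⟩ := surjective_pr q
  have hq' : 0 < Real.cos (x 6) := hq
  show ct t ≤ Real.cos (wf t x)
  rw [cos_wf, ct, div_le_div_iff₀ (by positivity) (qw_pos _ _), qw]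
  have h1 : Real.cos (x 6) = Real.cos (x 6 / 2) ^ 2 - Real.sin (x 6 / 2) ^ 2 := by
    rw [← Real.cos_two_mul']; ring_nf
  rw [h1] at hq'
  have h2 := sq_nonneg (Real.exp (-(KK * t)))
  nlinarith

lemma closure_image_UU (t : ℝ) : closure (phi t '' UU) ⊆ {q | ct t ≤ cosw q} :=
  closure_minimal (image_UU t) (isClosed_le continuous_const continuous_cosw)

lemma isTrapping_UU : IsTrapping phi UU :=
  ⟨isOpen_UU, fun _ ht _ hq => (ct_pos ht).trans_le (closure_image_UU _ hq)⟩

lemma tendsto_ct : Tendsto ct atTop (𝓝 1) := by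
  have h1 : Tendsto (fun t : ℝ => Real.exp (-(KK * t))) atTop (𝓝 0) := by
    have : Tendsto (fun t : ℝ => KK * t) atTop atTop :=
      tendsto_id.const_mul_atTop (by rw [KK]; norm_num)
    exact Real.tendsto_exp_neg_atTop_nhds_zero.comp this
  have h2 : Tendsto (fun t : ℝ => (1 - Real.exp (-(KK * t)) ^ 2) / (1 + Real.exp (-(KK * t)) ^ 2))
      atTop (𝓝 ((1 - 0 ^ 2) / (1 + 0 ^ 2))) :=
    (tendsto_const_nhds.sub (h1.pow 2)).div (tendsto_const_nhds.add (h1.pow 2)) (by norm_num)
  have h3 : ((1 : ℝ) - 0 ^ 2) / (1 + 0 ^ 2) = 1 := by norm_num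
  rw [h3] at h2
  exact h2

lemma attractingSet_sub : attractingSet phi UU ⊆ {q | cosw q = 1} := by
  intro q hq
  have h1 : ∀ t : ℝ, 0 < t → ct t ≤ cosw q := by
    intro t ht
    have := mem_iInter₂.1 hq t ht
    exact closure_image_UU t this
  have h2 : (1 : ℝ) ≤ cosw q := by
    refine le_of_tendsto tendsto_ct ?_
    filter_upwards [eventually_gt_atTop 0] with t ht using h1 t ht
  obtain ⟨x, rfl⟩ := surjective_pr q
  exact le_antisymm (Real.cos_le_one _) h2

lemma lift_attracting {q : QQ} (hq : q ∈ attractingSet phi UU) :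
    ∃ x : E7, pr x = q ∧ Real.sin (x 6 / 2) = 0 := by
  obtain ⟨x, rfl⟩ := surjective_pr q
  refine ⟨x, rfl, ?_⟩
  have h1 : Real.cos (x 6) = 1 := attractingSet_sub hq
  have h2 : Real.cos (x 6) = 1 - 2 * Real.sin (x 6 / 2) ^ 2 := by
    have := Real.cos_two_mul' (x 6 / 2)
    have h3 := Real.sin_sq_add_cos_sq (x 6 / 2)
    rw [show 2 * (x 6 / 2) = x 6 by ring] at this
    linarith
  have h3 : Real.sin (x 6 / 2) ^ 2 = 0 := by linarith
  exact pow_eq_zero_iff two_ne_zero |>.1 h3

end Pool.Agent.Helper55.PM
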