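import Mathlib
import Pool.Agent.Helper55.PM.PH3

set_option autoImplicit false

open Set Filter Topology MeasureTheory Manifold
open scoped ContDiff

namespace Pool.Agent.Helper55.PM

lemma ln_surj (x : E7) (v : E7) : ∃ u : E7, ln x u = v := ⟨(ln x).symm v, by simp⟩

lemma invariant_Es : IsInvariantOn phi (attractingSet phi UU) Es := by
  intro q hq t
  obtain ⟨x, rfl, hx⟩ := lift_attracting hq
  ext v
  constructor
  · rintro ⟨u, hu, rfl⟩
    obtain ⟨u, rfl⟩ := ln_surj x u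
    have hu' := (mem_Es_ln x u).1 hu
    rw [Dflow_ln]
    exact (mem_Es_ln (Phi t x) _).2 fun j hj => Ws_zero t x u hu' j hj
  · intro hv
    obtain ⟨v, rfl⟩ := ln_surj (Phi t x) v
    have hv' := (mem_Es_ln (Phi t x) v).1 hv
    refine ⟨ln x (AA (-t) (Phi t x) v), ?_, ?_⟩
    · exact (mem_Es_ln x _).2 fun j hj => Ws_zero (-t) (Phi t x) v hv' j hj
    · rw [Dflow_ln]
      have := AA_neg' t (Phi t x) v
      rw [Phi_neg] at this
      rw [this]

lemma invariant_Ecu : IsInvariantOn phi (attractingSet phi UU) Ecu := by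
  intro q _ t
  obtain ⟨x, rfl⟩ := surjective_pr q
  ext v
  constructor
  · rintro ⟨u, hu, rfl⟩
    obtain ⟨u, rfl⟩ := ln_surj x u
    have hu' := (mem_Ecu_ln x u).1 hu
    rw [Dflow_ln]
    exact (mem_Ecu_ln (Phi t x) _).2 (W6_zero t x u hu')
  · intro hv
    obtain ⟨v, rfl⟩ := ln_surj (Phi t x) v
    have hv' := (mem_Ecu_ln (Phi t x) v).1 hv
    refine ⟨ln x (AA (-t) (Phi t x) v), ?_, ?_⟩
    · exact (mem_Ecu_ln x _).2 (W6_zero (-t) (Phi t x) v hv')
    · rw [Dflow_ln]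
      have := AA_neg' t (Phi t x) v
      rw [Phi_neg] at this
      rw [this]

lemma gm_stable {x v : E7} (hv : ∀ j, j ≠ 6 → v j = 0) : gm x v v = v 6 ^ 2 := by
  rw [gm_apply, Finset.sum_eq_single 6]
  · simp; ring
  · intro j _ hj
    rw [hv j hj]; ring
  · intro h; exact absurd (Finset.mem_univ _) h

lemma len_stable (t : ℝ) {x u : E7} (hx : Real.sin (x 6 / 2) = 0) (hu : ∀ j, j ≠ 6 → u j = 0) :
    len gQ (phi t (pr x)) (Dflow phi t (pr x) (ln x u)) =
      Real.exp (-(KK * t)) * len gQ (pr x) (ln x u) := by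
  rw [Dflow_ln]
  show len gQ (pr (Phi t x)) (ln (Phi t x) (AA t x u)) = _
  rw [len_ln, len_ln, gm_stable hu, gm_stable (fun j hj => Ws_zero t x u hu j hj),
    W6_fixed t x u hx, Real.sqrt_sq_eq_abs, Real.sqrt_sq_eq_abs, abs_mul, Real.abs_exp]

lemma len_cu (t : ℝ) (ht : 0 ≤ t) {x v : E7} (hv : v 6 = 0) :
    len gQ (phi (-t) (pr x)) (Dflow phi (-t) (pr x) (ln x v)) ≤
      Real.exp (8 * t) * len gQ (pr x) (ln x v) := by
  rw [Dflow_ln]
  show len gQ (pr (Phi (-t) x)) (ln (Phi (-t) x) (AA (-t) x v)) ≤ _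
  rw [len_ln, len_ln, gm_AA, W6_zero (-t) x v hv]
  have h1 := Ncu_bound (-t) x v
  rw [Ncu_zero, hv] at h1
  rw [abs_neg, abs_of_nonneg ht] at h1
  have h2 : (0 : ℝ) ≤ gm x v v := by
    obtain ⟨c, hc, h⟩ := gm_pos x
    exact le_trans (by positivity) (h v)
  apply Real.sqrt_le_iff.2
  refine ⟨by positivity, ?_⟩
  rw [mul_pow, Real.sq_sqrt h2, ← Real.exp_nat_mul]
  have h3 : Real.exp (15 * t) ≤ Real.exp ((2 : ℕ) * (8 * t)) := by
    apply Real.exp_le_exp.2
    push_cast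
    linarith
  calc Ncu (-t) x v + 0 ^ 2 ≤ Real.exp (15 * t) * gm x v v := by
        simpa using h1
    _ ≤ Real.exp ((2 : ℕ) * (8 * t)) * gm x v v := mul_le_mul_of_nonneg_right h3 h2

lemma isDominated : IsDominated gQ phi (attractingSet phi UU) Es Ecu (Real.exp (-1)) := by
  intro q hq t ht
  obtain ⟨x, rfl, hx⟩ := lift_attracting hq
  have hpow : Real.exp (-1) ^ t = Real.exp (-t) := by
    rw [← Real.exp_mul]; ring_nf
  rw [hpow]
  have hlen : ∀ (y : QQ) (w : Tan E7 y), 0 ≤ len gQ y w := fun y w => Real.sqrt_nonneg _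
  constructor
  · intro u hu
    obtain ⟨u, rfl⟩ := ln_surj x u
    have hu' := (mem_Es_ln x u).1 hu
    rw [len_stable t hx hu']
    refine mul_le_mul_of_nonneg_right (Real.exp_le_exp.2 ?_) (hlen _ _)
    rw [KK]; linarith
  · intro u hu v hv
    obtain ⟨u, rfl⟩ := ln_surj x u
    obtain ⟨v, rfl⟩ := ln_surj (Phi t x) v
    have hu' := (mem_Es_ln x u).1 hu
    have hv' := (mem_Ecu_ln (Phi t x) v).1 hv
    rw [len_stable t hx hu']
    have h1 := len_cu t ht (x := Phi t x) hv'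
    calc _ ≤ Real.exp (-(KK * t)) * len gQ (pr x) (ln x u) *
          (Real.exp (8 * t) * len gQ (pr (Phi t x)) (ln (Phi t x) v)) :=
          mul_le_mul_of_nonneg_left h1 (mul_nonneg (Real.exp_pos _).le (hlen _ _))
      _ = Real.exp (-t) * len gQ (pr x) (ln x u) * len gQ (pr (Phi t x)) (ln (Phi t x) v) := by
          have : Real.exp (-(KK * t)) * Real.exp (8 * t) = Real.exp (-t) := by
            rw [← Real.exp_add, KK]; ring_nf
          rw [← this]; ring
      _ = _ := rfl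

lemma isPartiallyHyperbolic : IsPartiallyHyperbolic gQ phi UU Es Ecu :=
  ⟨isSplitting UU, invariant_Es, invariant_Ecu, Real.exp (-1),
    ⟨Real.exp_pos _, Real.exp_lt_one_iff.2 (by norm_num)⟩, isDominated⟩

end Pool.Agent.Helper55.PM
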