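import Mathlib
import Pool.Agent.Helper55.PM.PH4

set_option autoImplicit false

open Set Filter Topology MeasureTheory
open scoped ContDiff

namespace Pool.Agent.Helper55.PM

/-- The time at which `√q = R`. -/
noncomputable def tm (r R : ℝ) : ℝ := (√(R ^ 2 - Real.sin r ^ 2) - Real.cos r) / Real.sin r

section

variable {r : ℝ} (hs : 0 < Real.sin r)
include hs

lemma tm_spec {R : ℝ} (_hR : 1 ≤ R) :
    Real.cos r + tm r R * Real.sin r = √(R ^ 2 - Real.sin r ^ 2) := by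
  rw [tm, div_mul_cancel₀ _ hs.ne']; ring

lemma sq_sub_nonneg {R : ℝ} (hR : 1 ≤ R) : 0 ≤ R ^ 2 - Real.sin r ^ 2 := by
  have := Real.sin_le_one r
  nlinarith

lemma sqrt_qq_tm {R : ℝ} (hR : 1 ≤ R) : √(qq (tm r R) r) = R := by
  rw [qq, tm_spec hs hR, Real.sq_sqrt (sq_sub_nonneg hs hR)]
  rw [sub_add_cancel, Real.sqrt_sq (by linarith)]

lemma sqrt_qq_ge {R t : ℝ} (hR : 1 ≤ R) (ht : tm r R ≤ t) : R ≤ √(qq t r) := by
  apply Real.le_sqrt_of_sq_le
  rw [qq]
  have h1 := tm_spec hs hR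
  have h2 : √(R ^ 2 - Real.sin r ^ 2) ≤ Real.cos r + t * Real.sin r := by
    rw [← h1]; nlinarith
  have h3 := Real.sqrt_nonneg (R ^ 2 - Real.sin r ^ 2)
  have h4 := Real.sq_sqrt (sq_sub_nonneg hs hR)
  nlinarith

lemma sqrt_qq_le {R R' t : ℝ} (hR : 1 ≤ R) (hR' : 1 ≤ R') (ht : tm r R ≤ t) (ht' : t ≤ tm r R') :
    √(qq t r) ≤ R' := by
  apply Real.sqrt_le_iff.2
  refine ⟨by linarith, ?_⟩
  rw [qq]
  have h1 := tm_spec hs hR
  have h1' := tm_spec hs hR'
  have h2 : √(R ^ 2 - Real.sin r ^ 2) ≤ Real.cos r + t * Real.sin r := by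
    rw [← h1]; nlinarith
  have h2' : Real.cos r + t * Real.sin r ≤ √(R' ^ 2 - Real.sin r ^ 2) := by
    rw [← h1']; nlinarith
  have h3 := Real.sqrt_nonneg (R ^ 2 - Real.sin r ^ 2)
  have h4 := Real.sq_sqrt (sq_sub_nonneg hs hR')
  nlinarith

lemma tm_le {R : ℝ} (hR : 1 ≤ R) : tm r R ≤ (R + 1) / Real.sin r := by
  rw [tm]
  apply div_le_div_of_nonneg_right _ hs.le
  have h1 : √(R ^ 2 - Real.sin r ^ 2) ≤ R := by
    apply Real.sqrt_le_iff.2
    exact ⟨by linarith, by nlinarith⟩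
  have := Real.neg_one_le_cos r
  linarith

lemma le_tm {R : ℝ} (hR : 1 ≤ R) : (R - 2) / Real.sin r ≤ tm r R := by
  rw [tm]
  apply div_le_div_of_nonneg_right _ hs.le
  have h1 : R - Real.sin r ≤ √(R ^ 2 - Real.sin r ^ 2) := by
    apply Real.le_sqrt_of_sq_le
    have := Real.sin_le_one r
    nlinarith
  have := Real.cos_le_one r
  have := Real.sin_le_one r
  linarith

lemma tm_mono {R R' : ℝ} (hR : 1 ≤ R) (h : R ≤ R') : tm r R ≤ tm r R' := by
  rw [tm, tm]
  apply div_le_div_of_nonneg_right _ hs.le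
  have : √(R ^ 2 - Real.sin r ^ 2) ≤ √(R' ^ 2 - Real.sin r ^ 2) := by
    apply Real.sqrt_le_sqrt
    nlinarith
  linarith

lemma sqrt_qq_ge' {R t : ℝ} (hR : 1 ≤ R) (ht : tm r R - 1 ≤ t) : R - 2 ≤ √(qq t r) := by
  have h1 := tm_spec hs hR
  have h2 : √(R ^ 2 - Real.sin r ^ 2) - Real.sin r ≤ Real.cos r + t * Real.sin r := by
    rw [← h1]; nlinarith
  have h3 : R - Real.sin r ≤ √(R ^ 2 - Real.sin r ^ 2) := by
    apply Real.le_sqrt_of_sq_le
    have := Real.sin_le_one r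
    nlinarith
  have h4 := Real.sin_le_one r
  have h5 : R - 2 ≤ Real.cos r + t * Real.sin r := by linarith
  have h6 : Real.cos r + t * Real.sin r ≤ √(qq t r) := by
    apply Real.le_sqrt_of_sq_le
    rw [qq]
    nlinarith [sq_nonneg (Real.sin r)]
  linarith

end

lemma one_le_sqrt_qq_bound (t r : ℝ) : √(qq t r) ≤ 1 + |t| := by
  apply Real.sqrt_le_iff.2
  refine ⟨by positivity, ?_⟩
  rw [qq]
  have h1 := Real.sin_sq_add_cos_sq r
  have h2 : t * (Real.sin r * Real.cos r) ≤ |t| := by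
    calc t * (Real.sin r * Real.cos r) ≤ |t * (Real.sin r * Real.cos r)| := le_abs_self _
      _ = |t| * (|Real.sin r| * |Real.cos r|) := by rw [abs_mul, abs_mul]
      _ ≤ |t| * (1 * 1) := by
          gcongr
          · exact Real.abs_sin_le_one r
          · exact Real.abs_cos_le_one r
      _ = |t| := by ring
  have h3 : t ^ 2 * Real.sin r ^ 2 ≤ t ^ 2 := by
    have := sq_nonneg t
    have : Real.sin r ^ 2 ≤ 1 := by nlinarith [sq_nonneg (Real.cos r)]
    nlinarith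
  have h4 : |t| ^ 2 = t ^ 2 := sq_abs t
  nlinarith

/-- Values of `ϑ` at the times `tm`. -/
lemma thf_tm {x : E7} (hs : 0 < Real.sin (x 1)) {th : ℝ} (h : 1 ≤ Real.exp ((th - x 0) / nu)) :
    thf (tm (x 1) (Real.exp ((th - x 0) / nu))) x = th := by
  rw [thf_eq, sqrt_qq_tm hs h, Real.log_exp]
  have : nu ≠ 0 := by rw [nu]; norm_num
  field_simp
  ring

lemma thf_le {x : E7} {t th : ℝ} (h : √(qq t (x 1)) ≤ Real.exp ((th - x 0) / nu)) :
    thf t x ≤ th := by
  rw [thf_eq]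
  have h1 := Real.log_le_log (Real.sqrt_pos.2 (qq_pos t (x 1))) h
  rw [Real.log_exp] at h1
  have hn : 0 < nu := by rw [nu]; norm_num
  have h2 : nu * Real.log √(qq t (x 1)) ≤ nu * ((th - x 0) / nu) :=
    mul_le_mul_of_nonneg_left h1 hn.le
  have h3 : nu * ((th - x 0) / nu) = th - x 0 := by field_simp
  linarith

lemma le_thf {x : E7} {t th : ℝ} (h : Real.exp ((th - x 0) / nu) ≤ √(qq t (x 1))) :
    th ≤ thf t x := by
  rw [thf_eq]
  have h1 := Real.log_le_log (Real.exp_pos _) h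
  rw [Real.log_exp] at h1
  have hn : 0 < nu := by rw [nu]; norm_num
  have h2 : nu * ((th - x 0) / nu) ≤ nu * Real.log √(qq t (x 1)) :=
    mul_le_mul_of_nonneg_left h1 hn.le
  have h3 : nu * ((th - x 0) / nu) = th - x 0 := by field_simp
  linarith

end Pool.Agent.Helper55.PM
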