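import Mathlib
import Pool.Agent.Helper55.PM.ASE1

set_option autoImplicit false

open Set Filter Topology MeasureTheory
open scoped ContDiff

namespace Pool.Agent.Helper55.PM

lemma AA3_eq (t : ℝ) (x w : E7) : AA t x w 3 = Real.exp (mu 0 * tauf t x) * xi 3 t x w := by
  rw [xi, mm3, ← mul_assoc, ← Real.exp_add]; simp

lemma hasDerivAt_AA3 (t : ℝ) (x w : E7) : HasDerivAt (fun t => AA t x w 3)
    (mu 0 * Real.exp (mu 0 * tauf t x) * AA t x w 2) t := by
  have h := hasDerivAt_AA_coord t x w 3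
  rw [dV3, Phi2] at h
  exact h

lemma exp_pi_ge : (16 : ℝ) ≤ Real.exp Real.pi := by
  have h1 : Real.exp 3 ≤ Real.exp Real.pi := Real.exp_le_exp.2 Real.pi_gt_three.le
  have h2 : Real.exp 3 = Real.exp 1 ^ 3 := by rw [← Real.exp_nat_mul]; norm_num
  have h3 := Real.exp_one_gt_d9
  have h4 : (2.7 : ℝ) ^ 3 ≤ Real.exp 1 ^ 3 :=
    pow_le_pow_left₀ (by norm_num) (by linarith) 3
  rw [h2] at h1
  norm_num at h4
  linarith

/-- The point `2πn + θ` expressed through `√q`. -/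
noncomputable def Rn (x : E7) (n : ℕ) (th : ℝ) : ℝ :=
  Real.exp (((2 * Real.pi * n + th) - x 0) / nu)

lemma Rn_add (x : E7) (n : ℕ) (th d : ℝ) : Rn x n (th + d) = Real.exp (6 * d) * Rn x n th := by
  rw [Rn, Rn, ← Real.exp_add, nu]
  congr 1
  ring

lemma cos_shift (n : ℕ) (a : ℝ) : Real.cos (a - 2 * Real.pi * n) = Real.cos a := by
  rw [show a - 2 * Real.pi * n = a - n * (2 * Real.pi) by ring, Real.cos_sub_nat_mul_two_pi]

lemma sin_shift (n : ℕ) (a : ℝ) : Real.sin (a - 2 * Real.pi * n) = Real.sin a := by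
  rw [show a - 2 * Real.pi * n = a - n * (2 * Real.pi) by ring, Real.sin_sub_nat_mul_two_pi]

lemma tauf_le {x : E7} (hs : 0 < Real.sin (x 1)) {t : ℝ} {b : ℝ}
    (h : √(qq t (x 1)) * Real.cos (thf t x) ≤ b) : tauf t x ≤ x 2 + (b + 1) / Real.sin (x 1) := by
  rw [tauf_eq t x hs.ne']
  have := Real.neg_one_le_cos (x 0)
  have : (√(qq t (x 1)) * Real.cos (thf t x) - Real.cos (x 0)) / Real.sin (x 1) ≤
    (b + 1) / Real.sin (x 1) := div_le_div_of_nonneg_right (by linarith) hs.le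
  linarith

lemma le_tauf {x : E7} (hs : 0 < Real.sin (x 1)) {t : ℝ} {b : ℝ}
    (h : b ≤ √(qq t (x 1)) * Real.cos (thf t x)) : x 2 + (b - 1) / Real.sin (x 1) ≤ tauf t x := by
  rw [tauf_eq t x hs.ne']
  have := Real.cos_le_one (x 0)
  have : (b - 1) / Real.sin (x 1) ≤
      (√(qq t (x 1)) * Real.cos (thf t x) - Real.cos (x 0)) / Real.sin (x 1) :=
    div_le_div_of_nonneg_right (by linarith) hs.le
  linarith

lemma core_ineq {x w : E7} (hs : 0 < Real.sin (x 1)) {w₀ : ℝ} (hw₀ : 0 < w₀) (n : ℕ)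
    (hR : 1 ≤ Rn x n (Real.pi / 6))
    (hW : ∀ t, tm (x 1) (Rn x n (Real.pi / 6)) ≤ t → t ≤ tm (x 1) (Rn x n (Real.pi / 2)) →
      w₀ ≤ AA t x w 2) :
    mu 0 * w₀ * Real.exp (mu 0 * (x 2 + (8 * Rn x n (Real.pi / 6) - 2) / Real.sin (x 1))) ≤
      AA (tm (x 1) (Rn x n (Real.pi / 2))) x w 3 - AA (tm (x 1) (Rn x n (Real.pi / 6))) x w 3 := by
  set s := Real.sin (x 1) with hsdef
  set RP := Rn x n (Real.pi / 6) with hRP
  set R2 := Rn x n (Real.pi / 3) with hR2
  set RQ := Rn x n (Real.pi / 2) with hRQ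
  have hpi := Real.pi_pos
  have e2 : R2 = Real.exp Real.pi * RP := by
    rw [hR2, hRP, show Real.pi / 3 = Real.pi / 6 + Real.pi / 6 by ring, Rn_add]
    congr 2; ring
  have eQ : R2 ≤ RQ := by
    rw [hR2, hRQ]; unfold Rn
    apply Real.exp_le_exp.2
    apply div_le_div_of_nonneg_right _ (by rw [nu]; norm_num)
    linarith
  have hE := exp_pi_ge
  have h16 : 16 * RP ≤ R2 := by rw [e2]; nlinarith
  have hR2' : 1 ≤ R2 := by linarith
  have hRQ' : 1 ≤ RQ := by linarith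
  set P := tm (x 1) RP
  set T2 := tm (x 1) R2
  set Q := tm (x 1) RQ
  have hs1 := Real.sin_le_one (x 1)
  have hPT : P ≤ T2 - 1 := by
    have h1 := tm_le hs hR
    have h2 := le_tm hs hR2'
    have h3 : (RP + 1) / s + 1 ≤ (R2 - 2) / s := by
      rw [div_add_one hs.ne']
      apply div_le_div_of_nonneg_right _ hs.le
      linarith
    linarith
  have hTQ : T2 ≤ Q := tm_mono hs hR2' eQ
  set L := x 2 + (8 * RP - 2) / s with hL
  have hd := fun t => hasDerivAt_AA3 t x w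
  have hmu := mu0_pos
  -- lower bound of `τ` on `[T2 - 1, T2]`
  have hτ : ∀ t, T2 - 1 ≤ t → t ≤ T2 → L ≤ tauf t x := by
    intro t ht1 ht2
    have h1 : R2 - 2 ≤ √(qq t (x 1)) := sqrt_qq_ge' hs hR2' ht1
    have h2 : 2 * Real.pi * n + Real.pi / 6 ≤ thf t x :=
      le_thf (sqrt_qq_ge hs hR (hPT.trans ht1))
    have h3 : thf t x ≤ 2 * Real.pi * n + Real.pi / 3 :=
      thf_le (sqrt_qq_le hs hR hR2' (hPT.trans ht1) ht2)
    have h4 : 1 / 2 ≤ Real.cos (thf t x) := by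
      rw [← Real.cos_pi_div_three, ← cos_shift n (thf t x)]
      exact Real.cos_le_cos_of_nonneg_of_le_pi (by linarith) (by linarith) (by linarith)
    have h5 : 8 * RP - 1 ≤ √(qq t (x 1)) * Real.cos (thf t x) := by
      have h6 : (16 * RP - 2) * (1 / 2) ≤ √(qq t (x 1)) * Real.cos (thf t x) :=
        mul_le_mul (by linarith) h4 (by norm_num) (Real.sqrt_nonneg _)
      linarith
    have h7 := le_tauf hs h5
    rw [hL]
    convert h7 using 3
    ring
  -- monotonicity on `[P, Q]`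
  have hmono : MonotoneOn (fun t => AA t x w 3) (Icc P Q) := by
    refine monotoneOn_of_deriv_nonneg (convex_Icc P Q)
      (fun t _ => (hd t).continuousAt.continuousWithinAt)
      (fun t _ => (hd t).differentiableAt.differentiableWithinAt) fun t ht => ?_
    rw [interior_Icc] at ht
    rw [(hd t).deriv]
    have := hW t ht.1.le ht.2.le
    have h1 := Real.exp_pos (mu 0 * tauf t x)
    have h2 : 0 ≤ AA t x w 2 := by linarith
    positivity
  have hmv : mu 0 * w₀ * Real.exp (mu 0 * L) * (T2 - (T2 - 1)) ≤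
      AA T2 x w 3 - AA (T2 - 1) x w 3 := by
    refine Convex.mul_sub_le_image_sub_of_le_deriv (convex_Icc (T2 - 1) T2)
      (f := fun t => AA t x w 3)
      (fun t _ => (hd t).continuousAt.continuousWithinAt)
      (fun t _ => (hd t).differentiableAt.differentiableWithinAt) (fun t ht => ?_)
      _ (left_mem_Icc.2 (by linarith)) _ (right_mem_Icc.2 (by linarith)) (by linarith)
    rw [interior_Icc] at ht
    rw [(hd t).deriv]
    have h1 := hW t (hPT.trans ht.1.le) (ht.2.le.trans hTQ)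
    have h2 := hτ t ht.1.le ht.2.le
    have h3 : Real.exp (mu 0 * L) ≤ Real.exp (mu 0 * tauf t x) :=
      Real.exp_le_exp.2 (mul_le_mul_of_nonneg_left h2 hmu.le)
    calc mu 0 * w₀ * Real.exp (mu 0 * L) = mu 0 * Real.exp (mu 0 * L) * w₀ := by ring
      _ ≤ mu 0 * Real.exp (mu 0 * tauf t x) * AA t x w 2 :=
        mul_le_mul (mul_le_mul_of_nonneg_left h3 hmu.le) h1 hw₀.le (by positivity)
  have h1 : AA P x w 3 ≤ AA (T2 - 1) x w 3 :=
    hmono ⟨le_refl _, by linarith⟩ ⟨hPT, by linarith⟩ hPT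
  have h2 : AA T2 x w 3 ≤ AA Q x w 3 :=
    hmono ⟨by linarith, hTQ⟩ ⟨by linarith, le_refl _⟩ hTQ
  rw [show T2 - (T2 - 1) = 1 by ring, mul_one] at hmv
  linarith

lemma tendsto_Rn (x : E7) (th : ℝ) : Tendsto (fun n : ℕ => Rn x n th) atTop atTop := by
  unfold Rn
  refine Real.tendsto_exp_atTop.comp ?_
  have h1 : Tendsto (fun n : ℕ => (2 * Real.pi) * (n : ℝ)) atTop atTop :=
    tendsto_natCast_atTop_atTop.const_mul_atTop Real.two_pi_pos
  have h2 : Tendsto (fun n : ℕ => 2 * Real.pi * (n : ℝ) + (th - x 0)) atTop atTop :=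
    tendsto_atTop_add_const_right _ _ h1
  have h3 : Tendsto (fun n : ℕ => (2 * Real.pi * (n : ℝ) + (th - x 0)) / nu) atTop atTop :=
    h2.atTop_div_const (by rw [nu]; norm_num)
  refine h3.congr fun n => ?_
  rw [add_sub_assoc]

/-- The growth rate. -/
noncomputable def c1 : ℝ := mu 0 * Real.exp (-(2 * Real.pi))

lemma c1_pos : 0 < c1 := mul_pos mu0_pos (Real.exp_pos _)

lemma c1_le : c1 ≤ mu 0 := by
  rw [c1]
  have h1 : Real.exp (-(2 * Real.pi)) ≤ 1 := by
    rw [Real.exp_le_one_iff]; have := Real.pi_pos; linarith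
  have := mu0_pos
  nlinarith

lemma growthA_pos {x w : E7} (hs : 0 < Real.sin (x 1)) {w₀ : ℝ} (hw₀ : 0 < w₀)
    (hW : ∀ᶠ n : ℕ in atTop, ∀ t, tm (x 1) (Rn x n (Real.pi / 6)) ≤ t →
      t ≤ tm (x 1) (Rn x n (Real.pi / 2)) → w₀ ≤ AA t x w 2) (T₀ : ℝ) :
    ∃ T, T₀ ≤ T ∧ Real.exp (c1 * T) ≤ |xi 3 T x w| := by
  by_contra hcon
  push Not at hcon
  have hmu := mu0_pos
  have hR := tendsto_Rn x (Real.pi / 6)
  have hbig : Tendsto (fun n : ℕ => mu 0 * w₀ * Real.exp (mu 0 *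
      ((6 * Rn x n (Real.pi / 6) - 4) / Real.sin (x 1)))) atTop atTop := by
    have h1 : Tendsto (fun n : ℕ => 6 * Rn x n (Real.pi / 6) + -4) atTop atTop :=
      tendsto_atTop_add_const_right _ _ (hR.const_mul_atTop (by norm_num))
    have h2 : Tendsto (fun n : ℕ => mu 0 * ((6 * Rn x n (Real.pi / 6) + -4) / Real.sin (x 1)))
        atTop atTop := (h1.atTop_div_const hs).const_mul_atTop hmu
    exact (Real.tendsto_exp_atTop.comp h2).const_mul_atTop (mul_pos hmu hw₀)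
  obtain ⟨n, h1, h2, h3, h4⟩ := ((hR.eventually_ge_atTop 1).and
    ((hR.eventually_ge_atTop (T₀ * Real.sin (x 1) + 2)).and
      ((hbig.eventually_gt_atTop 2).and hW))).exists
  set s := Real.sin (x 1) with hsdef
  set RP := Rn x n (Real.pi / 6) with hRP
  set RQ := Rn x n (Real.pi / 2) with hRQ
  have hpi := Real.pi_pos
  have eQ : RQ = Real.exp (2 * Real.pi) * RP := by
    rw [hRQ, hRP, show Real.pi / 2 = Real.pi / 6 + Real.pi / 3 by ring, Rn_add]
    congr 2; ring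
  have hPQ : RP ≤ RQ := by
    rw [eQ]
    have : 1 ≤ Real.exp (2 * Real.pi) := Real.one_le_exp (by positivity)
    nlinarith
  have hRQ' : 1 ≤ RQ := by linarith
  have hcore := core_ineq hs hw₀ n h1 h4
  rw [← hRP, ← hRQ] at hcore
  set P := tm (x 1) RP with hP
  set Q := tm (x 1) RQ with hQ
  have hT0P : T₀ ≤ P := by
    have := le_tm hs h1
    refine le_trans ?_ this
    rw [le_div_iff₀ hs]; linarith
  have hPQ' : P ≤ Q := tm_mono hs h1 hPQ
  have hFP := hcon P hT0P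
  have hFQ := hcon Q (hT0P.trans hPQ')
  -- bounds of `τ` at the end points
  have hτP : tauf P x ≤ x 2 + (RP + 1) / s := by
    refine tauf_le hs ?_
    rw [hP, sqrt_qq_tm hs h1]
    have := Real.cos_le_one (thf (tm (x 1) RP) x)
    nlinarith
  have hτQ : tauf Q x ≤ x 2 + (0 + 1) / s := by
    refine tauf_le hs ?_
    have h5 : thf Q x = 2 * Real.pi * n + Real.pi / 2 := thf_tm hs hRQ'
    rw [h5, ← cos_shift n, show 2 * Real.pi * (n : ℝ) + Real.pi / 2 - 2 * Real.pi * n =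
      Real.pi / 2 by ring, Real.cos_pi_div_two, mul_zero]
  have hc := c1_pos
  have hc' := c1_le
  -- bounds of the times
  have hcP : c1 * P ≤ mu 0 * ((RP + 1) / s) := by
    have h5 := tm_le hs h1
    have h6 : 0 ≤ (RP + 1) / s := by positivity
    calc c1 * P ≤ c1 * ((RP + 1) / s) := mul_le_mul_of_nonneg_left h5 hc.le
      _ ≤ mu 0 * ((RP + 1) / s) := mul_le_mul_of_nonneg_right hc' h6
  have hcQ : c1 * Q ≤ mu 0 * ((RP + 1) / s) := by
    have h5 := tm_le hs hRQ'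
    have h6 : c1 * (RQ + 1) ≤ mu 0 * (RP + 1) := by
      have h7 : c1 * RQ = mu 0 * RP := by
        rw [eQ, c1]
        have : Real.exp (-(2 * Real.pi)) * Real.exp (2 * Real.pi) = 1 := by
          rw [← Real.exp_add]; simp
        linear_combination (mu 0 * RP) * this
      linarith
    calc c1 * Q ≤ c1 * ((RQ + 1) / s) := mul_le_mul_of_nonneg_left h5 hc.le
      _ = c1 * (RQ + 1) / s := by ring
      _ ≤ mu 0 * (RP + 1) / s := div_le_div_of_nonneg_right h6 hs.le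
      _ = mu 0 * ((RP + 1) / s) := by ring
  set Z := Real.exp (mu 0 * (x 2 + 2 * ((RP + 1) / s))) with hZ
  have hs1 : s ≤ 1 := Real.sin_le_one _
  have habs : ∀ T b, tauf T x ≤ x 2 + b → b ≤ (RP + 1) / s → c1 * T ≤ mu 0 * ((RP + 1) / s) →
      |xi 3 T x w| < Real.exp (c1 * T) → |AA T x w 3| ≤ Z := by
    intro T b h5 h6 h7 h8
    rw [AA3_eq, abs_mul, Real.abs_exp]
    calc Real.exp (mu 0 * tauf T x) * |xi 3 T x w|
        ≤ Real.exp (mu 0 * (x 2 + (RP + 1) / s)) * Real.exp (mu 0 * ((RP + 1) / s)) := by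
          refine mul_le_mul (Real.exp_le_exp.2 (mul_le_mul_of_nonneg_left (by linarith) hmu.le))
            (h8.le.trans (Real.exp_le_exp.2 h7)) (abs_nonneg _) (Real.exp_pos _).le
      _ = Z := by rw [hZ, ← Real.exp_add]; congr 1; ring
  have hbP : |AA P x w 3| ≤ Z := habs P _ hτP le_rfl hcP hFP
  have hbQ : |AA Q x w 3| ≤ Z := by
    refine habs Q _ hτQ ?_ hcQ hFQ
    exact div_le_div_of_nonneg_right (by linarith) hs.le
  have hfin : mu 0 * w₀ * Real.exp (mu 0 * (x 2 + (8 * RP - 2) / s)) ≤ 2 * Z := by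
    have h5 := abs_le.1 hbP
    have h6 := abs_le.1 hbQ
    linarith
  have hfac : Real.exp (mu 0 * (x 2 + (8 * RP - 2) / s)) =
      Real.exp (mu 0 * ((6 * RP - 4) / s)) * Z := by
    rw [hZ, ← Real.exp_add]
    congr 1
    field_simp
    ring
  rw [hfac, ← mul_assoc] at hfin
  have h9 := le_of_mul_le_mul_right hfin (Real.exp_pos _)
  linarith

lemma xi_neg (j : Fin 7) (T : ℝ) (x w : E7) : xi j T x (-w) = -xi j T x w := by
  simp [xi]

lemma growthA {x w : E7} (hs : 0 < Real.sin (x 1)) (hw1 : w 1 = 0) (hw : w 0 ≠ 0 ∨ w 2 ≠ 0)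
    (T₀ : ℝ) : ∃ T, T₀ ≤ T ∧ Real.exp (c1 * T) ≤ |xi 3 T x w| := by
  -- it suffices to treat one sign
  have key : ∀ w : E7, w 1 = 0 → (w 0 < 0 ∨ (w 0 = 0 ∧ 0 < w 2)) →
      ∃ T, T₀ ≤ T ∧ Real.exp (c1 * T) ≤ |xi 3 T x w| := by
    intro w hw1 hw
    rcases hw with h0 | ⟨h0, h2⟩
    · -- `w 0 < 0`
      refine growthA_pos hs (w₀ := 1) one_pos ?_ T₀
      have hR := tendsto_Rn x (Real.pi / 6)
      filter_upwards [hR.eventually_ge_atTop 1, hR.eventually_ge_atTop
        (2 * (1 + (1 + |w 2|) * Real.sin (x 1) / -(w 0)))] with n hn1 hn2 t ht1 ht2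
      have hpi := Real.pi_pos
      have hPQ : Rn x n (Real.pi / 6) ≤ Rn x n (Real.pi / 2) := by
        unfold Rn
        apply Real.exp_le_exp.2
        apply div_le_div_of_nonneg_right _ (by rw [nu]; norm_num)
        linarith
      have h1 := sqrt_qq_ge hs hn1 ht1
      have h3 : 2 * Real.pi * n + Real.pi / 6 ≤ thf t x := le_thf h1
      have h4 : thf t x ≤ 2 * Real.pi * n + Real.pi / 2 :=
        thf_le (sqrt_qq_le hs hn1 (hn1.trans hPQ) ht1 ht2)
      have h5 : 1 / 2 ≤ Real.sin (thf t x) := by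
        rw [← Real.sin_pi_div_six, ← sin_shift n (thf t x)]
        exact Real.sin_le_sin_of_le_of_le_pi_div_two (by linarith) (by linarith) (by linarith)
      rw [W2_eq t x w hw1 hs.ne']
      have h6 : Rn x n (Real.pi / 6) * (1 / 2) ≤ √(qq t (x 1)) * Real.sin (thf t x) :=
        mul_le_mul h1 h5 (by norm_num) (Real.sqrt_nonneg _)
      have h7 := Real.sin_le_one (x 0)
      have h8 : (1 + |w 2|) * Real.sin (x 1) / -(w 0) ≤
          √(qq t (x 1)) * Real.sin (thf t x) - Real.sin (x 0) := by linarith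
      have h9 : (1 + |w 2|) ≤ -(w 0) * (√(qq t (x 1)) * Real.sin (thf t x) - Real.sin (x 0)) /
          Real.sin (x 1) := by
        rw [le_div_iff₀ hs]
        rw [div_le_iff₀ (by linarith)] at h8
        linarith
      have h10 := neg_abs_le (w 2)
      have h11 : w 0 * (√(qq t (x 1)) * Real.sin (thf t x) - Real.sin (x 0)) / Real.sin (x 1) =
        -(-(w 0) * (√(qq t (x 1)) * Real.sin (thf t x) - Real.sin (x 0)) / Real.sin (x 1)) := by
        ring
      rw [h11]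
      linarith
    · refine growthA_pos hs h2 (Eventually.of_forall fun n t _ _ => ?_) T₀
      rw [W2_eq t x w hw1 hs.ne', h0]
      simp
  rcases lt_trichotomy (w 0) 0 with h0 | h0 | h0
  · exact key w hw1 (Or.inl h0)
  · have h2 : w 2 ≠ 0 := hw.resolve_left (fun h => h h0)
    rcases lt_or_gt_of_ne h2 with h2 | h2
    · obtain ⟨T, hT, hT'⟩ := key (-w) (by simp [hw1]) (Or.inr ⟨by simp [h0], by simpa using h2⟩)
      rw [xi_neg, abs_neg] at hT'
      exact ⟨T, hT, hT'⟩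
    · exact key w hw1 (Or.inr ⟨h0, h2⟩)
  · obtain ⟨T, hT, hT'⟩ := key (-w) (by simp [hw1]) (Or.inl (by simpa using h0))
    rw [xi_neg, abs_neg] at hT'
    exact ⟨T, hT, hT'⟩

end Pool.Agent.Helper55.PM
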