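import Mathlib
import Pool.Agent.Helper55.PM.ASE2

set_option autoImplicit false

open Set Filter Topology MeasureTheory
open scoped ContDiff

namespace Pool.Agent.Helper55.PM

lemma growthB_aux {x : E7} (hs : 0 < Real.sin (x 1)) (T₀ : ℝ) :
    (∃ T, T₀ ≤ T ∧ T / 2 ≤ tauf T x) ∧ (∃ T, T₀ ≤ T ∧ tauf T x ≤ -(T / 2)) := by
  set s := Real.sin (x 1) with hsdef
  set B := max T₀ (2 * (2 / s + |x 2|)) with hB
  have hcos := Real.cos_le_one (x 0)
  have hcos' := Real.neg_one_le_cos (x 0)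
  constructor
  · obtain ⟨n, h1, h2⟩ := (((tendsto_Rn x 0).eventually_ge_atTop 1).and
      ((tendsto_Rn x 0).eventually_ge_atTop (B * s + 2))).exists
    set R := Rn x n 0 with hR
    have hT := le_tm hs h1
    have hT' := tm_le hs h1
    have hBT : B ≤ tm (x 1) R := by
      refine le_trans ?_ hT
      rw [le_div_iff₀ hs]; linarith
    refine ⟨tm (x 1) R, (le_max_left _ _).trans hBT, ?_⟩
    have h3 : thf (tm (x 1) R) x = 2 * Real.pi * n + 0 := thf_tm hs h1
    have h4 : x 2 + (R - 1) / s ≤ tauf (tm (x 1) R) x := by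
      refine le_tauf hs ?_
      rw [hR, sqrt_qq_tm hs h1, ← hR, h3, ← cos_shift n]
      simp
    have h5 : (R - 1) / s = (R + 1) / s - 2 / s := by ring
    have h6 : 2 * (2 / s + |x 2|) ≤ tm (x 1) R := (le_max_right _ _).trans hBT
    have h7 := neg_abs_le (x 2)
    rw [h5] at h4
    linarith
  · obtain ⟨n, h1, h2⟩ := (((tendsto_Rn x Real.pi).eventually_ge_atTop 1).and
      ((tendsto_Rn x Real.pi).eventually_ge_atTop (B * s + 2))).exists
    set R := Rn x n Real.pi with hR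
    have hT := le_tm hs h1
    have hT' := tm_le hs h1
    have hBT : B ≤ tm (x 1) R := by
      refine le_trans ?_ hT
      rw [le_div_iff₀ hs]; linarith
    refine ⟨tm (x 1) R, (le_max_left _ _).trans hBT, ?_⟩
    have h3 : thf (tm (x 1) R) x = 2 * Real.pi * n + Real.pi := thf_tm hs h1
    have h4 : tauf (tm (x 1) R) x ≤ x 2 + (-R + 1) / s := by
      refine tauf_le hs ?_
      rw [hR, sqrt_qq_tm hs h1, ← hR, h3, ← cos_shift n]
      simp
    have h5 : (-R + 1) / s = -((R + 1) / s) + 2 / s := by ring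
    have h6 : 2 * (2 / s + |x 2|) ≤ tm (x 1) R := (le_max_right _ _).trans hBT
    have h7 := le_abs_self (x 2)
    rw [h5] at h4
    linarith

lemma growthB {x : E7} (hs : 0 < Real.sin (x 1)) (m T₀ : ℝ) :
    ∃ T, T₀ ≤ T ∧ Real.exp (|m| / 2 * T) ≤ Real.exp (m * tauf T x) := by
  rcases le_total 0 m with hm | hm
  · obtain ⟨T, hT, hT'⟩ := (growthB_aux hs T₀).1
    refine ⟨T, hT, Real.exp_le_exp.2 ?_⟩
    rw [abs_of_nonneg hm]
    nlinarith
  · obtain ⟨T, hT, hT'⟩ := (growthB_aux hs T₀).2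
    refine ⟨T, hT, Real.exp_le_exp.2 ?_⟩
    rw [abs_of_nonpos hm]
    nlinarith

/-- The uniform rate. -/
noncomputable def c2 : ℝ := min (min c1 (|mu 0| / 2)) (min (|mu 1| / 2) (|mu 2| / 2))

lemma c2_pos : 0 < c2 := by
  have h0 := abs_pos.2 (mu_ne 0)
  have h1 := abs_pos.2 (mu_ne 1)
  have h2 := abs_pos.2 (mu_ne 2)
  exact lt_min (lt_min c1_pos (by linarith)) (lt_min (by linarith) (by linarith))

lemma c2_le_c1 : c2 ≤ c1 := (min_le_left _ _).trans (min_le_left _ _)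

lemma c2_le (i : Fin 3) : c2 ≤ |mu i| / 2 := by
  fin_cases i
  · exact (min_le_left _ _).trans (min_le_right _ _)
  · exact (min_le_right _ _).trans (min_le_left _ _)
  · exact (min_le_right _ _).trans (min_le_right _ _)

lemma AA3_const {t : ℝ} {x w : E7} (hs : 0 < Real.sin (x 1)) (h1 : w 1 = 0) (h0 : w 0 = 0)
    (h2 : w 2 = 0) : AA t x w 3 = w 3 := by
  have h := const_of_deriv (fun t => by
    have h := hasDerivAt_AA3 t x w
    rw [W2_eq t x w h1 hs.ne', h0, h2] at h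
    simpa using h) t
  rw [h, AA_zero]

lemma growthG {x w : E7} (hs : 0 < Real.sin (x 1)) (hw1 : w 1 = 0) (hw6 : w 6 = 0) (hw : w ≠ 0) :
    ∃ j, ∃ K > 0, ∀ T₀, ∃ T, T₀ ≤ T ∧ 0 ≤ T ∧ K * Real.exp (c2 * T) ≤ |xi j T x w| := by
  by_cases h : w 0 ≠ 0 ∨ w 2 ≠ 0
  · refine ⟨3, 1, one_pos, fun T₀ => ?_⟩
    obtain ⟨T, hT, hT'⟩ := growthA hs hw1 h (max T₀ 0)
    have hT0 : 0 ≤ T := (le_max_right _ _).trans hT
    refine ⟨T, (le_max_left _ _).trans hT, hT0, ?_⟩
    rw [one_mul]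
    exact (Real.exp_le_exp.2 (mul_le_mul_of_nonneg_right c2_le_c1 hT0)).trans hT'
  · push Not at h
    obtain ⟨h0, h2⟩ := h
    have hex : w 3 ≠ 0 ∨ w 4 ≠ 0 ∨ w 5 ≠ 0 := by
      by_contra hcon
      push Not at hcon
      apply hw
      ext j
      fin_cases j
      · exact h0
      · exact hw1
      · exact h2
      · exact hcon.1
      · exact hcon.2.1
      · exact hcon.2.2
      · exact hw6
    have key : ∀ (i : Fin 3) (j : Fin 7), mm j = mu i → w j ≠ 0 → (∀ t, AA t x w j = w j) →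
        ∃ j, ∃ K > 0, ∀ T₀, ∃ T, T₀ ≤ T ∧ 0 ≤ T ∧ K * Real.exp (c2 * T) ≤ |xi j T x w| := by
      intro i j hm hj hAA
      refine ⟨j, |w j|, abs_pos.2 hj, fun T₀ => ?_⟩
      obtain ⟨T, hT, hT'⟩ := growthB hs (-(mu i)) (max T₀ 0)
      have hT0 : 0 ≤ T := (le_max_right _ _).trans hT
      refine ⟨T, (le_max_left _ _).trans hT, hT0, ?_⟩
      rw [xi, hAA, abs_mul, Real.abs_exp, mul_comm, hm]
      refine mul_le_mul_of_nonneg_right ?_ (abs_nonneg _)
      rw [abs_neg] at hT'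
      have h3 : Real.exp (c2 * T) ≤ Real.exp (|mu i| / 2 * T) :=
        Real.exp_le_exp.2 (mul_le_mul_of_nonneg_right (c2_le i) hT0)
      refine h3.trans (hT'.trans ?_)
      rw [neg_mul]
    rcases hex with h3 | h4 | h5
    · exact key 0 3 rfl h3 fun t => AA3_const hs hw1 h0 h2
    · exact key 1 4 rfl h4 fun t => W4_eq t x w
    · exact key 2 5 rfl h5 fun t => W5_eq t x w

/-! ### Areas -/

lemma gm_xi (t : ℝ) (x u v : E7) :
    gm (Phi t x) (AA t x u) (AA t x v) = ∑ j, xi j t x u * xi j t x v := by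
  rw [gm_apply, Phi2]
  refine Finset.sum_congr rfl fun j _ => ?_
  rw [xi, xi]
  have : Real.exp (-(2 * (mm j * tauf t x))) =
      Real.exp (-(mm j * tauf t x)) * Real.exp (-(mm j * tauf t x)) := by
    rw [← Real.exp_add]; ring_nf
  rw [this]; ring

lemma lagrange (a b : Fin 7 → ℝ) : ∑ k, ∑ l, (a k * b l - a l * b k) ^ 2 =
    2 * ((∑ k, a k * a k) * (∑ k, b k * b k) - (∑ k, a k * b k) ^ 2) := by
  have h1 : ∀ k l, (a k * b l - a l * b k) ^ 2 =
      (a k * a k) * (b l * b l) + (b k * b k) * (a l * a l) - 2 * ((a k * b k) * (a l * b l)) := by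
    intro k l; ring
  simp only [h1, Finset.sum_add_distrib, Finset.sum_sub_distrib, ← Finset.mul_sum,
    ← Finset.sum_mul]
  ring

lemma minor_le (a b : Fin 7 → ℝ) (i j : Fin 7) : (a i * b j - a j * b i) ^ 2 ≤
    (∑ k, a k * a k) * (∑ k, b k * b k) - (∑ k, a k * b k) ^ 2 := by
  have h1 := lagrange a b
  have h0 : ∀ k l, 0 ≤ (a k * b l - a l * b k) ^ 2 := fun k l => sq_nonneg _
  by_cases hij : i = j
  · rw [hij]
    have : 0 ≤ ∑ k, ∑ l, (a k * b l - a l * b k) ^ 2 :=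
      Finset.sum_nonneg fun k _ => Finset.sum_nonneg fun l _ => h0 k l
    rw [h1] at this
    simp only [sub_self]
    nlinarith
  · have h2 : (a i * b j - a j * b i) ^ 2 ≤ ∑ l, (a i * b l - a l * b i) ^ 2 :=
      Finset.single_le_sum (f := fun l => (a i * b l - a l * b i) ^ 2) (fun l _ => h0 i l)
        (Finset.mem_univ j)
    have h3 : (a j * b i - a i * b j) ^ 2 ≤ ∑ l, (a j * b l - a l * b j) ^ 2 :=
      Finset.single_le_sum (f := fun l => (a j * b l - a l * b j) ^ 2) (fun l _ => h0 j l)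
        (Finset.mem_univ i)
    have h4 : (∑ l, (a i * b l - a l * b i) ^ 2) + (∑ l, (a j * b l - a l * b j) ^ 2) ≤
        ∑ k, ∑ l, (a k * b l - a l * b k) ^ 2 := by
      have := Finset.add_le_sum (f := fun k => ∑ l, (a k * b l - a l * b k) ^ 2)
        (s := Finset.univ) (fun k _ => Finset.sum_nonneg fun l _ => h0 k l)
        (Finset.mem_univ i) (Finset.mem_univ j) hij
      exact this
    rw [h1] at h4
    have h5 : (a j * b i - a i * b j) ^ 2 = (a i * b j - a j * b i) ^ 2 := by ring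
    rw [h5] at h3
    linarith

end Pool.Agent.Helper55.PM
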