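import Mathlib
import Pool.Agent.Helper55.PM.ASE3

set_option autoImplicit false

open Set Filter Topology MeasureTheory Manifold
open scoped ContDiff

namespace Pool.Agent.Helper55.PM

/-- The squared area of the transported parallelogram. -/
noncomputable def ar2 (t : ℝ) (x u v : E7) : ℝ :=
  gm (Phi t x) (AA t x u) (AA t x u) * gm (Phi t x) (AA t x v) (AA t x v) -
    gm (Phi t x) (AA t x u) (AA t x v) ^ 2

lemma minor_ar2 (t : ℝ) (x u v : E7) (i j : Fin 7) :
    (xi i t x u * xi j t x v - xi j t x u * xi i t x v) ^ 2 ≤ ar2 t x u v := by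
  rw [ar2, gm_xi, gm_xi, gm_xi]
  exact minor_le (fun j => xi j t x u) (fun j => xi j t x v) i j

lemma abs_minor_le (t : ℝ) (x u v : E7) (i j : Fin 7) :
    |xi i t x u * xi j t x v - xi j t x u * xi i t x v| ≤ √(ar2 t x u v) :=
  Real.abs_le_sqrt (minor_ar2 t x u v i j)

lemma xi_comb (j : Fin 7) (t : ℝ) (x u v : E7) (a b : ℝ) :
    xi j t x (a • v - b • u) = a * xi j t x v - b * xi j t x u := by
  simp only [xi, map_sub, map_smul, PiLp.sub_apply, PiLp.smul_apply, smul_eq_mul]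
  ring

lemma pair_ne {u v : E7} (h : LinearIndependent ℝ ![u, v]) {a b : ℝ} (hab : a ≠ 0 ∨ b ≠ 0) :
    a • v - b • u ≠ 0 := by
  intro h0
  have h1 := LinearIndependent.pair_iff.1 h (-b) a (by rw [← h0]; module)
  rcases hab with ha | hb
  · exact ha h1.2
  · exact hb (by linarith [h1.1])

lemma exists_minor {u v : E7} (h : LinearIndependent ℝ ![u, v]) :
    ∃ i j, u i * v j - u j * v i ≠ 0 := by
  by_contra hcon
  push Not at hcon
  have hu : u ≠ 0 := h.ne_zero 0
  obtain ⟨i, hi⟩ : ∃ i, u i ≠ 0 := by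
    by_contra hc
    push Not at hc
    exact hu (by ext j; exact hc j)
  refine pair_ne h (a := u i) (b := v i) (Or.inl hi) ?_
  ext j
  simp only [PiLp.sub_apply, PiLp.smul_apply, smul_eq_mul, PiLp.zero_apply]
  have := hcon i j
  linarith

lemma growth_area {x u v : E7} (hs : 0 < Real.sin (x 1)) (hu6 : u 6 = 0) (hv6 : v 6 = 0)
    (h : LinearIndependent ℝ ![u, v]) : ∃ K > 0, ∀ T₀, ∃ T, T₀ ≤ T ∧ 0 ≤ T ∧
      K * Real.exp (c2 * T) ≤ (1 + qq T (x 1)) * √(ar2 T x u v) := by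
  -- a generic step: the coordinate `i` of both vectors is transported by a common factor
  have step : ∀ (i : Fin 7) (φ : ℝ → ℝ), (∀ t, xi i t x u = φ t * u i) →
      (∀ t, xi i t x v = φ t * v i) → (∀ t, 1 ≤ (1 + qq t (x 1)) * |φ t|) →
      (u i ≠ 0 ∨ v i ≠ 0) → (u i • v - v i • u) 1 = 0 →
      ∃ K > 0, ∀ T₀, ∃ T, T₀ ≤ T ∧ 0 ≤ T ∧
        K * Real.exp (c2 * T) ≤ (1 + qq T (x 1)) * √(ar2 T x u v) := by
    intro i φ h1 h2 h3 h4 h5
    obtain ⟨j, K, hK, hg⟩ := growthG hs h5 (by simp [hu6, hv6]) (pair_ne h h4)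
    refine ⟨K, hK, fun T₀ => ?_⟩
    obtain ⟨T, hT, hT0, hT'⟩ := hg T₀
    refine ⟨T, hT, hT0, ?_⟩
    have h6 := abs_minor_le T x u v i j
    rw [h1, h2] at h6
    have h7 : φ T * u i * xi j T x v - xi j T x u * (φ T * v i) =
        φ T * xi j T x (u i • v - v i • u) := by
      rw [xi_comb]; ring
    rw [h7, abs_mul] at h6
    have h8 := h3 T
    have h9 := qq_pos T (x 1)
    calc K * Real.exp (c2 * T) ≤ |xi j T x (u i • v - v i • u)| := hT'
      _ = 1 * |xi j T x (u i • v - v i • u)| := (one_mul _).symm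
      _ ≤ ((1 + qq T (x 1)) * |φ T|) * |xi j T x (u i • v - v i • u)| :=
          mul_le_mul_of_nonneg_right h8 (abs_nonneg _)
      _ = (1 + qq T (x 1)) * (|φ T| * |xi j T x (u i • v - v i • u)|) := by ring
      _ ≤ (1 + qq T (x 1)) * √(ar2 T x u v) := mul_le_mul_of_nonneg_left h6 (by linarith)
  by_cases c1' : u 1 ≠ 0 ∨ v 1 ≠ 0
  · refine step 1 (fun t => 1 / qq t (x 1)) (fun t => ?_) (fun t => ?_) (fun t => ?_) c1' ?_
    · rw [xi, W1_eq']; simp; ring
    · rw [xi, W1_eq']; simp; ring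
    · have := qq_pos t (x 1)
      rw [abs_of_pos (by positivity), mul_one_div, le_div_iff₀ this]
      linarith
    · simp; ring
  push Not at c1'
  by_cases c0' : u 0 ≠ 0 ∨ v 0 ≠ 0
  · refine step 0 (fun _ => 1) (fun t => ?_) (fun t => ?_) (fun t => ?_) c0' ?_
    · rw [xi, W0_eq t x u c1'.1]; simp
    · rw [xi, W0_eq t x v c1'.2]; simp
    · have := qq_pos t (x 1)
      rw [abs_one]; linarith
    · simp [c1'.1, c1'.2]
  push Not at c0'
  by_cases c2' : u 2 ≠ 0 ∨ v 2 ≠ 0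
  · refine step 2 (fun _ => 1) (fun t => ?_) (fun t => ?_) (fun t => ?_) c2' ?_
    · rw [xi, W2_eq t x u c1'.1 hs.ne', c0'.1]; simp
    · rw [xi, W2_eq t x v c1'.2 hs.ne', c0'.2]; simp
    · have := qq_pos t (x 1)
      rw [abs_one]; linarith
    · simp [c1'.1, c1'.2]
  push Not at c2'
  obtain ⟨i, j, hij⟩ := exists_minor h
  -- the vectors are vertical
  have hxi : ∀ (w : E7), w 1 = 0 → w 0 = 0 → w 2 = 0 → w 6 = 0 →
      ∀ (j : Fin 7) t, xi j t x w = Real.exp (-(mm j * tauf t x)) * w j := by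
    intro w h1 h0 h2 h6 j t
    rw [xi]
    congr 1
    fin_cases j
    · exact W0_eq t x w h1
    · show AA t x w 1 = w 1
      rw [W1_eq', h1]; simp
    · show AA t x w 2 = w 2
      rw [W2_eq t x w h1 hs.ne', h0]; simp
    · exact AA3_const hs h1 h0 h2
    · exact W4_eq t x w
    · exact W5_eq t x w
    · show AA t x w 6 = w 6
      rw [W6_zero t x w h6, h6]
  -- the third exponent
  have hk : ∃ k : Fin 3, mm i + mm j = -mu k := by
    have hsum := mu_sum
    have hz : ∀ i : Fin 7, (i = 0 ∨ i = 1 ∨ i = 2 ∨ i = 6) → u i = 0 ∧ v i = 0 := by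
      rintro i (rfl | rfl | rfl | rfl)
      · exact c0'
      · exact c1'
      · exact c2'
      · exact ⟨hu6, hv6⟩
    have hi : ¬ (i = 0 ∨ i = 1 ∨ i = 2 ∨ i = 6) := by
      intro hi
      apply hij
      rw [(hz i hi).1, (hz i hi).2]; ring
    have hj : ¬ (j = 0 ∨ j = 1 ∨ j = 2 ∨ j = 6) := by
      intro hj
      apply hij
      rw [(hz j hj).1, (hz j hj).2]; ring
    have hne : i ≠ j := by
      rintro rfl
      apply hij; ring
    have hi' : i = 3 ∨ i = 4 ∨ i = 5 := by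
      revert hi; fin_cases i <;> simp
    have hj' : j = 3 ∨ j = 4 ∨ j = 5 := by
      revert hj; fin_cases j <;> simp
    rcases hi' with rfl | rfl | rfl <;> rcases hj' with rfl | rfl | rfl
    · exact absurd rfl hne
    · exact ⟨2, by simp; linarith⟩
    · exact ⟨1, by simp; linarith⟩
    · exact ⟨2, by simp; linarith⟩
    · exact absurd rfl hne
    · exact ⟨0, by simp; linarith⟩
    · exact ⟨1, by simp; linarith⟩
    · exact ⟨0, by simp; linarith⟩
    · exact absurd rfl hne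
  obtain ⟨k, hk⟩ := hk
  refine ⟨|u i * v j - u j * v i|, abs_pos.2 hij, fun T₀ => ?_⟩
  obtain ⟨T, hT, hT'⟩ := growthB hs (mu k) (max T₀ 0)
  have hT0 : 0 ≤ T := (le_max_right _ _).trans hT
  refine ⟨T, (le_max_left _ _).trans hT, hT0, ?_⟩
  have h1 := abs_minor_le T x u v i j
  rw [hxi u c1'.1 c0'.1 c2'.1 hu6, hxi u c1'.1 c0'.1 c2'.1 hu6, hxi v c1'.2 c0'.2 c2'.2 hv6,
    hxi v c1'.2 c0'.2 c2'.2 hv6] at h1
  have h2 : Real.exp (-(mm i * tauf T x)) * u i * (Real.exp (-(mm j * tauf T x)) * v j) -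
      Real.exp (-(mm j * tauf T x)) * u j * (Real.exp (-(mm i * tauf T x)) * v i) =
      Real.exp (mu k * tauf T x) * (u i * v j - u j * v i) := by
    have : Real.exp (mu k * tauf T x) =
        Real.exp (-(mm i * tauf T x)) * Real.exp (-(mm j * tauf T x)) := by
      rw [← Real.exp_add]
      congr 1
      linear_combination (tauf T x) * hk
    rw [this]; ring
  rw [h2, abs_mul, Real.abs_exp] at h1
  have h3 : Real.exp (c2 * T) ≤ Real.exp (mu k * tauf T x) :=
    (Real.exp_le_exp.2 (mul_le_mul_of_nonneg_right (c2_le k) hT0)).trans hT'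
  have h4 := qq_pos T (x 1)
  calc |u i * v j - u j * v i| * Real.exp (c2 * T)
      ≤ |u i * v j - u j * v i| * Real.exp (mu k * tauf T x) :=
        mul_le_mul_of_nonneg_left h3 (abs_nonneg _)
    _ = Real.exp (mu k * tauf T x) * |u i * v j - u j * v i| := by ring
    _ ≤ √(ar2 T x u v) := h1
    _ = 1 * √(ar2 T x u v) := (one_mul _).symm
    _ ≤ (1 + qq T (x 1)) * √(ar2 T x u v) :=
        mul_le_mul_of_nonneg_right (by linarith) (Real.sqrt_nonneg _)

lemma ar2_zero_pos {x u v : E7} (h : LinearIndependent ℝ ![u, v]) : 0 < ar2 0 x u v := by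
  obtain ⟨i, j, hij⟩ := exists_minor h
  have h1 := minor_ar2 0 x u v i j
  simp only [xi, AA_zero] at h1
  refine lt_of_lt_of_le ?_ h1
  have h2 : Real.exp (-(mm i * tauf 0 x)) * u i * (Real.exp (-(mm j * tauf 0 x)) * v j) -
      Real.exp (-(mm j * tauf 0 x)) * u j * (Real.exp (-(mm i * tauf 0 x)) * v i) =
      (Real.exp (-(mm i * tauf 0 x)) * Real.exp (-(mm j * tauf 0 x))) *
        (u i * v j - u j * v i) := by ring
  rw [h2]
  have h3 : (Real.exp (-(mm i * tauf 0 x)) * Real.exp (-(mm j * tauf 0 x))) *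
        (u i * v j - u j * v i) ≠ 0 :=
    mul_ne_zero (mul_pos (Real.exp_pos _) (Real.exp_pos _)).ne' hij
  positivity

/-- The open set of full measure in `sin r > 0` on which asymptotic sectional expansion holds. -/
def OmE : Set E7 := {x | 0 < Real.sin (x 1) ∧ 0 < Real.cos (x 6)}

/-- The set `Ω` on the compact manifold. -/
def Om : Set QQ := pr '' OmE

lemma absDet_eq (T : ℝ) (x u v : E7) :
    absDet gQ phi T (pr x) (ln x u) (ln x v) = √(ar2 T x u v) / √(ar2 0 x u v) := by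
  have h1 : area gQ (pr x) (ln x u) (ln x v) = √(ar2 0 x u v) := by
    unfold area
    rw [inn_ln, inn_ln, inn_ln, ar2, Phi_zero, AA_zero, AA_zero]
  have h2 : area gQ (phi T (pr x)) (Dflow phi T (pr x) (ln x u)) (Dflow phi T (pr x) (ln x v)) =
      √(ar2 T x u v) := by
    rw [Dflow_ln, Dflow_ln]
    show area gQ (pr (Phi T x)) (ln (Phi T x) (AA T x u)) (ln (Phi T x) (AA T x v)) = _
    unfold area
    rw [inn_ln, inn_ln, inn_ln, ar2]
  unfold absDet
  rw [h1, h2]

lemma isASE : IsASE gQ phi Ecu Om := by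
  refine ⟨c2 / 2, by have := c2_pos; linarith, ?_⟩
  rintro _ ⟨x, ⟨hs, _⟩, rfl⟩ u hu v hv hli
  obtain ⟨u, rfl⟩ := ln_surj x u
  obtain ⟨v, rfl⟩ := ln_surj x v
  have hu6 := (mem_Ecu_ln x u).1 hu
  have hv6 := (mem_Ecu_ln x v).1 hv
  have hli' : LinearIndependent ℝ ![u, v] := by
    have h1 : LinearIndependent ℝ ((ln x : E7 →ₗ[ℝ] E7) ∘ ![u, v]) := by
      convert! hli using 1
      ext i; fin_cases i <;> rfl
    exact LinearIndependent.of_comp _ h1
  obtain ⟨K, hK, hg⟩ := growth_area hs hu6 hv6 hli'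
  have ha0 := Real.sqrt_pos.2 (ar2_zero_pos (x := x) hli')
  set a0 := √(ar2 0 x u v) with ha0def
  have hc2 := c2_pos
  -- the polynomial factor is harmless
  have hpoly : ∀ᶠ T : ℝ in atTop, a0 * (1 + qq T (x 1)) ≤ K * Real.exp (c2 / 2 * T) := by
    have h1 := (isLittleO_pow_exp_pos_mul_atTop (k := 2) (b := c2 / 2) (by linarith)).def
      (c := K / (5 * a0)) (by positivity)
    filter_upwards [h1, eventually_ge_atTop 1] with T hT hT1
    have h2 : qq T (x 1) ≤ (1 + T) ^ 2 := by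
      have h3 := one_le_sqrt_qq_bound T (x 1)
      rw [abs_of_pos (by linarith)] at h3
      calc qq T (x 1) = √(qq T (x 1)) ^ 2 := (Real.sq_sqrt (qq_pos _ _).le).symm
        _ ≤ (1 + T) ^ 2 := pow_le_pow_left₀ (Real.sqrt_nonneg _) h3 2
    rw [Real.norm_eq_abs, Real.norm_eq_abs, Real.abs_exp, abs_of_nonneg (by positivity)] at hT
    have h4 : 1 + qq T (x 1) ≤ 5 * T ^ 2 := by nlinarith
    calc a0 * (1 + qq T (x 1)) ≤ a0 * (5 * T ^ 2) := mul_le_mul_of_nonneg_left h4 ha0.le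
      _ ≤ a0 * (5 * (K / (5 * a0) * Real.exp (c2 / 2 * T))) := by gcongr
      _ = K * Real.exp (c2 / 2 * T) := by field_simp
  obtain ⟨T₁, hT₁⟩ := eventually_atTop.1 hpoly
  refine le_limsup_of_frequently_le (frequently_atTop.2 fun T₀ => ?_)
  obtain ⟨T, hT, _, hT'⟩ := hg (max (max T₀ T₁) 1)
  have hTT : max T₀ T₁ ≤ T := (le_max_left _ _).trans hT
  have hT1 : 1 ≤ T := (le_max_right _ _).trans hT
  refine ⟨T, (le_max_left _ _).trans hTT, ?_⟩
  rw [EReal.coe_le_coe_iff, absDet_eq]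
  have h2 := hT₁ T ((le_max_right _ _).trans hTT)
  have hq := qq_pos T (x 1)
  have h3 : Real.exp (c2 / 2 * T) * a0 ≤ √(ar2 T x u v) := by
    have h4 : Real.exp (c2 * T) = Real.exp (c2 / 2 * T) * Real.exp (c2 / 2 * T) := by
      rw [← Real.exp_add]; congr 1; ring
    rw [h4] at hT'
    have h5 : (1 + qq T (x 1)) * (Real.exp (c2 / 2 * T) * a0) ≤
        (1 + qq T (x 1)) * √(ar2 T x u v) := by
      calc (1 + qq T (x 1)) * (Real.exp (c2 / 2 * T) * a0)
          = Real.exp (c2 / 2 * T) * (a0 * (1 + qq T (x 1))) := by ring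
        _ ≤ Real.exp (c2 / 2 * T) * (K * Real.exp (c2 / 2 * T)) :=
            mul_le_mul_of_nonneg_left h2 (Real.exp_pos _).le
        _ = K * (Real.exp (c2 / 2 * T) * Real.exp (c2 / 2 * T)) := by ring
        _ ≤ _ := hT'
    exact le_of_mul_le_mul_left h5 (by linarith)
  have h4 : Real.exp (c2 / 2 * T) ≤ √(ar2 T x u v) / a0 := by
    rw [le_div_iff₀ ha0]; exact h3
  have h5 : c2 / 2 * T ≤ Real.log (√(ar2 T x u v) / a0) := by
    rw [← Real.log_exp (c2 / 2 * T)]
    exact Real.log_le_log (Real.exp_pos _) h4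
  rw [one_div, ← div_eq_inv_mul, le_div_iff₀ (by linarith)]
  exact h5

end Pool.Agent.Helper55.PM
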