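import Mathlib
import Pool.Agent.Helper55.PM.ASE4

set_option autoImplicit false

open Set Filter Topology MeasureTheory Manifold
open scoped ContDiff

namespace Pool.Agent.Helper55.PM

/-! ### Observables -/

lemma shift_rep {x y : E7} (h : pr x = pr y) : ∃ a b : ℤ,
    x 0 = y 0 + a * (2 * Real.pi) ∧ x 1 = y 1 + b * (2 * Real.pi) := by
  obtain ⟨g, rfl⟩ := (pr_eq_iff x y).1 h
  obtain ⟨a, ha⟩ := (gam_lat g).h0
  obtain ⟨b, hb⟩ := (gam_lat g).h1
  refine ⟨a, b, ?_, ?_⟩
  · rw [gam_apply g y, PiLp.add_apply, dil_apply, mm0, ha]; simp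
  · rw [gam_apply g y, PiLp.add_apply, dil_apply, mm1, hb]; simp

/-- `sin r` on the compact manifold. -/
noncomputable def sinr (q : QQ) : ℝ :=
  Quotient.lift (fun x : E7 => Real.sin (x 1)) (fun x y h => by
    obtain ⟨a, b, _, h1⟩ := shift_rep (Quotient.sound h : pr x = pr y)
    simp only
    rw [h1, Real.sin_add_int_mul_two_pi]) q

lemma sinr_pr (x : E7) : sinr (pr x) = Real.sin (x 1) := rfl

lemma continuous_sinr : Continuous sinr := by
  refine Continuous.quotient_lift ?_ _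
  have h : Continuous (fun x : E7 => x 1) := (contDiff_coord 1).continuous
  exact Real.continuous_sin.comp h

/-- The observable `κ` on the compact manifold. -/
noncomputable def kapQ (q : QQ) : ℝ :=
  Quotient.lift (fun x : E7 => kap (x 0) (x 1)) (fun x y h => by
    obtain ⟨a, b, h0, h1⟩ := shift_rep (Quotient.sound h : pr x = pr y)
    simp only
    rw [h0, h1, kap, kap, Real.sin_add_int_mul_two_pi, Real.cos_add_int_mul_two_pi,
      Real.cos_add_int_mul_two_pi]) q

lemma kapQ_pr (x : E7) : kapQ (pr x) = kap (x 0) (x 1) := rfl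

lemma continuous_kapQ : Continuous kapQ := by
  refine Continuous.quotient_lift ?_ _
  have h0 : Continuous (fun x : E7 => x 0) := (contDiff_coord 0).continuous
  have h1 : Continuous (fun x : E7 => x 1) := (contDiff_coord 1).continuous
  exact contDiff_kap.continuous.comp (h0.prodMk h1)

lemma average_kapQ (T : ℝ) (x : E7) :
    ∫ t in (0 : ℝ)..T, kapQ (phi t (pr x)) = tauf T x - x 2 := by
  have : ∀ t, kapQ (phi t (pr x)) = kap (thf t x) (rf t x) := fun t => rfl
  simp only [this]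
  rw [tauf]; ring

lemma sqrt_qq_lower (T r : ℝ) (hT : 0 ≤ T) : |Real.sin r| * T - 1 ≤ √(qq T r) := by
  have h1 : |Real.cos r + T * Real.sin r| ≤ √(qq T r) := by
    apply Real.abs_le_sqrt
    rw [qq]
    nlinarith [sq_nonneg (Real.sin r)]
  have h2 : |T * Real.sin r| - |Real.cos r| ≤ |Real.cos r + T * Real.sin r| := by
    have := abs_sub_abs_le_abs_sub (T * Real.sin r) (-(Real.cos r))
    rw [abs_neg, sub_neg_eq_add, add_comm (T * Real.sin r)] at this
    exact this
  rw [abs_mul, abs_of_nonneg hT] at h2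
  have h3 := Real.abs_cos_le_one r
  linarith

lemma tendsto_thf {x : E7} (hs : Real.sin (x 1) ≠ 0) :
    Tendsto (fun t => thf t x) atTop atTop := by
  have h1 : Tendsto (fun t => √(qq t (x 1))) atTop atTop := by
    have h2 : Tendsto (fun t : ℝ => |Real.sin (x 1)| * t + -1) atTop atTop :=
      tendsto_atTop_add_const_right _ _ (tendsto_id.const_mul_atTop (abs_pos.2 hs))
    refine tendsto_atTop_mono' _ ?_ h2
    filter_upwards [eventually_ge_atTop 0] with t ht
    have := sqrt_qq_lower t (x 1) ht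
    linarith
  have h3 := (Real.tendsto_log_atTop.comp h1).const_mul_atTop (show 0 < nu by rw [nu]; norm_num)
  have h4 := tendsto_atTop_add_const_left _ (x 0) h3
  refine h4.congr fun t => ?_
  rw [thf_eq]; rfl

lemma exists_angle {x : E7} (hs : Real.sin (x 1) ≠ 0) (a T₀ : ℝ) :
    ∃ T, T₀ ≤ T ∧ ∃ n : ℕ, thf T x = 2 * Real.pi * n + a := by
  obtain ⟨n, hn⟩ := exists_nat_ge ((thf T₀ x - a) / (2 * Real.pi))
  rw [div_le_iff₀ Real.two_pi_pos] at hn
  obtain ⟨T₁, hT₁, hT₁'⟩ := ((tendsto_thf hs).eventually_ge_atTop (2 * Real.pi * n + a)).and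
    (eventually_ge_atTop T₀) |>.exists
  have hc : ContinuousOn (fun t => thf t x) (Icc T₀ T₁) :=
    fun t _ => (hasDerivAt_thf t x).continuousAt.continuousWithinAt
  obtain ⟨T, hT, hT'⟩ := intermediate_value_Icc hT₁' hc
    (show 2 * Real.pi * n + a ∈ Icc (thf T₀ x) (thf T₁ x) from ⟨by linarith, hT₁⟩)
  exact ⟨T, hT.1, n, hT'⟩

lemma no_average {x : E7} (hs : Real.sin (x 1) ≠ 0) (a : ℝ) :
    ¬ Tendsto (fun T : ℝ => (1 / T) * ∫ t in (0 : ℝ)..T, kapQ (phi t (pr x))) atTop (𝓝 a) := by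
  intro h
  set s := Real.sin (x 1) with hsdef
  have habs := abs_pos.2 hs
  -- multiply by `s`
  have h1 : Tendsto (fun T : ℝ => s * ((1 / T) * ∫ t in (0 : ℝ)..T, kapQ (phi t (pr x)))) atTop
      (𝓝 (s * a)) := h.const_mul s
  have hform : ∀ T : ℝ, 0 < T → s * ((1 / T) * ∫ t in (0 : ℝ)..T, kapQ (phi t (pr x))) =
      (√(qq T (x 1)) * Real.cos (thf T x) - Real.cos (x 0)) / T := by
    intro T hT
    rw [average_kapQ, tauf_eq T x hs, ← hsdef]
    field_simp
    ring
  have hev : ∀ᶠ T : ℝ in atTop,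
      |s * ((1 / T) * ∫ t in (0 : ℝ)..T, kapQ (phi t (pr x))) - s * a| < |s| / 2 := by
    have := (Metric.tendsto_nhds.1 h1) (|s| / 2) (by linarith)
    simpa [Real.dist_eq] using this
  obtain ⟨T₀, hT₀⟩ := eventually_atTop.1 hev
  set T₁ := max (max T₀ 1) (4 / |s|) with hT₁
  have hc1 := Real.cos_le_one (x 0)
  have hc2 := Real.neg_one_le_cos (x 0)
  obtain ⟨T, hT, n, hn⟩ := exists_angle hs 0 T₁
  obtain ⟨T', hT', n', hn'⟩ := exists_angle hs Real.pi T₁
  have hTa : T₀ ≤ T := ((le_max_left _ _).trans (le_max_left _ _)).trans hT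
  have hTb : T₀ ≤ T' := ((le_max_left _ _).trans (le_max_left _ _)).trans hT'
  have hT1 : 1 ≤ T := ((le_max_right _ _).trans (le_max_left _ _)).trans hT
  have hT1' : 1 ≤ T' := ((le_max_right _ _).trans (le_max_left _ _)).trans hT'
  have hT4 : 4 / |s| ≤ T := (le_max_right _ _).trans hT
  have hT4' : 4 / |s| ≤ T' := (le_max_right _ _).trans hT'
  rw [div_le_iff₀ habs] at hT4 hT4'
  have e1 := hT₀ T hTa
  have e2 := hT₀ T' hTb
  rw [hform T (by linarith)] at e1
  rw [hform T' (by linarith)] at e2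
  have g1 : Real.cos (thf T x) = 1 := by rw [hn, ← cos_shift n]; simp
  have g2 : Real.cos (thf T' x) = -1 := by rw [hn', ← cos_shift n']; simp
  rw [g1] at e1
  rw [g2] at e2
  have f1 : |s| / 2 ≤ (√(qq T (x 1)) * 1 - Real.cos (x 0)) / T := by
    rw [le_div_iff₀ (by linarith)]
    have := sqrt_qq_lower T (x 1) (by linarith)
    rw [← hsdef] at this
    linarith
  have f2 : (√(qq T' (x 1)) * -1 - Real.cos (x 0)) / T' ≤ -(|s| / 2) := by
    rw [div_le_iff₀ (by linarith)]
    have := sqrt_qq_lower T' (x 1) (by linarith)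
    rw [← hsdef] at this
    linarith
  rw [abs_lt] at e1 e2
  linarith [e1.1, e1.2, e2.1, e2.2]

/-! ### Null sets -/

lemma volume_hyperplane (a : ℝ) : volume {y : E7 | y 1 = a} = 0 := by
  have h1 : {y : E7 | y 1 = a} = (WithLp.ofLp : E7 → Fin 7 → ℝ) ⁻¹' {f | f 1 = a} := rfl
  have h2 : MeasurableSet {f : Fin 7 → ℝ | f 1 = a} :=
    measurableSet_eq_fun (measurable_pi_apply 1) measurable_const
  rw [h1, (PiLp.volume_preserving_ofLp (Fin 7)).measure_preimage h2.nullMeasurableSet]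
  rw [volume_pi]
  exact Measure.pi_hyperplane (fun _ => (volume : Measure ℝ)) 1 a

lemma volume_sin_zero : volume {y : E7 | Real.sin (y 1) = 0} = 0 := by
  have h1 : {y : E7 | Real.sin (y 1) = 0} ⊆ ⋃ n : ℤ, {y : E7 | y 1 = n * Real.pi} := by
    intro y hy
    obtain ⟨n, hn⟩ := Real.sin_eq_zero_iff.1 hy
    exact mem_iUnion.2 ⟨n, hn.symm⟩
  exact measure_mono_null h1 (measure_iUnion_null fun n => volume_hyperplane _)

lemma isNull_sinr : IsNull E7 {q : QQ | sinr q = 0} := by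
  intro q₀
  refine measure_mono_null ?_ volume_sin_zero
  rintro _ ⟨q, ⟨hq, hq'⟩, rfl⟩
  have h1 : pr (chartAt E7 q₀ q) = q := isAffQuot.pi_chart (chart_mem_atlas E7 q₀) hq'
  have h2 : sinr (pr (chartAt E7 q₀ q)) = 0 := by rw [h1]; exact hq
  exact h2

lemma IsNull.mono {S T : Set QQ} (hT : IsNull E7 T) (h : S ⊆ T) : IsNull E7 S := by
  intro q
  exact measure_mono_null (image_mono (inter_subset_inter_left _ h)) (hT q)

lemma not_isNull_of_open {S : Set QQ} (hS : IsOpen S) (hne : S.Nonempty) : ¬ IsNull E7 S := by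
  intro h
  obtain ⟨q, hq⟩ := hne
  have h1 := h q
  have h2 : IsOpen (chartAt E7 q '' (S ∩ (chartAt E7 q).source)) :=
    (chartAt E7 q).isOpen_image_of_subset_source
      (hS.inter (chartAt E7 q).open_source) inter_subset_right
  exact (h2.measure_pos volume ⟨_, q, ⟨hq, mem_chart_source E7 q⟩, rfl⟩).ne' h1

lemma Om_eq : Om = {q | 0 < sinr q} ∩ {q | 0 < cosw q} := by
  ext q
  constructor
  · rintro ⟨x, ⟨h1, h2⟩, rfl⟩
    exact ⟨h1, h2⟩
  · rintro ⟨h1, h2⟩
    obtain ⟨x, rfl⟩ := surjective_pr q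
    exact ⟨x, ⟨h1, h2⟩, rfl⟩

lemma isOpen_Om : IsOpen Om := by
  rw [Om_eq]
  exact (isOpen_lt continuous_const continuous_sinr).inter
    (isOpen_lt continuous_const continuous_cosw)

lemma Om_sub : Om ⊆ UU := by
  rw [Om_eq]; exact fun q hq => hq.2

lemma not_isNull_Om : ¬ IsNull E7 Om := by
  refine not_isNull_of_open isOpen_Om ⟨pr (ev 1 (Real.pi / 2)), _, ⟨?_, ?_⟩, rfl⟩
  · rw [ev_apply, if_pos rfl, Real.sin_pi_div_two]; exact one_pos
  · rw [ev_apply, if_neg (by decide), Real.cos_zero]; exact one_pos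

instance : MeasurableSpace QQ := borel QQ
instance : BorelSpace QQ := ⟨rfl⟩

lemma basin_sub (μ : Measure QQ) : basin phi μ ⊆ {q | sinr q = 0} := by
  intro q hq
  by_contra hne
  obtain ⟨x, rfl⟩ := surjective_pr q
  exact no_average (x := x) hne _ (hq ⟨kapQ, continuous_kapQ⟩)

lemma not_isPhysical (μ : Measure QQ) : ¬ IsPhysical E7 phi μ :=
  fun h => h.2.2 (isNull_sinr.mono (basin_sub μ))

end Pool.Agent.Helper55.PM
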